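import Pool.Agent.helper40.TB.Cond

set_option linter.all false

/-!
# MP_ce98d8_co: the recursion (abstract form)
-/

namespace Pool.Agent.helper40.TB

/-- the numeric hypotheses of the step theorem (mirror of helper24's `Par`) -/
structure SPar (c Lam B q sq C N d w K E L tau La m kT : ℕ) : Prop where
  hLam : 1000000 * Lam ≤ c
  hc : ∃ s, c = 2 ^ s
  hq : q = sq ^ 2
  hh : ∃ h, q = 2 ^ h ∧ Even h
  hsq : ∃ h, sq = 2 ^ h
  hB : ∃ b, B = 2 ^ b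
  hC : ∃ j, 1 ≤ j ∧ C = 2 ^ j
  hw : q ^ 2 = w * N
  hC1 : c ^ 3 * q * d ≤ C * N
  hC2 : C * N ≤ 2 * (c ^ 3 * q * d)
  hd : 100 ≤ d
  hN : ∃ ν, N = 2 ^ ν
  hL : 1 ≤ L
  htau : 1 ≤ tau
  hLa : 1 ≤ La
  hK : K + 1 ≤ c ^ kT
  N1 : c ^ 10 * (K + 1) ≤ w
  N2 : (c * B) ^ 100 * L * (K + 1) * N ≤ q * d
  N3 : c ^ (kT + 12) * tau * sq * d ≤ N
  N3p : (c * B) ^ 100 * d ≤ N
  N4 : La * c ^ (kT + 12) ≤ q
  N5 : c ^ 6 * d ≤ B * q
  N7 : c ^ 200 ≤ B
  N7p : c ^ (kT + 15) ≤ B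
  N8 : (c * B) ^ 100 ≤ E
  z1 : 4 * B * q ^ 2 * C ≤ 2 ^ Lam
  z2 : N ≤ 2 ^ Lam
  z3 : E ≤ 2 ^ Lam
  z4 : m ≤ 2 ^ Lam
  z5 : c ≤ 2 ^ Lam

/-- the parameters after `j` steps -/
structure RInv (A s j m N d K E L tau La : ℕ) : Prop where
  inv : Inv (2 ^ s) (ea A j) (en A j) N d
  m0 : m ≤ (2 ^ s) ^ em A j
  N0 : ∃ ν, N = 2 ^ ν
  K0 : K + 1 ≤ 5 ^ j * (2 ^ s) ^ 4
  K1 : 1 ≤ K
  E0 : (2 ^ s) ^ 20100 ≤ E
  E1 : E ≤ (2 ^ s) ^ (A + 20100)
  L0 : 1 ≤ L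
  L1 : L ≤ (2 ^ s) ^ 202
  t0 : 1 ≤ tau
  t1 : tau ≤ (2 ^ s) ^ 2
  La0 : 1 ≤ La
  La1 : La * (2 ^ s) ^ 17 ≤ (2 ^ s) ^ ea A (j + 1)

theorem num_K {j K x : ℕ} (h1 : 1 ≤ 5 ^ j) (h2 : 1 ≤ x) (hK : K + 1 ≤ 5 ^ j * x) :
    3 * K + 3 + x + 1 ≤ 5 ^ (j + 1) * x := by
  have h3 : x ≤ 5 ^ j * x := Nat.le_mul_of_pos_left _ h1
  have h4 : 5 ^ (j + 1) * x = 5 * (5 ^ j * x) := by ring
  rw [h4]
  omega

theorem num_r2 {x d0 : ℕ} : x * (2 * d0) ≤ 4 * (x * d0) := by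
  have h : x * (2 * d0) = 2 * (x * d0) := by ring
  rw [h]; omega

theorem num_s2 (X J : ℕ) : ∃ s2, ∀ s, s2 ≤ s → 1000000 * (s * X) + 1000 + 5 ^ J ≤ 2 ^ s := by
  refine ⟨2 * (1000000 * X + 1000 + 5 ^ J) + 2, fun s hs => ?_⟩
  obtain ⟨M, hM⟩ : ∃ M, M = 1000000 * X + 1000 + 5 ^ J := ⟨_, rfl⟩
  rw [← hM] at hs
  have key : M * (s + 1) ≤ 2 ^ s := by
    clear * - hs
    induction s, hs using Nat.le_induction with
    | base =>
      have h1 : M + 1 ≤ 2 ^ M := Nat.lt_two_pow_self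
      have h2 : 2 ^ (2 * M + 2) = (2 * 2 ^ M) * (2 * 2 ^ M) := by ring
      rw [h2]
      calc M * (2 * M + 2 + 1) ≤ (2 * (M + 1)) * (2 * (M + 1)) := by nlinarith
        _ ≤ _ := Nat.mul_le_mul (by omega) (by omega)
    | succ s hs ih =>
      rw [pow_succ]
      nlinarith
  refine le_trans ?_ key
  rw [hM]
  have h5 : 0 < 5 ^ J := by positivity
  calc 1000000 * (s * X) + 1000 + 5 ^ J ≤ (1000000 * X) * s + (1000 + 5 ^ J) * (s + 1) := by
        nlinarith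
    _ ≤ (1000000 * X + 1000 + 5 ^ J) * (s + 1) := by nlinarith

theorem rec_aux {State : ℕ → ℕ → ℕ → ℕ → ℕ → ℕ → ℕ → ℕ → Prop}
    (hbase : ∀ A, 10 ≤ A → ∃ s0, ∀ s, s0 ≤ s → ∃ d, (2 ^ s) ^ (4 * A + 16) ≤ 2 * d ∧
      d ≤ 2 * (2 ^ s) ^ (4 * A + 16) ∧
      State ((2 ^ s) ^ (6 * A + 17)) ((2 ^ s) ^ (6 * A + 17)) d 400 ((2 ^ s) ^ (A - 2))
        (16 * 2 ^ s) ((2 ^ s) ^ 2) ((2 ^ s) ^ (2 * A + 15)))
    (hstep : ∀ c Lam B q sq C N d w K E L tau La m kT : ℕ,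
      SPar c Lam B q sq C N d w K E L tau La m kT → State m N d K E L tau La →
      ∀ E1, 8 * E1 ≤ C → 2 * c ^ 2 * E1 ≤ sq →
        State (2 * B * q ^ 2 * C * m) (B * q ^ 2 * C) (q * (C - 1) + (B - 1) * w * d)
          (3 * K + 3 + c ^ 4) E1 (c ^ 2 * B) 3 (2 * (q * (C - 1) + (B - 1) * w * d)))
    (A J : ℕ) (hA : 21000 ≤ A) : ∃ s0, ∀ s, s0 ≤ s → Even s →
      ∀ j, j ≤ J → ∃ m N d K E L tau La, RInv A s j m N d K E L tau La ∧
        State m N d K E L tau La := by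
  obtain ⟨s1, hs1⟩ := hbase A (by omega)
  -- the total exponent
  obtain ⟨X, hX⟩ : ∃ X, X = em A J + A + 20101 := ⟨_, rfl⟩
  obtain ⟨s2, hs2⟩ := num_s2 X J
  refine ⟨s1 + s2, fun s hs hev j => ?_⟩
  have hbig := hs2 s (by omega)
  obtain ⟨d0, hd1, hd2, hst0⟩ := hs1 s (by omega)
  have hc1000 : 1000 ≤ 2 ^ s :=
    le_trans (le_trans (Nat.le_add_left _ _) (Nat.le_add_right _ _)) hbig
  have h5J : 5 ^ J ≤ 2 ^ s := le_trans (Nat.le_add_left _ _) hbig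
  have hLamc : 1000000 * (s * X) ≤ 2 ^ s :=
    le_trans (le_trans (Nat.le_add_right _ _) (Nat.le_add_right _ _)) hbig
  obtain ⟨c, hc⟩ : ∃ c, c = 2 ^ s := ⟨_, rfl⟩
  rw [← hc] at hd1 hd2 hst0 hc1000 h5J hLamc
  have hc1 : 1 ≤ c := by omega
  have hXp : ∀ e, c ^ e = 2 ^ (s * e) := by intro e; rw [hc, ← pow_mul]
  induction j with
  | zero =>
    intro _
    refine ⟨_, _, _, _, _, _, _, _, ?_, hst0⟩
    have hd0 : 0 < d0 := by
      have : 0 < c ^ (4 * A + 16) := by positivity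
      omega
    refine { inv := { d0 := hd0, r1 := ?_, r2 := ?_, n1 := ?_, n2 := ?_ }, m0 := ?_, N0 := ?_,
             K0 := ?_, K1 := ?_, E0 := ?_, E1 := ?_, L0 := ?_, L1 := ?_, t0 := ?_, t1 := ?_, La0 := ?_,
             La1 := ?_ }
    · rw [← hc]
      show c ^ (2 * A - 2 + 3) * d0 ≤ 2 * c ^ (6 * A + 17)
      calc c ^ (2 * A - 2 + 3) * d0 ≤ c ^ (2 * A - 2 + 3) * (2 * c ^ (4 * A + 16)) :=
            Nat.mul_le_mul_left _ hd2
        _ = 2 * (c ^ (2 * A - 2 + 3) * c ^ (4 * A + 16)) := by ring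
        _ = 2 * c ^ (6 * A + 17) := by
            rw [← pow_add]; congr 2; omega
    · rw [← hc]
      show c ^ (6 * A + 17) ≤ 4 * (c ^ (2 * A - 2 + 3) * d0)
      calc c ^ (6 * A + 17) = c ^ (2 * A - 2 + 3) * c ^ (4 * A + 16) := by
            rw [← pow_add]; congr 1; omega
        _ ≤ c ^ (2 * A - 2 + 3) * (2 * d0) := Nat.mul_le_mul_left _ hd1
        _ ≤ 4 * (c ^ (2 * A - 2 + 3) * d0) := num_r2
    · rw [← hc]
      show c ^ (6 * A + 17) ≤ 4 * c ^ (6 * A + 17)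
      omega
    · rw [← hc]
      show c ^ (6 * A + 17) ≤ 4 * c ^ (6 * A + 17)
      omega
    · rw [← hc]
      exact le_rfl
    · exact ⟨_, hXp _⟩
    · rw [← hc, pow_zero, one_mul]
      calc 400 + 1 ≤ c ^ 1 := by rw [pow_one]; omega
        _ ≤ c ^ 4 := Nat.pow_le_pow_right hc1 (by norm_num)
    · norm_num
    · rw [← hc]; exact Nat.pow_le_pow_right hc1 (by omega)
    · rw [← hc]; exact Nat.pow_le_pow_right hc1 (by omega)
    · omega
    · rw [← hc]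
      calc 16 * c = 16 * c ^ 1 := by rw [pow_one]
        _ ≤ c ^ 202 := pw (by omega) hc1 (by norm_num)
    · exact Nat.one_le_pow _ _ hc1
    · rw [← hc]
    · exact Nat.one_le_pow _ _ hc1
    · rw [← hc, ← pow_add]
      apply Nat.pow_le_pow_right hc1
      rw [ea_succ, ea_zero]
      omega
  | succ j ih =>
    intro hj
    obtain ⟨m, N, d, K, E, L, tau, La, hR, hSt⟩ := ih (by omega)
    obtain ⟨hinv, hm, hN2, hK, hK1, hE0, hE1, hL0, hL1, ht0, ht1, hLa0, hLa1⟩ := hR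
    rw [← hc] at hinv hm hK hE0 hE1 hL1 ht1 hLa1
    have hd := hinv.d0
    have hNpos := hinv.N0 hc1
    obtain ⟨a, ha⟩ : ∃ a, ea A j = a := ⟨_, rfl⟩
    obtain ⟨a', ha'⟩ : ∃ a', ea A (j + 1) = a' := ⟨_, rfl⟩
    obtain ⟨n, hn⟩ : ∃ n, en A j = n := ⟨_, rfl⟩
    have c1 := en_cond1 A hA j
    have c3 := ea_cond3 A hA j
    have c5 := en_cond5 A hA j
    have c2 : ea A j + 20311 ≤ ea A (j + 1) := by rw [ea_succ]; omega
    have c4 := en_cond4 A j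
    have hnew := en_succ A j
    have hdiff := ea_diff A j
    have hea2 : ea A (j + 1 + 1) + 15 ≥ 0 := Nat.zero_le _
    rw [ha, hn] at hinv
    rw [ha'] at hLa1
    rw [hn, ha'] at c1
    rw [ha, ha'] at c3 c2
    rw [hn, ha, ha'] at c5
    rw [ha'] at c4 hnew
    rw [ha, ha'] at hdiff
    rw [← hdiff] at hnew
    -- sq, w, C
    obtain ⟨s', hs'⟩ := hev
    obtain ⟨sq, hsqd⟩ : ∃ sq, sq = 2 ^ (s' * a') := ⟨_, rfl⟩
    have hsq : sq * sq = c ^ a' := by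
      rw [hsqd, ← pow_add, hXp, hs']; congr 1; ring
    obtain ⟨ν, hν⟩ := hN2
    have hNle : N ≤ c ^ a' * c ^ a' := by
      calc N ≤ 4 * c ^ n := hinv.n2
        _ ≤ c ^ (2 * a') := pw (by omega) hc1 (by omega)
        _ = c ^ a' * c ^ a' := by rw [← pow_add]; congr 1; ring
    have hqq : c ^ a' * c ^ a' = 2 ^ (2 * (s * a')) := by
      rw [hXp, ← pow_add]; congr 1; ring
    have hνle : ν ≤ 2 * (s * a') := by
      rw [hqq, hν] at hNle
      exact (Nat.pow_le_pow_iff_right (by norm_num)).1 hNle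
    obtain ⟨w, hwd⟩ : ∃ w, w = 2 ^ (2 * (s * a') - ν) := ⟨_, rfl⟩
    have hw : c ^ a' * c ^ a' = w * N := by
      rw [hqq, hwd, hν, ← pow_add]; congr 1; omega
    have hCex : 2 * N ≤ c ^ 3 * c ^ a' * d := by
      calc 2 * N ≤ 2 * (4 * (c ^ (a + 3) * d)) := Nat.mul_le_mul_left _ hinv.r2
        _ = (8 * c ^ (a + 3)) * d := by ring
        _ ≤ c ^ (3 + a') * d := Nat.mul_le_mul_right _ (pw (by omega) hc1 (by omega))
        _ = c ^ 3 * c ^ a' * d := by rw [pow_add]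
    obtain ⟨jC, hj1, hC1, hC2⟩ := num_C hNpos hCex
    obtain ⟨C, hCd⟩ : ∃ C, C = 2 ^ jC := ⟨_, rfl⟩
    rw [← hCd] at hC1 hC2
    have hCpos : 1 ≤ C := by rw [hCd]; exact Nat.one_le_two_pow
    have hKc : K + 1 ≤ c ^ 5 := by
      calc K + 1 ≤ 5 ^ j * c ^ 4 := hK
        _ ≤ 5 ^ J * c ^ 4 := Nat.mul_le_mul_right _ (Nat.pow_le_pow_right (by norm_num) (by omega))
        _ ≤ c * c ^ 4 := Nat.mul_le_mul_right _ h5J
        _ = c ^ 5 := by ring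
    obtain ⟨N1, N2, N3, N3p, N4, N5, N8, Q1, Q2⟩ := cond_step hinv hc1000 hsq hKc hE0 hL1 ht1 hLa1
      c1 c2 c3 c5 hw hC1 hC2
    obtain ⟨k, hk⟩ : ∃ k, k = c ^ a' * (C - 1) + (c ^ 200 - 1) * w * d := ⟨_, rfl⟩
    have hinv' := hinv.next (by omega) (by omega) hw hCpos hC1 hC2 hk
    have hcB : (c * c ^ 200) ^ 100 = c ^ 20100 := by
      rw [← pow_succ', ← pow_mul]
    -- sizes
    have hemj : em A (j + 1) = em A j + en A (j + 1) + 1 := rfl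
    have hemJ : em A (j + 1) ≤ em A J := em_mono A hj
    have hN'le : c ^ 200 * (c ^ a') ^ 2 * C ≤ 4 * c ^ en A (j + 1) := by
      rw [hnew]; exact hinv'.n2
    have hLam : ∀ x, x ≤ X → c ^ x ≤ 2 ^ (s * X) := by
      intro x hx
      rw [hXp]
      exact Nat.pow_le_pow_right (by norm_num) (Nat.mul_le_mul_left _ hx)
    have henj := en_le_em A j
    have hd100 : 100 ≤ d := by
      have hna : a + 5 ≤ n := by
        have := en_ge A hA j
        rw [ha, hn] at this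
        exact this
      exact hinv.d100 hc1000 hna
    have hP : SPar c (s * X) (c ^ 200) (c ^ a') sq C N d w K E L tau La m 5 := by
      refine { hLam := ?_, hc := ⟨s, hc⟩, hq := ?_, hh := ?_, hsq := ⟨_, hsqd⟩, hB := ⟨_, hXp _⟩,
               hC := ⟨jC, hj1, hCd⟩, hw := ?_, hC1 := hC1, hC2 := hC2, hd := hd100, hN := ⟨ν, hν⟩,
               hL := hL0, htau := ht0, hLa := hLa0, hK := hKc, N1 := N1, N2 := N2, N3 := N3,
               N3p := N3p, N4 := N4, N5 := N5, N7 := le_rfl, N7p := ?_, N8 := N8, z1 := ?_,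
               z2 := ?_, z3 := ?_, z4 := ?_, z5 := ?_ }
      · exact hLamc
      · rw [← hsq]; ring
      · refine ⟨s * a', hXp _, ?_⟩
        rw [hs', Nat.add_mul]
        exact ⟨_, rfl⟩
      · rw [← hw]; ring
      · exact Nat.pow_le_pow_right hc1 (by norm_num)
      · calc 4 * c ^ 200 * (c ^ a') ^ 2 * C = 4 * (c ^ 200 * (c ^ a') ^ 2 * C) := by ring
          _ ≤ 4 * (4 * c ^ en A (j + 1)) := Nat.mul_le_mul_left _ hN'le
          _ = 16 * c ^ en A (j + 1) := by ring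
          _ ≤ c ^ X := pw (by omega) hc1 (by rw [hX]; omega)
          _ ≤ 2 ^ (s * X) := hLam X le_rfl
      · calc N ≤ 4 * c ^ n := hinv.n2
          _ ≤ c ^ X := pw (by omega) hc1 (by rw [hX]; omega)
          _ ≤ 2 ^ (s * X) := hLam X le_rfl
      · exact le_trans hE1 (hLam _ (by rw [hX]; omega))
      · exact le_trans hm (hLam _ (by rw [hX]; omega))
      · calc c = c ^ 1 := (pow_one c).symm
          _ ≤ 2 ^ (s * X) := hLam _ (by rw [hX]; omega)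
    have hstep' := hstep _ _ _ _ _ _ _ _ _ _ _ _ _ _ _ _ hP hSt ((c * c ^ 200) ^ 100) Q1 Q2
    refine ⟨_, _, _, _, _, _, _, _, ?_, hstep'⟩
    rw [← hk]
    refine { inv := ?_, m0 := ?_, N0 := ?_,
             K0 := ?_, K1 := ?_, E0 := ?_, E1 := ?_, L0 := ?_, L1 := ?_, t0 := ?_, t1 := ?_, La0 := ?_,
             La1 := ?_ }
    · rw [← hc, ha', hnew]
      exact hinv'
    · rw [← hc, hemj]
      calc 2 * c ^ 200 * (c ^ a') ^ 2 * C * m = 2 * (c ^ 200 * (c ^ a') ^ 2 * C) * m := by ring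
        _ ≤ 2 * (4 * c ^ en A (j + 1)) * c ^ em A j := by gcongr
        _ = 8 * c ^ (em A j + en A (j + 1)) := by rw [pow_add]; ring
        _ ≤ c ^ (em A j + en A (j + 1) + 1) := pw (by omega) hc1 le_rfl
    · refine ⟨s * 200 + 2 * (s * a') + jC, ?_⟩
      rw [hXp, hXp, hCd, pow_add, pow_add, ← pow_mul]
      congr 3
      ring
    · rw [← hc]
      exact num_K (Nat.one_le_pow _ _ (by norm_num)) (Nat.one_le_pow _ _ hc1) hK
    · exact le_trans (by norm_num) (Nat.le_add_left (3 * K + 3) 0 |>.trans (by omega))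
    · rw [hcB, ← hc]
    · rw [hcB, ← hc]
      exact Nat.pow_le_pow_right hc1 (by omega)
    · exact Nat.one_le_iff_ne_zero.2 (by positivity)
    · rw [← hc, ← pow_add]
    · norm_num
    · rw [← hc]
      calc 3 ≤ c ^ 1 := by rw [pow_one]; omega
        _ ≤ c ^ 2 := Nat.pow_le_pow_right hc1 (by norm_num)
    · have := hinv'.d0
      omega
    · rw [← hc]
      have hr1 := hinv'.r1
      have hn2 := hinv'.n2
      have : c ^ (a' + 3) * (2 * k * c ^ 17) ≤ c ^ (a' + 3) * c ^ ea A (j + 1 + 1) := by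
        calc c ^ (a' + 3) * (2 * k * c ^ 17) = 2 * c ^ 17 * (c ^ (a' + 3) * k) := by ring
          _ ≤ 2 * c ^ 17 * (2 * (4 * c ^ (200 + 2 * a' + (a' - a)))) := by
              apply Nat.mul_le_mul_left
              exact le_trans hr1 (Nat.mul_le_mul_left _ hn2)
          _ = 16 * c ^ ((200 + 2 * a' + (a' - a)) + 17) := by rw [pow_add _ _ 17]; ring
          _ ≤ c ^ (a' + 3 + ea A (j + 1 + 1)) := pw (by omega) hc1 (by rw [← hnew]; omega)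
          _ = c ^ (a' + 3) * c ^ ea A (j + 1 + 1) := by rw [pow_add]
      exact Nat.le_of_mul_le_mul_left this (by positivity)

end Pool.Agent.helper40.TB
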