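import Pool.Agent.helper40.TB.SatBase

set_option linter.all false

namespace Pool.Agent.helper40.TB

open Finset Pool.Agent.helper11.Tight

variable {X Y : Type*} [Fintype X] [DecidableEq X] [Fintype Y] [DecidableEq Y]

/-- the swapped set -/
def swp (Z : Finset (X × Y)) : Finset (Y × X) := Z.image Prod.swap

theorem mem_swp {Z : Finset (X × Y)} {p : Y × X} : p ∈ swp Z ↔ (p.2, p.1) ∈ Z := by
  unfold swp
  rw [Finset.mem_image]
  constructor
  · rintro ⟨⟨a, b⟩, h, rfl⟩
    exact h
  · intro h
    exact ⟨(p.2, p.1), h, rfl⟩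

theorem card_swp (Z : Finset (X × Y)) : (swp Z).card = Z.card :=
  Finset.card_image_of_injective _ Prod.swap_injective

/-- saturation of the product graph -/
theorem sat_T0 {H1 : SimpleGraph X} {H2 : SimpleGraph Y}
    {d1 d2 β1 β2 K La Lg t : ℕ} (hbi1 : Bi H1 β1) (hβ1 : 0 < β1) (hB1 : Base H1 d1)
    (hp1 : FewP3 H1 K) (hbi2 : Bi H2 β2) (hβ2 : 0 < β2) (hB2 : Base H2 d2) (hp2 : FewP3 H2 K)
    (hX : Fintype.card X < 2 ^ Lg) (hY : Fintype.card Y < 2 ^ Lg) (hLg : 1 ≤ Lg)
    (hLa1 : 4096 * β1 * Lg ^ 2 ≤ La) (hLa2 : 4096 * β2 * Lg ^ 2 ≤ La)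
    (hs1 : 8 * (20 * ((K + 4) * d2 + 2) * Fintype.card X) ≤ t)
    (hs2 : 8 * (20 * ((K + 4) * d1 + 2) * Fintype.card Y) ≤ t)
    (hs3 : 32 * β1 * β2 * Lg ^ 2 < t) :
    Sat (prodG H1 H2) t La := by
  classical
  intro Z hZ
  by_contra hcon
  push Not at hcon
  -- few edges
  have hZ0 : Z.Nonempty := by
    rw [← Finset.card_pos]; omega
  have he : La * eo (prodG H1 H2) Z Z < Z.card ^ 2 := by
    have h1 : eo (prodG H1 H2) Z Z = ∑ v ∈ Z, (nb (prodG H1 H2) v ∩ Z).card := by
      unfold eo
      rw [Finset.card_filter, Finset.sum_product]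
      apply Finset.sum_congr rfl
      intro v _
      rw [← Finset.card_filter]
      congr 1
      ext w
      rw [Finset.mem_filter, Finset.mem_inter, mem_nb]
      tauto
    rw [h1, Finset.mul_sum, pow_two]
    calc ∑ v ∈ Z, La * (nb (prodG H1 H2) v ∩ Z).card < ∑ v ∈ Z, Z.card :=
          Finset.sum_lt_sum_of_nonempty hZ0 hcon
      _ = Z.card * Z.card := by simp
  have he1 : eo1 H1 H2 Z ≤ eo (prodG H1 H2) Z Z := by
    unfold eo1 eo
    apply Finset.card_le_card
    intro p hp'
    rw [Finset.mem_filter] at hp' ⊢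
    exact ⟨hp'.1, Or.inl hp'.2⟩
  have he2 : eo1 H2 H1 (swp Z) ≤ eo (prodG H1 H2) Z Z := by
    unfold eo1 eo
    refine Finset.card_le_card_of_injOn (fun p => (p.1.swap, p.2.swap)) ?_ ?_
    · rintro ⟨⟨a, b⟩, ⟨a', b'⟩⟩ hp'
      rw [Finset.mem_coe, Finset.mem_filter, Finset.mem_product, mem_swp, mem_swp] at hp'
      rw [Finset.mem_coe, Finset.mem_filter, Finset.mem_product]
      exact ⟨hp'.1, Or.inr hp'.2⟩
    · rintro ⟨⟨a, b⟩, ⟨a', b'⟩⟩ _ ⟨⟨c, d⟩, ⟨c', d'⟩⟩ _ h
      simp only [Prod.swap_prod_mk, Prod.mk.injEq] at h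
      obtain ⟨⟨h1, h2⟩, h3, h4⟩ := h
      subst h1 h2 h3 h4
      rfl
  obtain ⟨R, hR1, hR2⟩ := rowpart hbi1 hβ1 hB2 hp2 Z hY hLg
    (lt_of_le_of_lt (Nat.mul_le_mul_left _ he1) he) hLa1 (le_trans hs1 hZ)
  obtain ⟨C, hC1, hC2⟩ := rowpart hbi2 hβ2 hB1 hp1 (swp Z) hX hLg
    (by rw [card_swp]; exact lt_of_le_of_lt (Nat.mul_le_mul_left _ he2) he) hLa2
    (by rw [card_swp]; exact le_trans hs2 hZ)
  rw [card_swp] at hC2
  have hC3 : (Z.filter (fun p => p.2 ∉ C)).card =
      ((swp Z).filter (fun p => p.1 ∉ C)).card := by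
    apply Finset.card_bij (fun p _ => p.swap)
    · rintro ⟨a, b⟩ hp'
      rw [Finset.mem_filter] at hp'
      rw [Finset.mem_filter, mem_swp]
      exact hp'
    · intro a _ b _ hab
      exact Prod.swap_injective hab
    · rintro ⟨a, b⟩ hp'
      rw [Finset.mem_filter, mem_swp] at hp'
      exact ⟨(b, a), by rw [Finset.mem_filter]; exact hp', rfl⟩
  rw [← hC3] at hC2
  have hcov : Z ⊆ (R ×ˢ C) ∪ (Z.filter (fun p => p.1 ∉ R) ∪ Z.filter (fun p => p.2 ∉ C)) := by
    intro p hp'
    rw [Finset.mem_union, Finset.mem_union, Finset.mem_product, Finset.mem_filter,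
      Finset.mem_filter]
    by_cases h1 : p.1 ∈ R
    · by_cases h2 : p.2 ∈ C
      · exact Or.inl ⟨h1, h2⟩
      · exact Or.inr (Or.inr ⟨hp', h2⟩)
    · exact Or.inr (Or.inl ⟨hp', h1⟩)
  have h1 := le_trans (Finset.card_le_card hcov) (Finset.card_union_le _ _)
  have h2 := Finset.card_union_le (Z.filter (fun p => p.1 ∉ R)) (Z.filter (fun p => p.2 ∉ C))
  rw [Finset.card_product] at h1
  have h3 : R.card * C.card ≤ (4 * β1 * Lg) * (4 * β2 * Lg) := Nat.mul_le_mul hR1 hC1
  have h4 : (4 * β1 * Lg) * (4 * β2 * Lg) = 16 * β1 * β2 * Lg ^ 2 := by ring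
  have h5 : 32 * β1 * β2 * Lg ^ 2 = 2 * (16 * β1 * β2 * Lg ^ 2) := by ring
  omega

/-- mixing of the product graph -/
theorem mix_T0 {H1 : SimpleGraph X} {H2 : SimpleGraph Y}
    {d2 β1 q2 m : ℕ} (hbi1 : Bi H1 β1) (hβ1 : 0 < β1) (hB2 : Base H2 d2)
    (hq2 : q2 = 1 + d2 * (d2 - 1))
    (hm1 : 8 * (4 * β1 * Fintype.card Y) ≤ m) (hm2 : 8 * (q2 * Fintype.card X) ≤ m) :
    Mix (prodG H1 H2) m (8 * β1) := by
  classical
  intro S R hS hR
  -- the pairs of columns
  set G : Finset (Y × Y) := Finset.univ.filter (fun p => ¬ Q H2 p.1 p.2 ∧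
    β1 ≤ (col S p.1).card ∧ 4 * β1 ≤ (col R p.2).card) with hG
  have h1 : ∑ p ∈ G, (col S p.1).card * (col R p.2).card ≤
      4 * β1 * eo (prodG H1 H2) S R := by
    have h2 : ∑ p ∈ G, eo H1 (col S p.1) (col R p.2) ≤ eo (prodG H1 H2) S R := by
      set F : Y × Y → Finset ((X × Y) × (X × Y)) := fun p =>
        (((col S p.1) ×ˢ (col R p.2)).filter (fun r => H1.Adj r.1 r.2)).image
          (fun r => ((r.1, p.1), (r.2, p.2))) with hF
      have hFc : ∀ p ∈ G, eo H1 (col S p.1) (col R p.2) = (F p).card := by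
        intro p _
        rw [hF]
        symm
        apply Finset.card_image_of_injective
        rintro ⟨a, b⟩ ⟨a', b'⟩ hab
        simp only [Prod.mk.injEq, and_true] at hab
        exact Prod.ext hab.1 hab.2
      have hdis : ∀ p ∈ G, ∀ p' ∈ G, p ≠ p' → Disjoint (F p) (F p') := by
        intro p _ p' _ hne
        rw [Finset.disjoint_left]
        intro t ht ht'
        rw [hF] at ht ht'
        rw [Finset.mem_image] at ht ht'
        obtain ⟨r, -, hr⟩ := ht
        obtain ⟨r', -, hr'⟩ := ht'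
        apply hne
        rw [← hr'] at hr
        simp only [Prod.mk.injEq] at hr
        exact Prod.ext hr.1.2 hr.2.2
      rw [Finset.sum_congr rfl hFc, ← Finset.card_biUnion hdis]
      unfold eo
      apply Finset.card_le_card
      intro t ht
      rw [Finset.mem_biUnion] at ht
      obtain ⟨p, hp', ht⟩ := ht
      rw [hF, Finset.mem_image] at ht
      obtain ⟨r, hr, rfl⟩ := ht
      rw [Finset.mem_filter, Finset.mem_product, mem_col, mem_col] at hr
      rw [hG, Finset.mem_filter] at hp'
      rw [Finset.mem_filter, Finset.mem_product]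
      exact ⟨hr.1, Or.inl ⟨hr.2, hp'.2.1⟩⟩
    calc ∑ p ∈ G, (col S p.1).card * (col R p.2).card
        ≤ ∑ p ∈ G, 4 * β1 * eo H1 (col S p.1) (col R p.2) := by
          apply Finset.sum_le_sum
          intro p hp'
          rw [hG, Finset.mem_filter] at hp'
          exact bi_count hbi1 hβ1 _ _ hp'.2.2.1 hp'.2.2.2
      _ = 4 * β1 * ∑ p ∈ G, eo H1 (col S p.1) (col R p.2) := by rw [Finset.mul_sum]
      _ ≤ 4 * β1 * eo (prodG H1 H2) S R := Nat.mul_le_mul_left _ h2
  -- all pairs
  have htot : ∑ p : Y × Y, (col S p.1).card * (col R p.2).card = S.card * R.card := by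
    rw [Fintype.sum_prod_type]
    simp only
    rw [← sum_col S, ← sum_col R, Finset.sum_mul_sum]
  have hcov : (Finset.univ : Finset (Y × Y)) ⊆ G ∪
      ((Finset.univ.filter (fun p : Y × Y => (col S p.1).card < β1)) ∪
      ((Finset.univ.filter (fun p : Y × Y => (col R p.2).card < 4 * β1)) ∪
      (Finset.univ.filter (fun p : Y × Y => Q H2 p.1 p.2)))) := by
    intro p _
    simp only [hG, Finset.mem_union, Finset.mem_filter, Finset.mem_univ, true_and]
    by_cases a1 : Q H2 p.1 p.2
    · tauto
    · by_cases a2 : (col S p.1).card < β1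
      · tauto
      · by_cases a3 : (col R p.2).card < 4 * β1
        · tauto
        · left
          exact ⟨a1, by omega, by omega⟩
  have hsumcov : S.card * R.card ≤ ∑ p ∈ G, (col S p.1).card * (col R p.2).card +
      (∑ p ∈ Finset.univ.filter (fun p : Y × Y => (col S p.1).card < β1),
        (col S p.1).card * (col R p.2).card +
      (∑ p ∈ Finset.univ.filter (fun p : Y × Y => (col R p.2).card < 4 * β1),
        (col S p.1).card * (col R p.2).card +
      ∑ p ∈ Finset.univ.filter (fun p : Y × Y => Q H2 p.1 p.2),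
        (col S p.1).card * (col R p.2).card)) := by
    rw [← htot]
    refine le_trans (Finset.sum_le_sum_of_subset hcov) ?_
    have un : ∀ (A B : Finset (Y × Y)) (f : Y × Y → ℕ), ∑ p ∈ A ∪ B, f p ≤
        ∑ p ∈ A, f p + ∑ p ∈ B, f p := by
      intro A B f
      rw [← Finset.sum_union_inter]
      exact Nat.le_add_right _ _
    refine le_trans (un _ _ _) (Nat.add_le_add_left ?_ _)
    refine le_trans (un _ _ _) (Nat.add_le_add_left ?_ _)
    exact un _ _ _
  have b1 : ∑ p ∈ Finset.univ.filter (fun p : Y × Y => (col S p.1).card < β1),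
        (col S p.1).card * (col R p.2).card ≤ β1 * Fintype.card Y * R.card := by
    calc ∑ p ∈ Finset.univ.filter (fun p : Y × Y => (col S p.1).card < β1),
        (col S p.1).card * (col R p.2).card
        ≤ ∑ p ∈ Finset.univ.filter (fun p : Y × Y => (col S p.1).card < β1),
          β1 * (col R p.2).card := by
          apply Finset.sum_le_sum
          intro p hp'
          rw [Finset.mem_filter] at hp'
          exact Nat.mul_le_mul_right _ hp'.2.le
      _ ≤ ∑ p : Y × Y, β1 * (col R p.2).card :=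
          Finset.sum_le_sum_of_subset (Finset.subset_univ _)
      _ = β1 * Fintype.card Y * R.card := by
          rw [Fintype.sum_prod_type]
          simp only
          rw [← Finset.mul_sum, sum_col R]
          simp
          ring
  have b2 : ∑ p ∈ Finset.univ.filter (fun p : Y × Y => (col R p.2).card < 4 * β1),
        (col S p.1).card * (col R p.2).card ≤ 4 * β1 * Fintype.card Y * S.card := by
    calc ∑ p ∈ Finset.univ.filter (fun p : Y × Y => (col R p.2).card < 4 * β1),
        (col S p.1).card * (col R p.2).card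
        ≤ ∑ p ∈ Finset.univ.filter (fun p : Y × Y => (col R p.2).card < 4 * β1),
          (col S p.1).card * (4 * β1) := by
          apply Finset.sum_le_sum
          intro p hp'
          rw [Finset.mem_filter] at hp'
          exact Nat.mul_le_mul_left _ hp'.2.le
      _ ≤ ∑ p : Y × Y, (col S p.1).card * (4 * β1) :=
          Finset.sum_le_sum_of_subset (Finset.subset_univ _)
      _ = 4 * β1 * Fintype.card Y * S.card := by
          rw [Fintype.sum_prod_type]
          simp only [Finset.sum_const, Finset.card_univ, smul_eq_mul]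
          rw [← Finset.mul_sum, ← Finset.sum_mul, sum_col S]
          ring
  have b3 : ∑ p ∈ Finset.univ.filter (fun p : Y × Y => Q H2 p.1 p.2),
        (col S p.1).card * (col R p.2).card ≤ q2 * Fintype.card X * S.card := by
    rw [Finset.sum_filter, Fintype.sum_prod_type]
    calc ∑ y : Y, ∑ y' : Y, (if Q H2 y y' then (col S y).card * (col R y').card else 0)
        ≤ ∑ y : Y, (col S y).card * (q2 * Fintype.card X) := by
          apply Finset.sum_le_sum
          intro y _
          rw [← Finset.sum_filter]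
          calc ∑ y' ∈ Finset.univ.filter (fun y' => Q H2 y y'), (col S y).card * (col R y').card
              ≤ ∑ y' ∈ Finset.univ.filter (fun y' => Q H2 y y'),
                (col S y).card * Fintype.card X := by
                apply Finset.sum_le_sum
                intro y' _
                exact Nat.mul_le_mul_left _ (Finset.card_le_univ _)
            _ = (col S y).card * (q2 * Fintype.card X) := by
                rw [Finset.sum_const, smul_eq_mul, Q_card hB2 y, ← hq2]
                ring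
      _ = q2 * Fintype.card X * S.card := by
          rw [← Finset.sum_mul, sum_col S]
          ring
  have c1 : 8 * (β1 * Fintype.card Y * R.card) ≤ S.card * R.card := by
    calc 8 * (β1 * Fintype.card Y * R.card) = (8 * (β1 * Fintype.card Y)) * R.card := by ring
      _ ≤ S.card * R.card := by
        apply Nat.mul_le_mul_right
        have : 8 * (4 * β1 * Fintype.card Y) = 32 * (β1 * Fintype.card Y) := by ring
        omega
  have c2 : 8 * (4 * β1 * Fintype.card Y * S.card) ≤ S.card * R.card := by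
    calc 8 * (4 * β1 * Fintype.card Y * S.card) = S.card * (8 * (4 * β1 * Fintype.card Y)) := by
          ring
      _ ≤ S.card * R.card := Nat.mul_le_mul_left _ (le_trans hm1 hR)
  have c3 : 8 * (q2 * Fintype.card X * S.card) ≤ S.card * R.card := by
    calc 8 * (q2 * Fintype.card X * S.card) = S.card * (8 * (q2 * Fintype.card X)) := by
          ring
      _ ≤ S.card * R.card := Nat.mul_le_mul_left _ (le_trans hm2 hR)
  have c4 : 8 * β1 * eo (prodG H1 H2) S R = 2 * (4 * β1 * eo (prodG H1 H2) S R) := by ring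
  omega

end Pool.Agent.helper40.TB
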