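import Pool.Agent.helper40.TB.Stab3

set_option linter.all false

namespace Pool.Agent.helper40.TB

open Finset Pool.Agent.helper11.Tight

variable {X Y : Type*} [Fintype X] [DecidableEq X] [Fintype Y] [DecidableEq Y]

theorem ar_q2 {d1 d2 q2 m1 : ℕ} (hq2 : q2 = 1 + d2 * (d2 - 1)) (hd2 : 0 < d2)
    (E1 : 1000 * (d1 * d2) ≤ m1) : 1000 * (d1 * q2) ≤ d2 * m1 := by
  have hq2d : q2 ≤ d2 * d2 := by
    rw [hq2]
    obtain ⟨t, rfl⟩ : ∃ t, d2 = t + 1 := ⟨d2 - 1, by omega⟩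
    have : t + 1 - 1 = t := by omega
    rw [this]
    nlinarith
  calc 1000 * (d1 * q2) ≤ 1000 * (d1 * (d2 * d2)) := by
        apply Nat.mul_le_mul_left
        exact Nat.mul_le_mul_left _ hq2d
    _ = d2 * (1000 * (d1 * d2)) := by ring
    _ ≤ d2 * m1 := Nat.mul_le_mul_left _ E1

/-- the arithmetic with natural numbers -/
theorem stab_arith_nat {d1 d2 m1 q1 q2 r2 K e2 β1 Df J Ja Jb Ms D u a b x W F defB : ℕ}
    (hKd : 4 * K ≤ d1) (hKe : 2 * K ≤ e2) (hN4 : 16 * β1 ≤ d1 * e2)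
    (hE1 : 1000 * (d1 * d2) ≤ m1) (hE3 : 2 * q1 ≤ m1)
    (hD8 : 8 * D ≤ d1) (hru : 8 * (q2 + d1 * u) ≤ q2 + r2)
    (h1 : J + d1 * q2 + Df = d2 * m1 + Ms) (hJ : J = Jb + Ja)
    (h2 : Ja + defB + a * m1 ≤ d2 * m1 + β1 * x)
    (h3 : b * m1 ≤ defB + b * q1)
    (h4 : D * r2 + (F * (d1 - D) + W * (d1 - K - D)) ≤ Ms)
    (h5 : q2 ≤ F + (a + b) * d2) (h6 : e2 * x ≤ W + K * x)
    (h7 : Jb ≤ D * d1 * u) :
    2 * (D * r2) + 2 * (a * m1) + defB + e2 * d1 * x ≤ 4 * Df := by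
  obtain ⟨D1, hD1⟩ : ∃ D1, d1 = D + D1 := ⟨d1 - D, by omega⟩
  obtain ⟨D2, hD2⟩ : ∃ D2, d1 = K + D + D2 := ⟨d1 - (K + D), by omega⟩
  have c1 : d1 - D = D1 := by omega
  have c2 : d1 - K - D = D2 := by omega
  rw [c1, c2] at h4
  have c3 : (D1 : ℤ) = (d1 : ℤ) - D := by rw [hD1]; push_cast; ring
  have c4 : (D2 : ℤ) = (d1 : ℤ) - K - D := by rw [hD2]; push_cast; ring
  have h4' : (D : ℤ) * r2 + F * ((d1 : ℤ) - D) + W * ((d1 : ℤ) - K - D) ≤ Ms := by
    rw [← c3, ← c4]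
    have : ((D * r2 + (F * D1 + W * D2) : ℕ) : ℤ) ≤ (Ms : ℤ) := by exact_mod_cast h4
    push_cast at this
    linarith
  have hfin := stab_arith (d1 := (d1 : ℤ)) (d2 := d2) (m1 := m1) (q1 := q1) (q2 := q2) (r2 := r2)
      (K := K) (e2 := e2) (β1 := β1) (Df := Df) (J := J) (Ja := Ja) (Jb := Jb)
      (Ms := Ms) (D := D) (u := u) (a := a) (b := b)
      (x := x) (W := W) (F := F) (defB := defB)
      (Int.natCast_nonneg _) (Int.natCast_nonneg _) (Int.natCast_nonneg _)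
      (Int.natCast_nonneg _) (Int.natCast_nonneg _) (Int.natCast_nonneg _)
      (Int.natCast_nonneg _) (Int.natCast_nonneg _) (Int.natCast_nonneg _)
      (Int.natCast_nonneg _) (Int.natCast_nonneg _) (Int.natCast_nonneg _)
      (Int.natCast_nonneg _) (Int.natCast_nonneg _) (Int.natCast_nonneg _)
      (Int.natCast_nonneg _)
      (by exact_mod_cast hKd) (by exact_mod_cast hKe) (by exact_mod_cast hN4)
      (by exact_mod_cast hE1) (by exact_mod_cast hE3) (by exact_mod_cast hD8)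
      (by exact_mod_cast hru) (by exact_mod_cast h1) (by rw [hJ]; push_cast; ring)
      (by exact_mod_cast h2) (by exact_mod_cast h3) h4' (by exact_mod_cast h5)
      (by exact_mod_cast h6) (by exact_mod_cast h7)
  exact_mod_cast hfin

/-- stability of the product graph: an independent set is close to a neighbourhood -/
theorem stab_T0 {H1 : SimpleGraph X} {H2 : SimpleGraph Y}
    {d1 M1 β1 e1 q1 m1 d2 M2 β2 e2 q2 r2 K θ : ℕ}
    (h1 : Good H1 d1 β1 K θ e1) (h2 : Good H2 d2 β2 K θ e2)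
    (hX : Fintype.card X = M1) (hY : Fintype.card Y = M2)
    (hc : PC d1 M1 β1 q1 m1 d2 M2 β2 e2 q2 r2 K θ) (hc2 : PC2 d1 β1 q1 m1 d2 r2)
    (I : Finset (X × Y)) (hI : ∀ p ∈ I, ∀ q ∈ I, ¬ (prodG H1 H2).Adj p q) :
    ∃ p : X × Y, (I \ nb (prodG H1 H2) p).card + 400 * I.card ≤
      400 * (d1 * r2 + d2 * m1) := by
  classical
  have hal := alpha_le h1 h2 hX hY hc I hI
  obtain ⟨Df, hDf⟩ : ∃ Df, I.card + Df = d1 * r2 + d2 * m1 := ⟨_, Nat.add_sub_of_le hal⟩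
  have hB1 := h1.toBase
  have hB2 := h2.toBase
  have hr : ∀ x y x' y', (x, y) ∈ I → (x', y') ∈ I → H1.Adj x x' → Q H2 y y' := by
    intro x y x' y' h3 h4 h5
    by_contra h6
    exact hI _ h3 _ h4 (Or.inl ⟨h5, h6⟩)
  have hq : ∀ x y x' y', (x, y) ∈ I → (x', y') ∈ I → H2.Adj y y' → Q H1 x x' := by
    intro x y x' y' h3 h4 h5
    by_contra h6
    exact hI _ h3 _ h4 (Or.inr ⟨h5, h6⟩)
  have hMpos1 : 0 < Fintype.card X := by
    rw [hX, hc.hM1, hc.hq1]; omega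
  have hMpos2 : 0 < Fintype.card Y := by
    rw [hY, hc.hM2, hc.hq2]; omega
  obtain ⟨x0⟩ : Nonempty X := Fintype.card_pos_iff.1 hMpos1
  obtain ⟨y00⟩ : Nonempty Y := Fintype.card_pos_iff.1 hMpos2
  by_cases htriv : I.card ≤ 400 * Df
  · refine ⟨(x0, y00), ?_⟩
    have : (I \ nb (prodG H1 H2) (x0, y00)).card ≤ I.card :=
      Finset.card_le_card Finset.sdiff_subset
    clear * - this htriv hDf
    omega
  push Not at htriv
  obtain ⟨w0, U0, hU0, hcen⟩ := stage1s h1 h2 hX hY hc I hI (by clear * - htriv hDf; omega)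
  obtain ⟨U, J, Ja, Jb, Ms, D, hJ0, hMs0, hU, hUc, hDsub, hDrow, hJJ, hJdis, hJa, hJbc, hstar,
    hcolK, hMs1, hMs2⟩ := stage2s h1 h2 hX hY hc I hr hq Df hDf w0 U0 hU0 hcen
  have hd2 : 0 < d2 := by have := hc.hθd; have := hc.hθ; omega
  have hdq : 1000 * (d1 * q2) ≤ d2 * m1 := ar_q2 hc.hq2 hd2 hc2.E1
  have hJI : ∀ p ∈ J, p ∈ I := by
    intro p hp
    rw [hJ0, Finset.mem_filter] at hp
    exact hp.1
  have hJcard : J.card = Jb.card + Ja.card := by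
    rw [hJJ, Finset.card_union_of_disjoint hJdis]
  have hQQc : ∀ y0 : Y, (Finset.univ.filter (fun y => Q H2 y0 y)).card = q2 := by
    intro y0
    rw [hc.hq2]
    exact Q_card hB2 y0
  -- regime A
  by_cases hreg : d2 * m1 ≤ 100 * Df
  · refine ⟨(w0, y00), ?_⟩
    have hsub : I \ nb (prodG H1 H2) (w0, y00) ⊆
        J ∪ (nb H1 w0 ×ˢ (Finset.univ.filter (fun y => Q H2 y00 y))) := by
      intro p hp
      rw [Finset.mem_sdiff, mem_nb] at hp
      obtain ⟨hp1, hp2⟩ := hp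
      rw [Finset.mem_union, Finset.mem_product]
      by_cases hadj : H1.Adj w0 p.1
      · right
        refine ⟨by rw [mem_nb]; exact hadj, ?_⟩
        rw [Finset.mem_filter]
        refine ⟨Finset.mem_univ _, ?_⟩
        by_contra hnq
        exact hp2 (Or.inl ⟨hadj, hnq⟩)
      · left
        rw [hJ0, Finset.mem_filter, mem_nb]
        exact ⟨hp1, hadj⟩
    have hc3 := le_trans (Finset.card_le_card hsub) (Finset.card_union_le _ _)
    rw [Finset.card_product, hB1.reg, hQQc] at hc3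
    exact ar_A hc3 hstar hMs1 hreg hdq hDf
  push Not at hreg
  -- numerics
  have hDr : D.card * r2 ≤ Ms.card := miss_row _ _ _ hDrow
  have hdU : d1 * U.card ≤ d1 * β2 := Nat.mul_le_mul_left _ hUc.le
  have hru : 8 * (q2 + d1 * U.card) ≤ q2 + r2 := ar_ru hc.N3 hdU hc.hM2
  have hJb8 : 8 * Jb.card ≤ D.card * r2 := by
    have e1 : D.card * (8 * (q2 + d1 * U.card)) ≤ D.card * (q2 + r2) :=
      Nat.mul_le_mul_left _ hru
    have e2 : D.card * (8 * (q2 + d1 * U.card)) =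
        8 * (D.card * q2) + 8 * (D.card * d1 * U.card) := by ring
    have e3 : D.card * (q2 + r2) = D.card * q2 + D.card * r2 := by ring
    rw [e2, e3] at e1
    exact ar_Jb e1 hJbc
  have hr2 : 0 < r2 := by
    have a1 := hc.N3
    have a2 := hc.hM2
    have a3 := hc.hq2
    clear * - a1 a2 a3
    omega
  have hD8 : 8 * D.card ≤ d1 := by
    have e1 : (8 * D.card) * r2 ≤ d1 * r2 := by
      have : (8 * D.card) * r2 = 8 * (D.card * r2) := by ring
      rw [this]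
      exact ar_D8 hDr hMs1 hdq hreg hc2.E5
    exact Nat.le_of_mul_le_mul_right e1 hr2
  have hUJ : ∀ p ∈ J, p.2 ∈ U := fun p hp => hU ▸ Finset.mem_image_of_mem _ hp
  have hJaJ : ∀ p ∈ Ja, p ∈ J := fun p hp => by rw [hJJ]; exact Finset.mem_union_right _ hp
  obtain ⟨y0, hy0⟩ := stage3s h1 h2 hX hY hc hc2 Ja
    (fun x y x' y' h3 h4 h5 => hr x y x' y' (hJI _ (hJaJ _ h3)) (hJI _ (hJaJ _ h4)) h5) w0 U
    (fun p hp => hUJ _ (hJaJ _ hp)) hJa (ar_hm hJcard hstar hJb8 hDr hdq hreg) (by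
      have : 2 * β1 * U.card = 2 * (β1 * U.card) := by ring
      rw [this]
      exact ar_hu hMs2 hMs1 hdq hreg)
  obtain ⟨defB, hA2, hA3, hc7⟩ := p_cols (d2 := d2) hB1 hB2 hX hc.hq1 hc.hM1 Ja w0 U
    (fun p hp => hUJ _ (hJaJ _ hp)) hJa y0 hy0
  have hWc := p_W h2 U hUc y0
  obtain ⟨hnfull, hA5⟩ := p_full hB1 hB2 hc.hq1 hc.hq2 hd2 I Ja Ms
    (fun p hp => hJI _ (hJaJ _ hp)) hq w0 hMs0 U y0
  obtain ⟨B0, hB0def⟩ : ∃ B0, B0 = nb H2 y0 ∩ U := ⟨_, rfl⟩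
  obtain ⟨Aa, hAadef⟩ : ∃ Aa, Aa = nb H2 y0 \ U := ⟨_, rfl⟩
  obtain ⟨U2, hU2def⟩ : ∃ U2, U2 = U \ nb H2 y0 := ⟨_, rfl⟩
  obtain ⟨QQ, hQQdef⟩ : ∃ QQ, QQ = Finset.univ.filter (fun y => Q H2 y0 y) := ⟨_, rfl⟩
  rw [← hU2def, ← hAadef] at hA2
  rw [← hU2def] at hc7
  rw [← hB0def] at hA3
  rw [← hU2def, ← hQQdef] at hWc
  rw [← hB0def, ← hAadef, ← hQQdef] at hnfull hA5
  obtain ⟨Bad, hBaddef⟩ : ∃ Bad, Bad = B0.filter (fun y => (col Ja y).card ≤ q1) := ⟨_, rfl⟩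
  obtain ⟨Fs, hFsdef⟩ : ∃ Fs, Fs = QQ.filter (fun z => d1 ≤ (col Ms z).card) := ⟨_, rfl⟩
  obtain ⟨W, hWdef⟩ : ∃ W, W = nbs H2 U2 \ QQ := ⟨_, rfl⟩
  rw [← hBaddef] at hA3
  rw [← hWdef] at hWc
  rw [← hBaddef, ← hFsdef] at hnfull hA5
  have hFsQQ : Fs ⊆ QQ := by rw [hFsdef]; exact Finset.filter_subset _ _
  have hWU : W ⊆ nbs H2 U := by
    intro z hz
    rw [hWdef, Finset.mem_sdiff, mem_nbs] at hz
    obtain ⟨⟨v, hv, hvz⟩, -⟩ := hz
    rw [mem_nbs]
    rw [hU2def, Finset.mem_sdiff] at hv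
    exact ⟨v, hv.1, hvz⟩
  have hdisW : Disjoint Fs W := by
    rw [hWdef]
    exact Finset.disjoint_of_subset_left hFsQQ Finset.disjoint_sdiff
  have hA4 := p_miss Ms D Fs W hDrow hdisW (by
    intro y hy
    rw [hFsdef, Finset.mem_filter] at hy
    exact hy.2) (fun y hy => hcolK y (hWU hy))
  have hfin' := stab_arith_nat hc.hKd hc.hKe hc.N4 hc2.E1 hc2.E3 hD8 hru hstar hJcard hA2 hA3 hA4
    hA5 hWc hJbc
  -- the set outside the model
  refine ⟨(w0, y0), ?_⟩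
  have hsub : I \ nb (prodG H1 H2) (w0, y0) ⊆
      (Jb ∪ Ja.filter (fun p => p.2 ∈ U2)) ∪ (nb H1 w0 ×ˢ (QQ \ Fs)) := by
    intro p hp
    rw [Finset.mem_sdiff, mem_nb] at hp
    obtain ⟨hp1, hp2⟩ := hp
    rw [Finset.mem_union, Finset.mem_product]
    by_cases hadj : H1.Adj w0 p.1
    · right
      refine ⟨by rw [mem_nb]; exact hadj, ?_⟩
      have hpQ : p.2 ∈ QQ := by
        rw [hQQdef, Finset.mem_filter]
        refine ⟨Finset.mem_univ _, ?_⟩
        by_contra hnq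
        exact hp2 (Or.inl ⟨hadj, hnq⟩)
      rw [Finset.mem_sdiff]
      refine ⟨hpQ, ?_⟩
      intro hpF
      rw [hFsdef, Finset.mem_filter] at hpF
      have hsubc : col Ms p.2 ⊆ nb H1 w0 := by
        intro x hx
        rw [mem_col, hMs0, Finset.mem_sdiff, Finset.mem_product] at hx
        exact hx.1.1
      have heq : col Ms p.2 = nb H1 w0 := by
        apply Finset.eq_of_subset_of_card_le hsubc
        rw [hB1.reg]
        exact hpF.2
      have : p.1 ∈ col Ms p.2 := by rw [heq, mem_nb]; exact hadj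
      rw [mem_col, hMs0, Finset.mem_sdiff] at this
      exact this.2 hp1
    · left
      have hpJ : p ∈ J := by
        rw [hJ0, Finset.mem_filter, mem_nb]
        exact ⟨hp1, hadj⟩
      have hpJ' := hpJ
      rw [hJJ, Finset.mem_union] at hpJ
      rw [Finset.mem_union]
      rcases hpJ with h | h
      · exact Or.inl h
      · right
        rw [Finset.mem_filter]
        refine ⟨h, ?_⟩
        rw [hU2def, Finset.mem_sdiff, mem_nb]
        refine ⟨hUJ _ hpJ', ?_⟩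
        intro hadj2
        exact hp2 (Or.inr ⟨hadj2, (hJa _ h).1⟩)
  have hc5 := le_trans (Finset.card_le_card hsub) (Finset.card_union_le _ _)
  have hc6 := Finset.card_union_le Jb (Ja.filter (fun p => p.2 ∈ U2))
  rw [Finset.card_product, hB1.reg] at hc5
  have hc8 : d1 * (QQ \ Fs).card ≤ (Aa.card + Bad.card) * (d1 * d2) := by
    calc d1 * (QQ \ Fs).card ≤ d1 * ((Aa.card + Bad.card) * d2) := Nat.mul_le_mul_left _ hnfull
      _ = (Aa.card + Bad.card) * (d1 * d2) := by ring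
  have hc9 : 1000 * ((Aa.card + Bad.card) * (d1 * d2)) ≤ Aa.card * m1 + Bad.card * m1 := by
    calc 1000 * ((Aa.card + Bad.card) * (d1 * d2)) =
        (Aa.card + Bad.card) * (1000 * (d1 * d2)) := by ring
      _ ≤ (Aa.card + Bad.card) * m1 := Nat.mul_le_mul_left _ hc2.E1
      _ = Aa.card * m1 + Bad.card * m1 := by ring
  have hc10 : 2 * (Bad.card * q1) ≤ Bad.card * m1 := by
    calc 2 * (Bad.card * q1) = Bad.card * (2 * q1) := by ring
      _ ≤ Bad.card * m1 := Nat.mul_le_mul_left _ hc2.E3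
  have hc11 : 16 * (β1 * U2.card) ≤ e2 * d1 * U2.card := by
    calc 16 * (β1 * U2.card) = (16 * β1) * U2.card := by ring
      _ ≤ (d1 * e2) * U2.card := Nat.mul_le_mul_right _ hc.N4
      _ = e2 * d1 * U2.card := by ring
  exact ar_end hc5 hc6 hc7 hc8 hc9 hc10 hA3 hc11 hJb8 hfin' hDf

end Pool.Agent.helper40.TB
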