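import Pool.Agent.helper40.TB.State
import Pool.Agent.helper40.TB.Stab4
import Pool.Agent.helper40.TB.SatBase2
import Pool.Agent.helper11.Tight.FinalT

set_option linter.all false

namespace Pool.Agent.helper40.TB

open Finset Pool.Agent.helper11.Tight

/-- `PC2` from the parameters -/
theorem pc2_of {A s c d1 M1 β1 d2 M2 β2 q1 m1 e2 q2 r2 K θ : ℕ} (h1 : Par A s c d1 M1 β1)
    (h2 : Par (A + 5) s c d2 M2 β2) (hpc : PC d1 M1 β1 q1 m1 d2 M2 β2 e2 q2 r2 K θ) :
    PC2 d1 β1 q1 m1 d2 r2 := by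
  have hA := h1.hA
  have hcl := par_c_large h1
  have hcc : 4000 ≤ c := by linarith
  have hc1 : 1 ≤ c := by linarith
  obtain ⟨R, hRdef⟩ : ∃ R, R = c ^ (A - 10) := ⟨_, rfl⟩
  have hR : 1 ≤ R := by rw [hRdef]; exact Nat.one_le_pow _ _ (by omega)
  have hP : c ^ A = c ^ 10 * R ^ 1 := by
    rw [hRdef, ← pow_mul, mul_one, ← pow_add]; congr 1; omega
  have d1e : d1 = c ^ 10 * R ^ 1 := by rw [h1.hd, hP]
  have d2e : d2 = c ^ 15 * R ^ 1 := by
    rw [h2.hd, pow_add, hP]; ring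
  have M1e : M1 = c ^ 31 * R ^ 3 := by
    rw [h1.hM, pow_add, pow_mul', hP]; ring
  have M2e : M2 = c ^ 46 * R ^ 3 := by
    rw [h2.hM, show 3 * (A + 5) + 1 = 3 * A + 16 by ring, pow_add, pow_mul', hP]; ring
  have β1e : β1 = c ^ 22 * R ^ 2 := by
    rw [h1.hβ, pow_add, pow_mul', hP]; ring
  have hcR : ∀ i k, 1 ≤ c ^ i * R ^ k := fun i k => Nat.mul_pos (by positivity) (by positivity)
  have hd1 : 1 ≤ d1 := d1e ▸ hcR 10 1
  have hd2 : 1 ≤ d2 := d2e ▸ hcR 15 1
  have q1l : q1 ≤ c ^ 20 * R ^ 2 := by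
    rw [hpc.hq1]
    refine le_trans (num_q_le hd1) (le_of_eq ?_); rw [d1e]; ring
  have q2l : q2 ≤ c ^ 30 * R ^ 2 := by
    rw [hpc.hq2]
    refine le_trans (num_q_le hd2) (le_of_eq ?_); rw [d2e]; ring
  have mono : ∀ {a i j k l : ℕ}, a ≤ c → i + 1 ≤ j → k ≤ l →
      a * (c ^ i * R ^ k) ≤ c ^ j * R ^ l := fun ha hij hkl => num_mono_aux hc1 hR ha hij hkl
  have a1 : 4000 * (c ^ 25 * R ^ 2) ≤ c ^ 31 * R ^ 3 := mono hcc (by norm_num) (by norm_num)
  have a2 : 4000 * (c ^ 22 * R ^ 2) ≤ c ^ 31 * R ^ 3 := mono hcc (by norm_num) (by norm_num)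
  have a3 : 4000 * (c ^ 20 * R ^ 2) ≤ c ^ 31 * R ^ 3 := mono hcc (by norm_num) (by norm_num)
  have a4 : 4000 * (c ^ 10 * R ^ 1) ≤ c ^ 31 * R ^ 3 := mono hcc (by norm_num) (by norm_num)
  have dd : d1 * d2 = c ^ 25 * R ^ 2 := by rw [d1e, d2e]; ring
  have hM1 := hpc.hM1
  have hM2 := hpc.hM2
  have b1 : 2 * M1 ≤ 4 * m1 := by
    rw [M1e] at hM1 ⊢
    rw [d1e] at hM1
    have := hcR 31 3
    clear * - hM1 this a3 a4 q1l
    omega
  rw [M1e] at b1
  have e5a : d2 * m1 ≤ c ^ 46 * R ^ 4 := by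
    have h3 : m1 ≤ M1 := by rw [hM1]; exact Nat.le_add_left _ _
    calc d2 * m1 ≤ d2 * M1 := Nat.mul_le_mul_left _ h3
      _ = c ^ 46 * R ^ 4 := by rw [d2e, M1e]; ring
  have e5b : c ^ 46 * R ^ 4 ≤ d1 * r2 := by
    have h3 : 4000 * (c ^ 30 * R ^ 2) ≤ c ^ 46 * R ^ 3 := mono hcc (by norm_num) (by norm_num)
    have h4 : c ^ 46 * R ^ 3 ≤ 2 * r2 := by
      rw [M2e] at hM2
      clear * - hM2 h3 q2l
      omega
    have h5 : 2 * (c ^ 46 * R ^ 4) ≤ 2 * (d1 * r2) := by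
      calc 2 * (c ^ 46 * R ^ 4) ≤ c ^ 56 * R ^ 4 :=
            mono (by omega) (by norm_num) le_rfl
        _ = d1 * (c ^ 46 * R ^ 3) := by rw [d1e]; ring
        _ ≤ d1 * (2 * r2) := Nat.mul_le_mul_left _ h4
        _ = 2 * (d1 * r2) := by ring
    exact Nat.le_of_mul_le_mul_left h5 (by norm_num)
  constructor
  · rw [dd]
    clear * - a1 b1
    omega
  · rw [β1e]
    clear * - a2 b1
    omega
  · clear * - a3 b1 q1l
    omega
  · exact le_trans e5a e5b

/-- the size of the degree -/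
theorem deg_bounds {A s c d1 M1 β1 d2 M2 β2 q1 m1 e2 q2 r2 K θ : ℕ} (h1 : Par A s c d1 M1 β1)
    (h2 : Par (A + 5) s c d2 M2 β2) (hpc : PC d1 M1 β1 q1 m1 d2 M2 β2 e2 q2 r2 K θ) :
    c ^ (4 * A + 16) ≤ 2 * (d1 * r2 + d2 * m1) ∧ d1 * r2 + d2 * m1 ≤ 2 * c ^ (4 * A + 16) := by
  have hA := h1.hA
  have hcl := par_c_large h1
  have hcc : 4000 ≤ c := by linarith
  have hc1 : 1 ≤ c := by linarith
  obtain ⟨R, hRdef⟩ : ∃ R, R = c ^ (A - 10) := ⟨_, rfl⟩
  have hR : 1 ≤ R := by rw [hRdef]; exact Nat.one_le_pow _ _ (by omega)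
  have hP : c ^ A = c ^ 10 * R ^ 1 := by
    rw [hRdef, ← pow_mul, mul_one, ← pow_add]; congr 1; omega
  have d1e : d1 = c ^ 10 * R ^ 1 := by rw [h1.hd, hP]
  have d2e : d2 = c ^ 15 * R ^ 1 := by
    rw [h2.hd, pow_add, hP]; ring
  have M1e : M1 = c ^ 31 * R ^ 3 := by
    rw [h1.hM, pow_add, pow_mul', hP]; ring
  have M2e : M2 = c ^ 46 * R ^ 3 := by
    rw [h2.hM, show 3 * (A + 5) + 1 = 3 * A + 16 by ring, pow_add, pow_mul', hP]; ring
  have hcR : ∀ i k, 1 ≤ c ^ i * R ^ k := fun i k => Nat.mul_pos (by positivity) (by positivity)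
  have hd1 : 1 ≤ d1 := d1e ▸ hcR 10 1
  have hd2 : 1 ≤ d2 := d2e ▸ hcR 15 1
  have q2l : q2 ≤ c ^ 30 * R ^ 2 := by
    rw [hpc.hq2]
    refine le_trans (num_q_le hd2) (le_of_eq ?_); rw [d2e]; ring
  have mono : ∀ {a i j k l : ℕ}, a ≤ c → i + 1 ≤ j → k ≤ l →
      a * (c ^ i * R ^ k) ≤ c ^ j * R ^ l := fun ha hij hkl => num_mono_aux hc1 hR ha hij hkl
  have hM1 := hpc.hM1
  have hM2 := hpc.hM2
  have hc416 : c ^ (4 * A + 16) = c ^ 56 * R ^ 4 := by
    rw [show 4 * A + 16 = A * 4 + 16 by ring, pow_add, pow_mul, hP]; ring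
  have h3 : 4000 * (c ^ 30 * R ^ 2) ≤ c ^ 46 * R ^ 3 := mono hcc (by norm_num) (by norm_num)
  have h4 : c ^ 46 * R ^ 3 ≤ 2 * r2 := by
    rw [M2e] at hM2
    clear * - hM2 h3 q2l
    omega
  have h5 : r2 ≤ c ^ 46 * R ^ 3 := by
    rw [← M2e, hM2]; exact Nat.le_add_left _ _
  have h6 : m1 ≤ c ^ 31 * R ^ 3 := by
    rw [← M1e, hM1]; exact Nat.le_add_left _ _
  have h7 : d1 * (c ^ 46 * R ^ 3) = c ^ 56 * R ^ 4 := by rw [d1e]; ring
  have h8 : d2 * (c ^ 31 * R ^ 3) = c ^ 46 * R ^ 4 := by rw [d2e]; ring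
  rw [hc416]
  constructor
  · calc c ^ 56 * R ^ 4 = d1 * (c ^ 46 * R ^ 3) := h7.symm
      _ ≤ d1 * (2 * r2) := Nat.mul_le_mul_left _ h4
      _ = 2 * (d1 * r2) := by ring
      _ ≤ 2 * (d1 * r2 + d2 * m1) := by omega
  · have h9 : d1 * r2 ≤ c ^ 56 * R ^ 4 := by rw [← h7]; exact Nat.mul_le_mul_left _ h5
    have h10 : d2 * m1 ≤ c ^ 46 * R ^ 4 := by rw [← h8]; exact Nat.mul_le_mul_left _ h6
    have h11 : 1 * (c ^ 46 * R ^ 4) ≤ c ^ 56 * R ^ 4 := mono hc1 (by norm_num) le_rfl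
    clear * - h9 h10 h11
    omega

/-- the base of the recursion -/
theorem base_T0 (A : ℕ) (hA : 10 ≤ A) : ∃ s0, ∀ s, s0 ≤ s →
    ∃ (M1 M2 d : ℕ) (T : SimpleGraph (Fin M1 × Fin M2)),
      M1 * M2 = (2 ^ s) ^ (6 * A + 17) ∧
      (2 ^ s) ^ (4 * A + 16) ≤ 2 * d ∧ d ≤ 2 * (2 ^ s) ^ (4 * A + 16) ∧
      St T d 400 ((2 ^ s) ^ (A - 2)) (16 * 2 ^ s) ((2 ^ s) ^ 2) ((2 ^ s) ^ (2 * A + 15))
        (s * (6 * A + 17)) := by
  obtain ⟨sa, hsa⟩ := par_exists A hA
  obtain ⟨sb, hsb⟩ := par_exists (A + 5) (by omega)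
  refine ⟨sa + sb, fun s hs => ?_⟩
  have p1 := hsa s (by omega)
  have p2 := hsb s (by omega)
  set c := 2 ^ s with hc
  obtain ⟨H1, g1⟩ := exists_good p1
  obtain ⟨H2, g2⟩ := exists_good p2
  obtain ⟨q1, m1, q2, r2, hpc⟩ := pc_of p1 p2
  have hpc2 := pc2_of p1 p2 hpc
  have hdeg := deg_bounds p1 p2 hpc
  have g1' : Good H1 (c ^ A) (c ^ (2 * A + 2)) (8 * A + 48) (100 * (8 * A + 50)) (c ^ (A - 2)) :=
    g1.weaken (by omega) (by omega)
  have g2' : Good H2 (c ^ (A + 5)) (c ^ (2 * (A + 5) + 2)) (8 * A + 48) (100 * (8 * A + 50))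
      (c ^ (A + 3)) := by
    have e1 : A + 5 - 2 = A + 3 := by omega
    rw [e1] at g2
    exact g2.weaken (by omega) (by omega)
  have hcl := par_c_large p1
  have hcc : 18000 ≤ c := by
    clear * - hcl hA
    nlinarith
  have hc1 : 1 ≤ c := by clear * - hcc; omega
  have hn : c ^ (3 * A + 1) * c ^ (3 * (A + 5) + 1) = c ^ (6 * A + 17) := by
    rw [← pow_add]
    congr 1
    ring
  have hcard : Fintype.card (Fin (c ^ (3 * A + 1)) × Fin (c ^ (3 * (A + 5) + 1))) =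
      c ^ (6 * A + 17) := by
    rw [Fintype.card_prod, Fintype.card_fin, Fintype.card_fin, hn]
  set d := c ^ A * r2 + c ^ (A + 5) * m1 with hd
  have hreg : ∀ p, (nb (prodG H1 H2) p).card = d := by
    intro p
    exact prodG_reg g1'.toBase g2'.toBase (by
        rw [Fintype.card_fin]; have := hpc.hM1; rw [hpc.hq1] at this; exact this)
        (by rw [Fintype.card_fin]; have := hpc.hM2; rw [hpc.hq2] at this; exact this) p
  refine ⟨c ^ (3 * A + 1), c ^ (3 * (A + 5) + 1), d, prodG H1 H2, hn, hdeg.1, hdeg.2, ?_⟩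
  have hps := p1.hs
  have hLg : s * (3 * (A + 5) + 1) + 1 ≤ c := by
    refine le_trans ?_ hps
    clear * - hA
    nlinarith
  refine { reg := hreg, tri := ?_, stab := ?_, mix := ?_, sat := ?_ }
  · exact fun p q r => prodG_tri g1'.toBase g2'.toBase p q r
  · classical
    refine ⟨Finset.univ.image (nb (prodG H1 H2)), ?_, ?_, ?_⟩
    · refine le_trans Finset.card_image_le ?_
      rw [Finset.card_univ, hcard, hc, ← pow_mul]
    · intro M hM
      rw [Finset.mem_image] at hM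
      obtain ⟨p, -, rfl⟩ := hM
      exact hreg p
    · intro I hI
      obtain ⟨p, hp⟩ := stab_T0 g1' g2' (Fintype.card_fin _) (Fintype.card_fin _) hpc hpc2 I hI
      exact ⟨nb (prodG H1 H2) p, Finset.mem_image_of_mem _ (Finset.mem_univ _), hp⟩
  · intro Y Z hY hZ
    rw [hcard] at hY hZ ⊢
    have hE : c ^ (A - 2) * c ^ (5 * A + 19) = c ^ (6 * A + 17) := by
      rw [← pow_add]; congr 1; omega
    rw [← hE] at hY hZ
    have hY' : c ^ (5 * A + 19) ≤ Y.card := Nat.le_of_mul_le_mul_left hY (by positivity)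
    have hZ' : c ^ (5 * A + 19) ≤ Z.card := Nat.le_of_mul_le_mul_left hZ (by positivity)
    have hmix := mix_T0 (m := c ^ (5 * A + 19)) g1'.bi (by positivity) g2'.toBase rfl
      (by
        rw [Fintype.card_fin]
        calc 8 * (4 * c ^ (2 * A + 2) * c ^ (3 * (A + 5) + 1)) = 32 * c ^ (5 * A + 18) := by
              ring
          _ ≤ c * c ^ (5 * A + 18) := Nat.mul_le_mul_right _ (by clear * - hcc; omega)
          _ = c ^ (5 * A + 19) := by ring)
      (by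
        rw [Fintype.card_fin]
        calc 8 * ((1 + c ^ (A + 5) * (c ^ (A + 5) - 1)) * c ^ (3 * A + 1))
            ≤ 8 * ((c ^ (A + 5)) ^ 2 * c ^ (3 * A + 1)) :=
              Nat.mul_le_mul_left _ (Nat.mul_le_mul_right _ (num_q_le (Nat.one_le_pow _ _ hc1)))
          _ = 8 * c ^ (5 * A + 11) := by
              rw [← pow_mul, ← pow_add]; congr 2; ring
          _ ≤ c ^ 8 * c ^ (5 * A + 11) :=
              Nat.mul_le_mul_right _ (le_trans (by rw [pow_one]; clear * - hcc; omega : 8 ≤ c ^ 1) (Nat.pow_le_pow_right hc1 (by norm_num)))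
          _ = c ^ (5 * A + 19) := by rw [← pow_add]; congr 1; ring)
      Y Z hY' hZ'
    calc Y.card * Z.card * d ≤ (8 * c ^ (2 * A + 2) * eo (prodG H1 H2) Y Z) *
          (2 * c ^ (4 * A + 16)) := Nat.mul_le_mul hmix hdeg.2
      _ = c ^ (6 * A + 17) * (16 * c) * eo (prodG H1 H2) Y Z := by
        rw [show 6 * A + 17 = (2 * A + 2) + (4 * A + 16) - 1 by omega]
        have : c ^ ((2 * A + 2) + (4 * A + 16) - 1) * c = c ^ (2 * A + 2) * c ^ (4 * A + 16) := by
          rw [← pow_succ, ← pow_add]; congr 1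
        calc 8 * c ^ (2 * A + 2) * eo (prodG H1 H2) Y Z * (2 * c ^ (4 * A + 16)) =
              16 * (c ^ (2 * A + 2) * c ^ (4 * A + 16)) * eo (prodG H1 H2) Y Z := by ring
          _ = 16 * (c ^ ((2 * A + 2) + (4 * A + 16) - 1) * c) * eo (prodG H1 H2) Y Z := by rw [this]
          _ = _ := by ring
  · have hLgX : Fintype.card (Fin (c ^ (3 * A + 1))) < 2 ^ (s * (3 * (A + 5) + 1) + 1) := by
      rw [Fintype.card_fin, hc, ← pow_mul]
      apply Nat.pow_lt_pow_right (by norm_num)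
      have : s * (3 * A + 1) ≤ s * (3 * (A + 5) + 1) := Nat.mul_le_mul_left _ (by omega)
      clear * - this
      omega
    have hLgY : Fintype.card (Fin (c ^ (3 * (A + 5) + 1))) < 2 ^ (s * (3 * (A + 5) + 1) + 1) := by
      rw [Fintype.card_fin, hc, ← pow_mul]
      exact Nat.pow_lt_pow_right (by norm_num) (Nat.lt_succ_self _)
    have hLg2 : (s * (3 * (A + 5) + 1) + 1) ^ 2 ≤ c ^ 2 := Nat.pow_le_pow_left hLg 2
    have hKc : 8 * A + 54 ≤ c := by
      clear * - hcl hA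
      nlinarith
    have key : c ^ (4 * A + 18) ≤ 2 * (c ^ 2 * d) := by
      calc c ^ (4 * A + 18) = c ^ 2 * c ^ (4 * A + 16) := by rw [← pow_add]; congr 1; ring
        _ ≤ c ^ 2 * (2 * d) := Nat.mul_le_mul_left _ hdeg.1
        _ = 2 * (c ^ 2 * d) := by ring
    have hsat := sat_T0 (La := c ^ (2 * A + 15)) (t := c ^ 2 * d) g1'.bi (by positivity) g1'.toBase
      g1'.p3 g2'.bi (by positivity) g2'.toBase g2'.p3 hLgX hLgY (Nat.le_add_left 1 _)
      (by
        calc 4096 * c ^ (2 * A + 2) * (s * (3 * (A + 5) + 1) + 1) ^ 2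
            ≤ c * c ^ (2 * A + 2) * c ^ 2 :=
              Nat.mul_le_mul (Nat.mul_le_mul_right _ (by clear * - hcc; omega)) hLg2
          _ = c ^ (2 * A + 5) := by
              ring
          _ ≤ c ^ (2 * A + 15) := Nat.pow_le_pow_right hc1 (by omega))
      (by
        calc 4096 * c ^ (2 * (A + 5) + 2) * (s * (3 * (A + 5) + 1) + 1) ^ 2
            ≤ c * c ^ (2 * (A + 5) + 2) * c ^ 2 :=
              Nat.mul_le_mul (Nat.mul_le_mul_right _ (by clear * - hcc; omega)) hLg2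
          _ = c ^ (2 * A + 15) := by
              ring)
      (by
        rw [Fintype.card_fin]
        have h1 : (8 * A + 48 + 4) * c ^ (A + 5) + 2 ≤ c * c ^ (A + 5) := by
          have : 1 ≤ c ^ (A + 5) := Nat.one_le_pow _ _ hc1
          calc (8 * A + 48 + 4) * c ^ (A + 5) + 2 ≤ (8 * A + 48 + 4) * c ^ (A + 5) + 2 * c ^ (A + 5) := by
                clear * - this; omega
            _ = (8 * A + 54) * c ^ (A + 5) := by ring
            _ ≤ c * c ^ (A + 5) := Nat.mul_le_mul_right _ hKc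
        have h2 : 2 * (8 * (20 * ((8 * A + 48 + 4) * c ^ (A + 5) + 2) * c ^ (3 * A + 1))) ≤
            2 * (c ^ 2 * d) := by
          refine le_trans ?_ key
          calc 2 * (8 * (20 * ((8 * A + 48 + 4) * c ^ (A + 5) + 2) * c ^ (3 * A + 1)))
              ≤ 2 * (8 * (20 * (c * c ^ (A + 5)) * c ^ (3 * A + 1))) := by gcongr
            _ = 320 * c ^ (4 * A + 7) := by
                ring
            _ ≤ c * c ^ (4 * A + 7) := Nat.mul_le_mul_right _ (by clear * - hcc; omega)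
            _ = c ^ (4 * A + 8) := by ring
            _ ≤ c ^ (4 * A + 18) := Nat.pow_le_pow_right hc1 (by omega)
        exact Nat.le_of_mul_le_mul_left h2 (by norm_num))
      (by
        rw [Fintype.card_fin]
        have h1 : (8 * A + 48 + 4) * c ^ A + 2 ≤ c * c ^ A := by
          have : 1 ≤ c ^ A := Nat.one_le_pow _ _ hc1
          calc (8 * A + 48 + 4) * c ^ A + 2 ≤ (8 * A + 48 + 4) * c ^ A + 2 * c ^ A := by
                clear * - this; omega
            _ = (8 * A + 54) * c ^ A := by ring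
            _ ≤ c * c ^ A := Nat.mul_le_mul_right _ hKc
        have h2 : 2 * (8 * (20 * ((8 * A + 48 + 4) * c ^ A + 2) * c ^ (3 * (A + 5) + 1))) ≤
            2 * (c ^ 2 * d) := by
          refine le_trans ?_ key
          calc 2 * (8 * (20 * ((8 * A + 48 + 4) * c ^ A + 2) * c ^ (3 * (A + 5) + 1)))
              ≤ 2 * (8 * (20 * (c * c ^ A) * c ^ (3 * (A + 5) + 1))) := by gcongr
            _ = 320 * c ^ (4 * A + 17) := by
                ring
            _ ≤ c * c ^ (4 * A + 17) := Nat.mul_le_mul_right _ (by clear * - hcc; omega)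
            _ = c ^ (4 * A + 18) := by ring
        exact Nat.le_of_mul_le_mul_left h2 (by norm_num))
      (by
        have h2 : 64 * c ^ (4 * A + 16) < c ^ (4 * A + 18) := by
          calc 64 * c ^ (4 * A + 16) < c ^ 2 * c ^ (4 * A + 16) := by
                apply Nat.mul_lt_mul_of_pos_right _ (by positivity)
                clear * - hcc
                nlinarith
            _ = c ^ (4 * A + 18) := by rw [← pow_add]; congr 1; ring
        have h3 : 32 * c ^ (2 * A + 2) * c ^ (2 * (A + 5) + 2) * (s * (3 * (A + 5) + 1) + 1) ^ 2 ≤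
            32 * c ^ (4 * A + 16) := by
          calc _ ≤ 32 * c ^ (2 * A + 2) * c ^ (2 * (A + 5) + 2) * c ^ 2 :=
                Nat.mul_le_mul_left _ hLg2
            _ = 32 * c ^ (4 * A + 16) := by
                ring
        clear * - h2 h3 key
        omega)
    intro Y hY
    exact hsat Y hY

end Pool.Agent.helper40.TB
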