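import Pool.Agent.helper40.TB.Defs

set_option linter.all false

namespace Pool.Agent.helper40.TB

open Finset Pool.Agent.helper11.Tight

variable {V : Type*} [Fintype V] [DecidableEq V]

theorem eo_union {H : SimpleGraph V} {P R B : Finset V} (h : Disjoint P R) :
    eo H (P ∪ R) B = eo H P B + eo H R B := by
  classical
  unfold eo
  rw [Finset.union_product, Finset.filter_union, Finset.card_union_of_disjoint]
  rw [Finset.disjoint_left]
  rintro ⟨a, b⟩ h1 h2
  rw [Finset.mem_filter, Finset.mem_product] at h1 h2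
  exact (Finset.disjoint_left.1 h) h1.1.1 h2.1.1

/-- a block of `β` vertices sees all but `2β` vertices of any set -/
theorem bi_block {H : SimpleGraph V} {β : ℕ} (hbi : Bi H β) (P B : Finset V)
    (hP : P.card = β) : B.card ≤ eo H P B + 2 * β := by
  classical
  set B1 := B.filter (fun b => ∃ a ∈ P, H.Adj a b) with hB1
  set B2 := B.filter (fun b => ¬ ∃ a ∈ P, H.Adj a b) with hB2
  have hs : B1.card + B2.card = B.card :=
    Finset.card_filter_add_card_filter_not (s := B) (fun b => ∃ a ∈ P, H.Adj a b)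
  have h2 : B2.card ≤ 2 * β := by
    by_contra hcon
    push Not at hcon
    have h3 : β ≤ (B2 \ P).card := by
      have := Finset.le_card_sdiff P B2
      omega
    obtain ⟨a, ha, b, hb, hab⟩ := hbi P (B2 \ P) Finset.disjoint_sdiff hP.ge h3
    rw [Finset.mem_sdiff, hB2, Finset.mem_filter] at hb
    exact hb.1.2 ⟨a, ha, hab⟩
  have h1 : B1.card ≤ eo H P B := by
    have hex : ∀ b ∈ B1, ∃ a, a ∈ P ∧ H.Adj a b := by
      intro b hb
      rw [hB1, Finset.mem_filter] at hb
      obtain ⟨a, ha, hab⟩ := hb.2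
      exact ⟨a, ha, hab⟩
    choose! f hf using hex
    unfold eo
    refine Finset.card_le_card_of_injOn (fun b => (f b, b)) ?_ ?_
    · intro b hb
      have h5 := hf b hb
      rw [Finset.mem_coe, Finset.mem_filter, Finset.mem_product]
      have h6 : b ∈ B := (Finset.mem_filter.1 hb).1
      exact ⟨⟨h5.1, h6⟩, h5.2⟩
    · intro a _ b _ hab
      exact (Prod.mk.injEq _ _ _ _ ▸ hab).2
  omega

theorem bi_count_aux {H : SimpleGraph V} {β : ℕ} (hbi : Bi H β) (hβ : 0 < β) (B : Finset V)
    (hB : 4 * β ≤ B.card) : ∀ (n : ℕ) (A : Finset V), A.card = n →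
      (n / β) * B.card ≤ 2 * eo H A B := by
  classical
  intro n
  induction n using Nat.strong_induction_on with
  | _ n ih =>
    intro A hA
    by_cases hlt : n < β
    · rw [Nat.div_eq_of_lt hlt]
      simp
    · push Not at hlt
      obtain ⟨P, hPA, hP⟩ := Finset.exists_subset_card_eq (show β ≤ A.card by omega)
      have h1 := bi_block hbi P B hP
      have h2 := ih (n - β) (by omega) (A \ P) (by
        rw [Finset.card_sdiff_of_subset hPA]; omega)
      have h3 : eo H A B = eo H P B + eo H (A \ P) B := by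
        rw [← eo_union Finset.disjoint_sdiff, Finset.union_sdiff_of_subset hPA]
      have h4 : n / β = (n - β) / β + 1 := by
        rw [Nat.div_eq_sub_div hβ hlt]
      rw [h3, h4, Nat.add_mul]
      omega

theorem bi_count {H : SimpleGraph V} {β : ℕ} (hbi : Bi H β) (hβ : 0 < β) (A B : Finset V)
    (hA : β ≤ A.card) (hB : 4 * β ≤ B.card) : A.card * B.card ≤ 4 * β * eo H A B := by
  have h1 := bi_count_aux hbi hβ B hB A.card A rfl
  have h2 : A.card ≤ 2 * β * (A.card / β) := by
    have e1 : A.card < β * (A.card / β + 1) := Nat.lt_mul_div_succ _ hβ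
    have e2 : 1 ≤ A.card / β := (Nat.one_le_div_iff hβ).2 hA
    nlinarith
  calc A.card * B.card ≤ (2 * β * (A.card / β)) * B.card := Nat.mul_le_mul_right _ h2
    _ = 2 * β * ((A.card / β) * B.card) := by ring
    _ ≤ 2 * β * (2 * eo H A B) := Nat.mul_le_mul_left _ h1
    _ = 4 * β * eo H A B := by ring

/-- two different vertices have few common `Q`-neighbours -/
theorem QQ_few {H : SimpleGraph V} {d K : ℕ} (hH : Base H d) (hp : FewP3 H K) {a a' : V}
    (hne : a ≠ a') (S : Finset V) (hS : ∀ y ∈ S, Q H a y ∧ Q H a' y) :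
    S.card ≤ (K + 4) * d + 2 := by
  classical
  -- the remaining vertices
  set S' := (S.erase a).erase a' with hS'
  have hS'c : S.card ≤ S'.card + 2 := by
    have e1 := Finset.pred_card_le_card_erase (s := S) (a := a)
    have e2 := Finset.pred_card_le_card_erase (s := S.erase a) (a := a')
    rw [← hS'] at e2
    omega
  have hex : ∀ y ∈ S', ∃ u u', H.Adj a u ∧ H.Adj u y ∧ H.Adj a' u' ∧ H.Adj u' y := by
    intro y hy
    rw [hS', Finset.mem_erase, Finset.mem_erase] at hy
    obtain ⟨h1, h2, h3⟩ := hy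
    obtain ⟨h4, h5⟩ := hS y h3
    rcases h4 with h4 | ⟨u, hu1, hu2⟩
    · exact absurd h4.symm h2
    · rcases h5 with h5 | ⟨u', hu1', hu2'⟩
      · exact absurd h5.symm h1
      · exact ⟨u, u', hu1, hu2.symm, hu1', hu2'.symm⟩
  choose! f g hfg using hex
  -- split according to `f y`
  have hcov : S' ⊆ (nb H a).biUnion (fun u => S'.filter (fun y => f y = u)) := by
    intro y hy
    rw [Finset.mem_biUnion]
    refine ⟨f y, by rw [mem_nb]; exact (hfg y hy).1, ?_⟩
    rw [Finset.mem_filter]
    exact ⟨hy, rfl⟩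
  set A1 := (nb H a).filter (fun u => ¬ (H.Adj a' u) ∧ u ≠ a') with hA1
  set A2 := (nb H a).filter (fun u => ¬ (¬ (H.Adj a' u) ∧ u ≠ a')) with hA2
  have hA2c : A2.card ≤ 2 := by
    have hsub : A2 ⊆ insert a' ((nb H a).filter (fun u => H.Adj a' u)) := by
      intro u hu
      rw [hA2, Finset.mem_filter] at hu
      rw [Finset.mem_insert, Finset.mem_filter]
      by_cases h : u = a'
      · exact Or.inl h
      · right
        refine ⟨hu.1, ?_⟩
        by_contra hn
        exact hu.2 ⟨hn, h⟩
    refine le_trans (Finset.card_le_card hsub) ?_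
    refine le_trans (Finset.card_insert_le _ _) ?_
    have : ((nb H a).filter (fun u => H.Adj a' u)).card ≤ 1 := by
      rw [Finset.card_le_one]
      intro u hu u' hu'
      rw [Finset.mem_filter, mem_nb] at hu hu'
      exact hH.c4 a a' u u' hne hu.1 hu.2 hu'.1 hu'.2
    omega
  have h1 : ∀ u ∈ A1, (S'.filter (fun y => f y = u)).card ≤ K := by
    intro u hu
    rw [hA1, Finset.mem_filter] at hu
    refine le_trans ?_ (hp u a' hu.2.2)
    refine Finset.card_le_card_of_injOn (fun y => (y, g y)) ?_ ?_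
    · intro y hy
      rw [Finset.mem_coe, Finset.mem_filter] at hy
      obtain ⟨hy1, hy2⟩ := hy
      have h3 := hfg y hy1
      simp only [Finset.mem_coe, mem_P3]
      refine ⟨hy2 ▸ h3.2.1, h3.2.2.2.symm, h3.2.2.1.symm, ?_, ?_⟩
      · rintro rfl
        rw [hS', Finset.mem_erase] at hy1
        exact hy1.1 rfl
      · intro h4
        exact hu.2.1 (h4 ▸ h3.2.2.1)
    · intro y _ y' _ hyy
      exact (Prod.mk.injEq _ _ _ _ ▸ hyy).1
  have h2 : ∀ u ∈ A2, (S'.filter (fun y => f y = u)).card ≤ d := by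
    intro u _
    rw [← hH.reg u]
    apply Finset.card_le_card
    intro y hy
    rw [Finset.mem_filter] at hy
    rw [mem_nb]
    exact hy.2 ▸ (hfg y hy.1).2.1
  have h3 : S'.card ≤ ∑ u ∈ nb H a, (S'.filter (fun y => f y = u)).card :=
    le_trans (Finset.card_le_card hcov) Finset.card_biUnion_le
  have h4 : ∑ u ∈ nb H a, (S'.filter (fun y => f y = u)).card =
      ∑ u ∈ A1, (S'.filter (fun y => f y = u)).card +
        ∑ u ∈ A2, (S'.filter (fun y => f y = u)).card :=
    (Finset.sum_filter_add_sum_filter_not (nb H a) (fun u => ¬ (H.Adj a' u) ∧ u ≠ a') _).symm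
  have h5 : ∑ u ∈ A1, (S'.filter (fun y => f y = u)).card ≤ A1.card * K := by
    rw [← smul_eq_mul]
    exact Finset.sum_le_card_nsmul _ _ _ h1
  have h6 : ∑ u ∈ A2, (S'.filter (fun y => f y = u)).card ≤ A2.card * d := by
    rw [← smul_eq_mul]
    exact Finset.sum_le_card_nsmul _ _ _ h2
  have h7 : A1.card ≤ d := by
    rw [← hH.reg a]
    exact Finset.card_le_card (Finset.filter_subset _ _)
  have h8 : A1.card * K ≤ d * K := Nat.mul_le_mul_right _ h7
  have h9 : A2.card * d ≤ 2 * d := Nat.mul_le_mul_right _ hA2c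
  have h10 : (K + 4) * d = d * K + 4 * d := by ring
  omega

open Classical in
/-- between two large sets at least a quarter of the pairs is not `Q`-related -/
theorem nonQ_pairs {H : SimpleGraph V} {d K : ℕ} (hH : Base H d) (hp : FewP3 H K)
    (P R : Finset V) (hP : 4 ≤ P.card) (hR : 10 * ((K + 4) * d + 2) ≤ R.card) :
    P.card * R.card ≤ 4 * ((P ×ˢ R).filter (fun p => ¬ Q H p.1 p.2)).card := by
  classical
  -- few non-neighbours
  have key : ∀ a ∈ P, ∀ a' ∈ P, a ≠ a' →
      9 * R.card ≤ 10 * ((R.filter (fun y => ¬ Q H a y)).card +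
        (R.filter (fun y => ¬ Q H a' y)).card) := by
    intro a _ a' _ hne
    have h1 : (R.filter (fun y => Q H a y ∧ Q H a' y)).card ≤ (K + 4) * d + 2 :=
      QQ_few hH hp hne _ (fun y hy => (Finset.mem_filter.1 hy).2)
    have h2 : R ⊆ R.filter (fun y => Q H a y ∧ Q H a' y) ∪
        (R.filter (fun y => ¬ Q H a y) ∪ R.filter (fun y => ¬ Q H a' y)) := by
      intro y hy
      simp only [Finset.mem_union, Finset.mem_filter]
      tauto
    have h3 := le_trans (Finset.card_le_card h2) (Finset.card_union_le _ _)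
    have h4 := Finset.card_union_le (R.filter (fun y => ¬ Q H a y))
      (R.filter (fun y => ¬ Q H a' y))
    omega
  have hsum : ((P ×ˢ R).filter (fun p => ¬ Q H p.1 p.2)).card =
      ∑ a ∈ P, (R.filter (fun y => ¬ Q H a y)).card := by
    rw [Finset.card_filter, Finset.sum_product]
    apply Finset.sum_congr rfl
    intro a _
    rw [Finset.card_filter]
  rw [hsum]
  -- at most one exceptional vertex
  set Ex := P.filter (fun a => 20 * (R.filter (fun y => ¬ Q H a y)).card < 9 * R.card) with hEx
  have hEx1 : Ex.card ≤ 1 := by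
    rw [Finset.card_le_one]
    intro a ha a' ha'
    rw [hEx, Finset.mem_filter] at ha ha'
    by_contra hne
    have := key a ha.1 a' ha'.1 hne
    omega
  have hge : ∑ a ∈ P \ Ex, 9 * R.card ≤ 20 * ∑ a ∈ P, (R.filter (fun y => ¬ Q H a y)).card := by
    rw [Finset.mul_sum]
    calc ∑ a ∈ P \ Ex, 9 * R.card
        ≤ ∑ a ∈ P \ Ex, 20 * (R.filter (fun y => ¬ Q H a y)).card := by
          apply Finset.sum_le_sum
          intro a ha
          rw [Finset.mem_sdiff, hEx, Finset.mem_filter, not_and, not_lt] at ha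
          exact ha.2 ha.1
      _ ≤ ∑ a ∈ P, 20 * (R.filter (fun y => ¬ Q H a y)).card :=
          Finset.sum_le_sum_of_subset Finset.sdiff_subset
  rw [Finset.sum_const, smul_eq_mul] at hge
  have hc1 : P.card ≤ (P \ Ex).card + 1 := by
    have := Finset.le_card_sdiff Ex P
    omega
  have h5 : 5 * (P.card * R.card) ≤ (P \ Ex).card * (9 * R.card) := by
    have : 5 * P.card ≤ 9 * (P \ Ex).card := by omega
    calc 5 * (P.card * R.card) = (5 * P.card) * R.card := by ring
      _ ≤ (9 * (P \ Ex).card) * R.card := Nat.mul_le_mul_right _ this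
      _ = (P \ Ex).card * (9 * R.card) := by ring
  omega

end Pool.Agent.helper40.TB
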