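import Pool.Agent.helper40.TB.Rec

set_option linter.all false

/-!
# MP_ce98d8_co: the conditions of one step from the invariants
-/

namespace Pool.Agent.helper40.TB

/-- all numeric conditions of one step -/
theorem cond_step {c a n N d a' K E L tau La C w sq : ℕ} (h : Inv c a n N d)
    (hc : 1000 ≤ c) (hsq : sq * sq = c ^ a') (hK : K + 1 ≤ c ^ 5)
    (hE : c ^ 20100 ≤ E) (hL : L ≤ c ^ 202) (ht : tau ≤ c ^ 2) (hLa : La * c ^ 17 ≤ c ^ a')
    (e1 : n + 16 ≤ 2 * a') (e2 : a + 20311 ≤ a') (e3 : a' + 34 ≤ 2 * a) (e5 : n ≤ a + a' + 196)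
    (hw : c ^ a' * c ^ a' = w * N)
    (h1 : c ^ 3 * c ^ a' * d ≤ C * N) (h2 : C * N ≤ 2 * (c ^ 3 * c ^ a' * d)) :
    c ^ 10 * (K + 1) ≤ w ∧
    (c * c ^ 200) ^ 100 * L * (K + 1) * N ≤ c ^ a' * d ∧
    c ^ 17 * tau * sq * d ≤ N ∧
    (c * c ^ 200) ^ 100 * d ≤ N ∧
    La * c ^ 17 ≤ c ^ a' ∧
    c ^ 6 * d ≤ c ^ 200 * c ^ a' ∧
    (c * c ^ 200) ^ 100 ≤ E ∧
    8 * (c * c ^ 200) ^ 100 ≤ C ∧
    2 * c ^ 2 * (c * c ^ 200) ^ 100 ≤ sq := by
  have hc1 : 1 ≤ c := by omega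
  have hd := h.d0
  have hN := h.N0 hc1
  have hr1 := h.r1
  have hr2 := h.r2
  have hn2 := h.n2
  obtain ⟨hC1, hC2⟩ := C_bounds h (by omega) (by omega) h1 h2
  have hcB : (c * c ^ 200) ^ 100 = c ^ 20100 := by
    rw [← pow_succ', ← pow_mul]
  rw [hcB]
  have hpos : ∀ i, 0 < c ^ i := fun i => by positivity
  refine ⟨?_, ?_, ?_, ?_, hLa, ?_, hE, ?_, ?_⟩
  · -- c^10 (K+1) ≤ w
    have : N * (c ^ 10 * (K + 1)) ≤ N * w := by
      calc N * (c ^ 10 * (K + 1)) ≤ (4 * c ^ n) * (c ^ 10 * c ^ 5) := by gcongr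
        _ = 4 * c ^ (n + 15) := by ring
        _ ≤ c ^ (2 * a') := pw (by omega) hc1 (by omega)
        _ = c ^ a' * c ^ a' := by rw [← pow_add]; congr 1; ring
        _ = N * w := by rw [hw]; ring
    exact Nat.le_of_mul_le_mul_left this hN
  · calc c ^ 20100 * L * (K + 1) * N ≤ c ^ 20100 * c ^ 202 * c ^ 5 * (4 * (c ^ (a + 3) * d)) := by
          gcongr
      _ = (4 * c ^ (a + 20310)) * d := by
          rw [show a + 20310 = 20100 + 202 + 5 + (a + 3) by ring, pow_add, pow_add, pow_add]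
          ring
      _ ≤ c ^ a' * d := Nat.mul_le_mul_right _ (pw (by omega) hc1 (by omega))
  · -- c^17 tau sq d ≤ N
    have hsq1 : sq * c ^ 17 ≤ c ^ a := by
      -- squares
      by_contra hcon
      push Not at hcon
      have : c ^ a * c ^ a < (sq * c ^ 17) * (sq * c ^ 17) := Nat.mul_lt_mul'' hcon hcon
      have e : (sq * c ^ 17) * (sq * c ^ 17) = c ^ (a' + 34) := by
        calc (sq * c ^ 17) * (sq * c ^ 17) = (sq * sq) * c ^ 34 := by ring
          _ = c ^ (a' + 34) := by rw [hsq, ← pow_add]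
      rw [e, ← pow_add] at this
      have h7 : c ^ (a' + 34) ≤ c ^ (a + a) := Nat.pow_le_pow_right hc1 (by omega)
      omega
    have : 2 * (c ^ 17 * tau * sq * d) ≤ 2 * N := by
      calc 2 * (c ^ 17 * tau * sq * d) ≤ c * (c ^ 17 * c ^ 2 * sq * d) := by
            gcongr; omega
        _ = c ^ 3 * (sq * c ^ 17) * d := by ring
        _ ≤ c ^ 3 * c ^ a * d := by gcongr
        _ = c ^ (a + 3) * d := by ring
        _ ≤ 2 * N := hr1
    omega
  · have : 2 * (c ^ 20100 * d) ≤ 2 * N := by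
      calc 2 * (c ^ 20100 * d) = (2 * c ^ 20100) * d := by ring
        _ ≤ c ^ (a + 3) * d := Nat.mul_le_mul_right _ (pw (by omega) hc1 (by omega))
        _ ≤ 2 * N := hr1
    omega
  · -- c^6 d ≤ B q
    have : c ^ (a + 3) * (c ^ 6 * d) ≤ c ^ (a + 3) * (c ^ 200 * c ^ a') := by
      calc c ^ (a + 3) * (c ^ 6 * d) = c ^ 6 * (c ^ (a + 3) * d) := by ring
        _ ≤ c ^ 6 * (2 * (4 * c ^ n)) := by
            apply Nat.mul_le_mul_left
            exact le_trans hr1 (Nat.mul_le_mul_left _ hn2)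
        _ = 8 * c ^ (n + 6) := by ring
        _ ≤ c ^ (a + 3 + 200 + a') := pw (by omega) hc1 (by omega)
        _ = c ^ (a + 3) * (c ^ 200 * c ^ a') := by ring
    exact Nat.le_of_mul_le_mul_left this (hpos _)
  · have : 4 * (8 * c ^ 20100) ≤ 4 * C := by
      calc 4 * (8 * c ^ 20100) = 32 * c ^ 20100 := by ring
        _ ≤ c ^ (a' - a) := pw (by omega) hc1 (by omega)
        _ ≤ 4 * C := hC1
    omega
  · by_contra hcon
    push Not at hcon
    have h8 : sq * sq < (2 * c ^ 2 * c ^ 20100) * (2 * c ^ 2 * c ^ 20100) :=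
      Nat.mul_lt_mul'' hcon hcon
    rw [hsq] at h8
    have h9 : (2 * c ^ 2 * c ^ 20100) * (2 * c ^ 2 * c ^ 20100) = 4 * c ^ 40204 := by
      ring
    rw [h9] at h8
    have h10 : 4 * c ^ 40204 ≤ c ^ a' := pw (by omega) hc1 (by omega)
    omega

end Pool.Agent.helper40.TB
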