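import Pool.Agent.helper11.Tight.Alpha

set_option linter.all false

/-!
# MP_ce98d8_co: properties of tight graphs that are propagated (exponent 1/2)
-/

namespace Pool.Agent.helper40.TB

open Finset Pool.Agent.helper11.Tight

variable {V : Type*} [Fintype V] [DecidableEq V]

/-- independent set of vertices -/
def Indep (T : SimpleGraph V) (I : Finset V) : Prop := ∀ p ∈ I, ∀ q ∈ I, ¬ T.Adj p q

/-- `T` is `d`-regular, triangle-free and every independent set has at most `d` elements -/
structure Tight (T : SimpleGraph V) (d : ℕ) : Prop where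
  reg : ∀ v, (nb T v).card = d
  tri : ∀ p q r, T.Adj p q → T.Adj q r → ¬ T.Adj p r
  al : ∀ I : Finset V, Indep T I → I.card ≤ d

/-- stability: every independent set is close to a member of the family `MM` -/
def Stab (T : SimpleGraph V) (d K : ℕ) (MM : Finset (Finset V)) : Prop :=
  (∀ M ∈ MM, M.card ≤ d) ∧
    ∀ I : Finset V, Indep T I → ∃ M ∈ MM, (I \ M).card + K * I.card ≤ K * d

/-- saturation: in every set with at least `t` elements some vertex has many neighbours -/
def Sat (T : SimpleGraph V) (t Λ : ℕ) : Prop :=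
  ∀ Y : Finset V, t ≤ Y.card → ∃ v ∈ Y, Y.card ≤ Λ * (nb T v ∩ Y).card

/-- mixing of large sets -/
def Mix (T : SimpleGraph V) (m Λ : ℕ) : Prop :=
  ∀ Y Z : Finset V, m ≤ Y.card → m ≤ Z.card → Y.card * Z.card ≤ Λ * eo T Y Z

end Pool.Agent.helper40.TB
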