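import Pool.Agent.helper40.TB.Asm

set_option linter.all false

/-!
# MP_ce98d8_co: the exponent one half from the recursion (abstract form)
-/

namespace Pool.Agent.helper40.TB

theorem ea_diff_ge (A : ℕ) (J : ℕ) (hA : 25000 + 36 * J ≤ A) (ε : ℝ) (hJ : 1 ≤ (J : ℝ) * ε)
    (hJ1 : 1 ≤ J) :
    ((en A J - ea A J - 2 : ℕ) : ℝ) < ((en A J - 1 : ℕ) : ℝ) * ((1 : ℝ) / 2 + ε) := by
  obtain ⟨j, rfl⟩ : ∃ j, J = j + 1 := ⟨J - 1, by omega⟩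
  obtain ⟨D, hD⟩ : ∃ D, D = 2 * A - 36 + 215 * j := ⟨_, rfl⟩
  obtain ⟨a, ha⟩ : ∃ a, a = ea A (j + 1) := ⟨_, rfl⟩
  have hn : en A (j + 1) = 200 + 2 * a + D := by rw [en_succ, hD, ha]
  have ham := ea_mul A (j + 1)
  rw [← ha] at ham
  rw [hn, ← ha]
  have e1 : 200 + 2 * a + D - a - 2 = 198 + a + D := by omega
  have e2 : 200 + 2 * a + D - 1 = 199 + 2 * a + D := by omega
  rw [e1, e2]
  push_cast
  have hε : 0 < ε := by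
    by_contra h
    push Not at h
    have : ((j + 1 : ℕ) : ℝ) * ε ≤ 0 := mul_nonpos_of_nonneg_of_nonpos (by positivity) h
    linarith
  have hamr : ((j + 1 : ℕ) : ℝ) * ((2 * A - 36 : ℕ) : ℝ) ≤ (a : ℝ) := by exact_mod_cast ham
  have hPr : ((2 * A - 36 : ℕ) : ℝ) = 2 * (A : ℝ) - 36 := by
    rw [Nat.cast_sub (by omega)]; push_cast; ring
  have hDr : (D : ℝ) = 2 * (A : ℝ) - 36 + 215 * (j : ℝ) := by
    rw [hD]; push_cast; rw [hPr]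
  have hAr : (25000 : ℝ) + 36 * ((j : ℝ) + 1) ≤ (A : ℝ) := by exact_mod_cast hA
  rw [hPr] at hamr
  have hj0 : (0 : ℝ) ≤ (j : ℝ) := by positivity
  have h1 : 2 * (A : ℝ) - 36 ≤ ε * (a : ℝ) := by
    have h2 : (((j + 1 : ℕ) : ℝ) * (2 * (A : ℝ) - 36)) * ε ≤ (a : ℝ) * ε :=
      mul_le_mul_of_nonneg_right hamr hε.le
    have h3 : (2 * (A : ℝ) - 36) ≤ (((j + 1 : ℕ) : ℝ) * ε) * (2 * (A : ℝ) - 36) := by
      have h4 : (0 : ℝ) ≤ 2 * (A : ℝ) - 36 := by linarith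
      nlinarith
    nlinarith
  have h5 : 0 ≤ ε * (D : ℝ) := by positivity
  have h6 : ((199 : ℝ) + 2 * (a : ℝ) + (D : ℝ)) * ((1 : ℝ) / 2 + ε) =
      199 / 2 + (a : ℝ) + (D : ℝ) / 2 + ε * 199 + 2 * (ε * (a : ℝ)) + ε * (D : ℝ) := by ring
  rw [h6, hDr]
  rw [hDr] at h5
  have h7 : 0 ≤ ε * 199 := by positivity
  linarith

theorem final_abs {State : ℕ → ℕ → ℕ → ℕ → ℕ → ℕ → ℕ → ℕ → Prop}
    (hbase : ∀ A, 10 ≤ A → ∃ s0, ∀ s, s0 ≤ s → ∃ d, (2 ^ s) ^ (4 * A + 16) ≤ 2 * d ∧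
      d ≤ 2 * (2 ^ s) ^ (4 * A + 16) ∧
      State ((2 ^ s) ^ (6 * A + 17)) ((2 ^ s) ^ (6 * A + 17)) d 400 ((2 ^ s) ^ (A - 2))
        (16 * 2 ^ s) ((2 ^ s) ^ 2) ((2 ^ s) ^ (2 * A + 15)))
    (hstep : ∀ c Lam B q sq C N d w K E L tau La m kT : ℕ,
      SPar c Lam B q sq C N d w K E L tau La m kT → State m N d K E L tau La →
      ∀ E1, 8 * E1 ≤ C → 2 * c ^ 2 * E1 ≤ sq →
        State (2 * B * q ^ 2 * C * m) (B * q ^ 2 * C) (q * (C - 1) + (B - 1) * w * d)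
          (3 * K + 3 + c ^ 4) E1 (c ^ 2 * B) 3 (2 * (q * (C - 1) + (B - 1) * w * d)))
    (ε : ℝ) (hε : 0 < ε) (N0 : ℕ) :
    ∃ m N d K E L tau La, State m N d K E L tau La ∧ 1 ≤ K ∧ 0 < N ∧ N0 ≤ N ∧
      (d : ℝ) < (N : ℝ) ^ ((1 : ℝ) / 2 + ε) := by
  obtain ⟨J0, hJ0⟩ := exists_nat_gt (1 / ε)
  obtain ⟨J, hJd⟩ : ∃ J, J = J0 + 1 := ⟨_, rfl⟩
  have hJε : 1 ≤ (J : ℝ) * ε := by
    rw [div_lt_iff₀ hε] at hJ0
    rw [hJd]
    push_cast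
    nlinarith
  obtain ⟨A, hA⟩ : ∃ A, A = 25000 + 36 * J := ⟨_, rfl⟩
  obtain ⟨s0, hs0⟩ := rec_aux hbase hstep A J (by omega)
  obtain ⟨s, hs⟩ : ∃ s, s = 2 * (s0 + N0 + 2) := ⟨_, rfl⟩
  obtain ⟨m, N, d, K, E, L, tau, La, hR, hSt⟩ := hs0 s (by omega) ⟨s0 + N0 + 2, by omega⟩ J le_rfl
  obtain ⟨c, hc⟩ : ∃ c, c = 2 ^ s := ⟨_, rfl⟩
  have hinv := hR.inv
  rw [← hc] at hinv
  have hc8 : 8 ≤ c := by
    rw [hc]
    calc 8 = 2 ^ 3 := by norm_num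
      _ ≤ 2 ^ s := Nat.pow_le_pow_right (by norm_num) (by omega)
  have hc1 : 1 ≤ c := by omega
  have hNpos := hinv.N0 hc1
  have hineq := ea_diff_ge A J (by omega) ε hJε (by omega)
  obtain ⟨j, hj⟩ : ∃ j, J = j + 1 := ⟨J0, hJd⟩
  have hn : en A J = 200 + 2 * ea A J + (2 * A - 36 + 215 * j) := by rw [hj, en_succ]
  obtain ⟨n, hnd⟩ : ∃ n, n = en A J := ⟨_, rfl⟩
  obtain ⟨a, had⟩ : ∃ a, a = ea A J := ⟨_, rfl⟩
  rw [← hnd, ← had] at hinv hineq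
  rw [← hnd, ← had] at hn
  -- lower bound for N
  have hNlow : c ^ (n - 1) ≤ N := by
    have h1 := hinv.n1
    have h2 : c ^ n = c * c ^ (n - 1) := by
      rw [← pow_succ']; congr 1; omega
    have h3 : 8 * c ^ (n - 1) ≤ c * c ^ (n - 1) := Nat.mul_le_mul_right _ hc8
    rw [h2] at h1
    omega
  -- upper bound for d
  have hdup : d ≤ c ^ (n - a - 2) := by
    have h1 : c ^ (a + 3) * d ≤ c ^ (a + 3) * c ^ (n - a - 2) := by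
      calc c ^ (a + 3) * d ≤ 2 * N := hinv.r1
        _ ≤ 2 * (4 * c ^ n) := Nat.mul_le_mul_left _ hinv.n2
        _ = 8 * c ^ n := by ring
        _ ≤ c ^ (n + 1) := pw hc8 hc1 le_rfl
        _ = c ^ (a + 3) * c ^ (n - a - 2) := by rw [← pow_add]; congr 1; omega
    exact Nat.le_of_mul_le_mul_left h1 (by positivity)
  refine ⟨m, N, d, K, E, L, tau, La, hSt, hR.K1, hNpos, ?_, ?_⟩
  · calc N0 ≤ s := by omega
      _ ≤ 2 ^ s := Nat.lt_two_pow_self.le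
      _ = c ^ 1 := by rw [hc, pow_one]
      _ ≤ c ^ (n - 1) := Nat.pow_le_pow_right hc1 (by omega)
      _ ≤ N := hNlow
  · have hc1r : (1 : ℝ) < (c : ℝ) := by
      have : 1 < c := by omega
      exact_mod_cast this
    have hc0r : (0 : ℝ) ≤ (c : ℝ) := by positivity
    calc (d : ℝ) ≤ ((c ^ (n - a - 2) : ℕ) : ℝ) := by exact_mod_cast hdup
      _ = (c : ℝ) ^ (((n - a - 2 : ℕ) : ℝ)) := by
          rw [Real.rpow_natCast]; push_cast; rfl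
      _ < (c : ℝ) ^ (((n - 1 : ℕ) : ℝ) * ((1 : ℝ) / 2 + ε)) :=
          Real.rpow_lt_rpow_of_exponent_lt hc1r hineq
      _ = (((c ^ (n - 1) : ℕ)) : ℝ) ^ ((1 : ℝ) / 2 + ε) := by
          rw [Real.rpow_mul hc0r, Real.rpow_natCast]; push_cast; rfl
      _ ≤ (N : ℝ) ^ ((1 : ℝ) / 2 + ε) := by
          apply Real.rpow_le_rpow (by positivity) _ (by positivity)
          exact_mod_cast hNlow

end Pool.Agent.helper40.TB
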