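import Pool.Agent.helper40.TB.Base
import Pool.Agent.helper40.TB.Fin
import Pool.Agent.helper24.TG.Defs

set_option linter.all false

/-!
# MP_ce98d8_co: exponent one half from the step theorem
-/

namespace Pool.Agent.helper40.TB

open Finset Pool.Agent.helper11.Tight
open Pool.Agent.helper24.TG (Par State TS IndT)

/-- the step theorem -/
def StepStmt : Prop := ∀ p : Par,
  State p.m p.N p.d p.K p.E p.L p.tau p.La →
  ∀ E1, 8 * E1 ≤ p.C → 2 * p.c ^ 2 * E1 ≤ p.sq →
    State (2 * p.B * p.q ^ 2 * p.C * p.m) (p.B * p.q ^ 2 * p.C) p.k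
      (3 * p.K + 3 + p.c ^ 4) E1 (p.c ^ 2 * p.B) 3 (2 * p.k)

theorem base_State (A : ℕ) (hA : 10 ≤ A) : ∃ s0, ∀ s, s0 ≤ s →
    ∃ d, (2 ^ s) ^ (4 * A + 16) ≤ 2 * d ∧ d ≤ 2 * (2 ^ s) ^ (4 * A + 16) ∧
      State ((2 ^ s) ^ (6 * A + 17)) ((2 ^ s) ^ (6 * A + 17)) d 400 ((2 ^ s) ^ (A - 2))
        (16 * 2 ^ s) ((2 ^ s) ^ 2) ((2 ^ s) ^ (2 * A + 15)) := by
  obtain ⟨s0, hs0⟩ := base_T0 A hA
  refine ⟨s0, fun s hs => ?_⟩
  obtain ⟨M1, M2, d, T, hM, hd1, hd2, hSt⟩ := hs0 s hs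
  obtain ⟨MM, hMM1, hMM2, hMM3⟩ := hSt.stab
  have hcard : Fintype.card (Fin M1 × Fin M2) = (2 ^ s) ^ (6 * A + 17) := by
    rw [Fintype.card_prod, Fintype.card_fin, Fintype.card_fin, hM]
  refine ⟨d, hd1, hd2, Fin M1 × Fin M2, inferInstance, inferInstance, T, MM, ?_⟩
  refine { card_V := hcard, reg := hSt.reg, tri := ?_, card_MM := ?_, card_M := hMM2,
           stab := ?_, mix := ?_, sat := hSt.sat }
  · exact fun a b c h1 h2 => hSt.tri a b c h1 h2
  · rw [← pow_mul]; exact hMM1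
  · intro U hU
    exact hMM3 U hU
  · intro Y Z hY hZ
    have := hSt.mix Y Z (by rw [hcard]; exact hY) (by rw [hcard]; exact hZ)
    rw [hcard] at this
    exact this

theorem step_of (hstep : StepStmt) : ∀ c Lam B q sq C N d w K E L tau La m kT : ℕ,
      SPar c Lam B q sq C N d w K E L tau La m kT → State m N d K E L tau La →
      ∀ E1, 8 * E1 ≤ C → 2 * c ^ 2 * E1 ≤ sq →
        State (2 * B * q ^ 2 * C * m) (B * q ^ 2 * C) (q * (C - 1) + (B - 1) * w * d)
          (3 * K + 3 + c ^ 4) E1 (c ^ 2 * B) 3 (2 * (q * (C - 1) + (B - 1) * w * d)) := by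
  intro c Lam B q sq C N d w K E L tau La m kT h hS E1 hE1 hE2
  obtain ⟨jC, hjC1, hjC2⟩ := h.hC
  obtain ⟨ν, hν⟩ := h.hN
  have hLam1 : 1 ≤ Lam := by
    by_contra hcon
    have h0 : Lam = 0 := by omega
    have h1 := h.z1
    have h2 := h.hd
    rw [h0, pow_zero] at h1
    have h3 := h.hw
    have hC : 0 < C := by rw [hjC2]; positivity
    obtain ⟨b, hb⟩ := h.hB
    obtain ⟨hh, hq, -⟩ := h.hh
    have hB : 0 < B := by rw [hb]; positivity
    have hq0 : 0 < q := by rw [hq]; positivity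
    have : 0 < B * q ^ 2 * C := by positivity
    have e : 4 * B * q ^ 2 * C = 4 * (B * q ^ 2 * C) := by ring
    omega
  let p : Par :=
    { c := c, Lam := Lam, B := B, q := q, sq := sq, C := C, N := N, d := d, w := w, K := K,
      E := E, L := L, tau := tau, La := La, m := m, kT := kT,
      hLog := by have := h.hLam; norm_num; exact this
      hLam := hLam1
      hq := h.hq
      hw := h.hw
      hsq := h.hsq
      hBp := h.hB
      hCe := by
        rw [hjC2]
        exact (Nat.even_pow.2 ⟨even_two, by omega⟩)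
      hC1 := h.hC1
      hC2 := by
        have := h.hC2
        calc C * N ≤ 2 * (c ^ 3 * q * d) := this
          _ = 2 * c ^ 3 * q * d := by ring
      hd := h.hd
      hN := by rw [hν]; exact Nat.one_le_two_pow
      hL := h.hL
      htau := h.htau
      hLa := h.hLa
      hK := h.hK
      N1 := h.N1
      N2 := h.N2
      N3 := h.N3
      N3' := h.N3p
      N4 := h.N4
      N5 := h.N5
      N7 := h.N7
      N7' := h.N7p
      N8 := h.N8
      s1 := h.z1
      s2 := h.z2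
      s3 := h.z3
      s4 := h.z4 }
  have hk : p.k = q * (C - 1) + (B - 1) * w * d := by
    show q * (C - 1) + (B - 1) * (w * d) = _
    rw [mul_assoc]
  obtain ⟨hh, hq, hev⟩ := h.hh
  have := hstep p hS E1 hE1 hE2
  rw [← hk]
  exact this

theorem alpha_of_TS {m N d K E L tau La : ℕ} {V : Type} [Fintype V] [DecidableEq V]
    {T : SimpleGraph V} {MM : Finset (Finset V)} (h : TS m N d K E L tau La T MM) (hK : 1 ≤ K)
    (I : Finset V) (hI : ∀ p ∈ I, ∀ q ∈ I, ¬ T.Adj p q) : I.card ≤ d := by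
  obtain ⟨M, -, hM⟩ := h.stab I hI
  have h1 : K * I.card ≤ K * d := le_trans (Nat.le_add_left _ _) hM
  exact Nat.le_of_mul_le_mul_left h1 hK

/-- the final theorem from the step theorem -/
theorem final_of_step (hstep : StepStmt) : ∀ ε : ℝ, 0 < ε → ∀ N : ℕ, ∃ n : ℕ, N ≤ n ∧
    ∃ (G : SimpleGraph (Fin n)) (k : ℕ),
      (∀ v : Fin n, (G.neighborSet v).ncard = k) ∧ G.CliqueFree 3 ∧ G.indepNum = k ∧
        (k : ℝ) < (n : ℝ) ^ ((1 : ℝ) / 2 + ε) := by
  intro ε hε N0
  obtain ⟨m, N, d, K, E, L, tau, La, hS, hK, hN, hN0, hd⟩ :=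
    final_abs base_State (step_of hstep) ε hε N0
  obtain ⟨V, i1, i2, T, MM, hT⟩ := hS
  refine ⟨N, hN0, ?_⟩
  have e : V ≃ Fin N := Fintype.equivFinOfCardEq hT.card_V
  obtain ⟨G', inst, hreg, hcf, hin⟩ := transport T (k := d) e hT.reg
    (fun p q r => hT.tri p q r) (fun I hI => alpha_of_TS hT hK I hI) hN
  refine ⟨G', d, ?_, hcf, hin, hd⟩
  intro v
  have h := hreg v
  rw [← SimpleGraph.card_neighborSet_eq_degree, ← Nat.card_eq_fintype_card] at h
  exact h

end Pool.Agent.helper40.TB
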