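import Mathlib

set_option linter.all false

/-!
# MP_ce98d8_co: numerics of the recursion
-/

namespace Pool.Agent.helper40.TB

/-- the number of copies -/
theorem num_C {x N : ℕ} (hN : 0 < N) (hbig : 2 * N ≤ x) :
    ∃ j, 1 ≤ j ∧ x ≤ 2 ^ j * N ∧ 2 ^ j * N ≤ 2 * x := by
  classical
  have hex : ∃ j, x ≤ 2 ^ j * N :=
    ⟨x, le_trans Nat.lt_two_pow_self.le (Nat.le_mul_of_pos_right _ hN)⟩
  set j := Nat.find hex with hj
  have h1 : x ≤ 2 ^ j * N := Nat.find_spec hex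
  have h2 : 1 ≤ j := by
    by_contra h
    have h0 : j = 0 := by omega
    rw [h0, pow_zero, one_mul] at h1
    omega
  refine ⟨j, h2, h1, ?_⟩
  have h3 : ¬ x ≤ 2 ^ (j - 1) * N := Nat.find_min hex (by omega)
  have h4 : 2 ^ j = 2 * 2 ^ (j - 1) := by
    rw [← pow_succ']; congr 1; omega
  rw [h4]
  push Not at h3
  nlinarith

/-- comparison of powers with a small constant -/
theorem pw {c k i j : ℕ} (hc : k ≤ c) (hc1 : 1 ≤ c) (h : i + 1 ≤ j) : k * c ^ i ≤ c ^ j := by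
  calc k * c ^ i ≤ c * c ^ i := Nat.mul_le_mul_right _ hc
    _ = c ^ (i + 1) := by ring
    _ ≤ c ^ j := Nat.pow_le_pow_right hc1 h

/-- the inequalities that are used in one step of the recursion.
`a`: `N/d ~ c^(a+3)`, `n`: `N ~ c^n`, `a'`: `q = c^a'`, `B = c^200`. -/
structure Inv (c a n N d : ℕ) : Prop where
  d0 : 0 < d
  r1 : c ^ (a + 3) * d ≤ 2 * N
  r2 : N ≤ 4 * (c ^ (a + 3) * d)
  n1 : c ^ n ≤ 4 * N
  n2 : N ≤ 4 * c ^ n

theorem Inv.N0 {c a n N d : ℕ} (h : Inv c a n N d) (hc : 1 ≤ c) : 0 < N := by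
  have h1 := h.r1
  have h2 := h.d0
  have h3 : 0 < c ^ (a + 3) * d := Nat.mul_pos (by positivity) h2
  omega

theorem Inv.d100 {c a n N d : ℕ} (h : Inv c a n N d) (hc : 1000 ≤ c) (hn : a + 5 ≤ n) :
    100 ≤ d := by
  have hc1 : 1 ≤ c := by omega
  have h1 : c ^ (a + 3) * (c * c) ≤ c ^ (a + 3) * (16 * d) := by
    calc c ^ (a + 3) * (c * c) = c ^ (a + 5) := by ring
      _ ≤ c ^ n := Nat.pow_le_pow_right hc1 hn
      _ ≤ 4 * N := h.n1
      _ ≤ 4 * (4 * (c ^ (a + 3) * d)) := Nat.mul_le_mul_left _ h.r2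
      _ = c ^ (a + 3) * (16 * d) := by ring
  have h2 : c * c ≤ 16 * d := Nat.le_of_mul_le_mul_left h1 (by positivity)
  have h3 : 1000 * 1000 ≤ c * c := Nat.mul_le_mul hc hc
  omega

/-- the bounds for `C` -/
theorem C_bounds {c a n N d a' C : ℕ} (h : Inv c a n N d) (hc : 4 ≤ c) (haa : a ≤ a')
    (h1 : c ^ 3 * c ^ a' * d ≤ C * N) (h2 : C * N ≤ 2 * (c ^ 3 * c ^ a' * d)) :
    c ^ (a' - a) ≤ 4 * C ∧ C ≤ 4 * c ^ (a' - a) := by
  have hd := h.d0
  have hN := h.N0 (by omega)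
  have e1 : c ^ 3 * c ^ a' = c ^ (a + 3) * c ^ (a' - a) := by
    rw [← pow_add, ← pow_add]; congr 1; omega
  have hP : 0 < c ^ (a + 3) := by positivity
  rw [e1] at h1 h2
  constructor
  · -- c^(a+3) * c^(a'-a) * d ≤ C * N ≤ C * 4 * c^(a+3) * d
    have h3 : (c ^ (a + 3) * d) * c ^ (a' - a) ≤ (c ^ (a + 3) * d) * (4 * C) := by
      calc (c ^ (a + 3) * d) * c ^ (a' - a) = c ^ (a + 3) * c ^ (a' - a) * d := by ring
        _ ≤ C * N := h1
        _ ≤ C * (4 * (c ^ (a + 3) * d)) := Nat.mul_le_mul_left _ h.r2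
        _ = (c ^ (a + 3) * d) * (4 * C) := by ring
    exact Nat.le_of_mul_le_mul_left h3 (Nat.mul_pos hP hd)
  · have h3 : N * C ≤ N * (4 * c ^ (a' - a)) := by
      calc N * C = C * N := Nat.mul_comm _ _
        _ ≤ 2 * (c ^ (a + 3) * c ^ (a' - a) * d) := h2
        _ = 2 * (c ^ (a' - a)) * (c ^ (a + 3) * d) := by ring
        _ ≤ 2 * (c ^ (a' - a)) * (2 * N) := Nat.mul_le_mul_left _ h.r1
        _ = N * (4 * c ^ (a' - a)) := by ring
    exact Nat.le_of_mul_le_mul_left h3 hN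

/-- the new invariants -/
theorem Inv.next {c a n N d a' C w k : ℕ} (h : Inv c a n N d) (hc : 4 ≤ c) (haa : a ≤ a')
    (hw : c ^ a' * c ^ a' = w * N) (hC : 1 ≤ C)
    (h1 : c ^ 3 * c ^ a' * d ≤ C * N) (h2 : C * N ≤ 2 * (c ^ 3 * c ^ a' * d))
    (hk : k = c ^ a' * (C - 1) + (c ^ 200 - 1) * w * d) :
    Inv c a' (200 + 2 * a' + (a' - a)) (c ^ 200 * (c ^ a') ^ 2 * C) k := by
  have hd := h.d0
  have hN := h.N0 (by omega)
  have hc1 : 1 ≤ c := by omega
  obtain ⟨h3, h4⟩ := C_bounds h hc haa h1 h2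
  have hq : 0 < c ^ a' := by positivity
  set q := c ^ a' with hqd
  have hB : 2 * c ^ 3 ≤ c ^ 200 := pw (by omega) hc1 (by norm_num)
  obtain ⟨B, hBd⟩ : ∃ B, c ^ 200 = B := ⟨_, rfl⟩
  rw [hBd] at hB hk ⊢
  have hB2 : 2 ≤ B := by
    have : 1 ≤ c ^ 3 := Nat.one_le_pow _ _ hc1
    omega
  -- k N
  have kN1 : k * N ≤ 2 * (B * (q * q * d)) := by
    have e1 : k ≤ q * C + B * w * d := by
      rw [hk]
      have : (B - 1) * w * d ≤ B * w * d := by gcongr; omega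
      have : q * (C - 1) ≤ q * C := by gcongr; omega
      omega
    calc k * N ≤ (q * C + B * w * d) * N := Nat.mul_le_mul_right _ e1
      _ = q * (C * N) + B * (w * N) * d := by ring
      _ = q * (C * N) + B * (q * q) * d := by rw [hw]
      _ ≤ q * (2 * (c ^ 3 * q * d)) + B * (q * q) * d := by gcongr
      _ = (2 * c ^ 3) * (q * q * d) + B * (q * q * d) := by ring
      _ ≤ B * (q * q * d) + B * (q * q * d) := by gcongr
      _ = 2 * (B * (q * q * d)) := by ring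
  have kN2 : B * (q * q * d) ≤ 2 * (k * N) := by
    have e1 : (B - 1) * w * d ≤ k := by rw [hk]; exact Nat.le_add_left _ _
    have e2 : B ≤ 2 * (B - 1) := by omega
    calc B * (q * q * d) ≤ (2 * (B - 1)) * (q * q * d) := Nat.mul_le_mul_right _ e2
      _ = 2 * (((B - 1) * (w * N) * d)) := by rw [hw]; ring
      _ = 2 * ((B - 1) * w * d * N) := by ring
      _ ≤ 2 * (k * N) := by gcongr
  have hk0 : 0 < k := by
    rcases Nat.eq_zero_or_pos k with h0 | h0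
    · rw [h0] at kN2
      have : 0 < B * (q * q * d) := by positivity
      omega
    · exact h0
  refine { d0 := hk0, r1 := ?_, r2 := ?_, n1 := ?_, n2 := ?_ }
  · -- c^(a'+3) * k ≤ 2 B q² C
    have e1 : N * (c ^ (a' + 3) * k) ≤ N * (2 * (B * q ^ 2 * C)) := by
      calc N * (c ^ (a' + 3) * k) = c ^ 3 * q * (k * N) := by rw [pow_add, hqd]; ring
        _ ≤ c ^ 3 * q * (2 * (B * (q * q * d))) := by gcongr
        _ = 2 * (B * q ^ 2) * (c ^ 3 * q * d) := by ring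
        _ ≤ 2 * (B * q ^ 2) * (C * N) := by gcongr
        _ = N * (2 * (B * q ^ 2 * C)) := by ring
    exact Nat.le_of_mul_le_mul_left e1 hN
  · have e1 : N * (B * q ^ 2 * C) ≤ N * (4 * (c ^ (a' + 3) * k)) := by
      calc N * (B * q ^ 2 * C) = B * q ^ 2 * (C * N) := by ring
        _ ≤ B * q ^ 2 * (2 * (c ^ 3 * q * d)) := by gcongr
        _ = 2 * (c ^ 3 * q) * (B * (q * q * d)) := by ring
        _ ≤ 2 * (c ^ 3 * q) * (2 * (k * N)) := by gcongr
        _ = N * (4 * (c ^ (a' + 3) * k)) := by rw [pow_add, hqd]; ring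
    exact Nat.le_of_mul_le_mul_left e1 hN
  · calc c ^ (200 + 2 * a' + (a' - a)) = B * q ^ 2 * c ^ (a' - a) := by
          rw [← hBd, hqd]; ring
      _ ≤ B * q ^ 2 * (4 * C) := by gcongr
      _ = 4 * (B * q ^ 2 * C) := by ring
  · calc B * q ^ 2 * C ≤ B * q ^ 2 * (4 * c ^ (a' - a)) := by gcongr
      _ = 4 * c ^ (200 + 2 * a' + (a' - a)) := by
          rw [← hBd, hqd]; ring

end Pool.Agent.helper40.TB
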