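import Pool.Agent.helper40.TB.Num

set_option linter.all false

/-!
# MP_ce98d8_co: the exponents of the recursion
-/

namespace Pool.Agent.helper40.TB

/-- exponents: `q_j = c ^ (ea A j)` for `j ≥ 1`, `r_j ~ c ^ (ea A j + 3)` -/
def ea (A : ℕ) : ℕ → ℕ
  | 0 => 2 * A - 2
  | j + 1 => ea A j + (2 * A - 36 + 215 * j)

/-- exponents: `N_j ~ c ^ (en A j)` -/
def en (A : ℕ) : ℕ → ℕ
  | 0 => 6 * A + 17
  | j + 1 => 200 + 2 * ea A (j + 1) + (2 * A - 36 + 215 * j)

/-- exponents: `m_j ≤ c ^ (em A j)` -/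
def em (A : ℕ) : ℕ → ℕ
  | 0 => 6 * A + 17
  | j + 1 => em A j + en A (j + 1) + 1

theorem ea_zero (A : ℕ) : ea A 0 = 2 * A - 2 := rfl

theorem ea_succ (A j : ℕ) : ea A (j + 1) = ea A j + (2 * A - 36 + 215 * j) := rfl

theorem en_succ (A j : ℕ) : en A (j + 1) = 200 + 2 * ea A (j + 1) + (2 * A - 36 + 215 * j) := rfl

theorem em_succ (A j : ℕ) : em A (j + 1) = em A j + en A (j + 1) + 1 := rfl

theorem ea_ge (A : ℕ) : ∀ j, 2 * A - 2 ≤ ea A j
  | 0 => le_rfl
  | j + 1 => le_trans (ea_ge A j) (Nat.le_add_right _ _)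

theorem ea_mul (A : ℕ) : ∀ j, j * (2 * A - 36) ≤ ea A j
  | 0 => by simp
  | j + 1 => by
      have := ea_mul A j
      rw [ea_succ, Nat.add_mul]
      omega

theorem ea_diff (A j : ℕ) : ea A (j + 1) - ea A j = 2 * A - 36 + 215 * j := by
  rw [ea_succ]; omega

/-- `N1` -/
theorem en_cond1 (A : ℕ) (hA : 21000 ≤ A) : ∀ j, en A j + 16 ≤ 2 * ea A (j + 1)
  | 0 => by
      show 6 * A + 17 + 16 ≤ 2 * ea A 1
      rw [ea_succ, ea_zero]; omega
  | j + 1 => by
      rw [en_succ, ea_succ A (j + 1)]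
      omega

/-- `N3` -/
theorem ea_cond3 (A : ℕ) (hA : 21000 ≤ A) : ∀ j, ea A (j + 1) + 34 ≤ 2 * ea A j
  | 0 => by
      rw [ea_succ, ea_zero]; omega
  | j + 1 => by
      have h1 := ea_ge A j
      have h2 : ea A (j + 1 + 1) = ea A (j + 1) + (2 * A - 36 + 215 * (j + 1)) := rfl
      have h3 := ea_succ A j
      omega

/-- `N5` -/
theorem en_cond5 (A : ℕ) (hA : 21000 ≤ A) : ∀ j, en A j ≤ ea A j + ea A (j + 1) + 196
  | 0 => by
      show 6 * A + 17 ≤ ea A 0 + ea A 1 + 196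
      rw [ea_succ, ea_zero]; omega
  | j + 1 => by
      rw [en_succ, ea_succ A (j + 1)]
      omega

theorem en_ge (A : ℕ) (hA : 21000 ≤ A) : ∀ j, ea A j + 5 ≤ en A j
  | 0 => by
      show ea A 0 + 5 ≤ 6 * A + 17
      rw [ea_zero]; omega
  | j + 1 => by
      rw [en_succ]
      omega

/-- `N4` -/
theorem en_cond4 (A : ℕ) (j : ℕ) :
    en A (j + 1) + 15 ≤ ea A (j + 1) + ea A (j + 1 + 1) := by
  rw [en_succ, ea_succ A (j + 1)]
  omega

theorem em_mono (A : ℕ) : ∀ {i j}, i ≤ j → em A i ≤ em A j := by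
  intro i j h
  induction j with
  | zero =>
    have : i = 0 := by omega
    rw [this]
  | succ j ih =>
    rcases Nat.lt_or_ge i (j + 1) with h1 | h1
    · exact le_trans (ih (by omega)) (by rw [em_succ]; omega)
    · have : i = j + 1 := by omega
      rw [this]

theorem en_le_em (A : ℕ) : ∀ j, en A j ≤ em A j
  | 0 => le_rfl
  | j + 1 => by rw [em_succ]; omega

end Pool.Agent.helper40.TB
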