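import Pool.Agent.helper40.TB.BiCount

set_option linter.all false

namespace Pool.Agent.helper40.TB

open Finset Pool.Agent.helper11.Tight

variable {X Y : Type*} [Fintype X] [DecidableEq X] [Fintype Y] [DecidableEq Y]

open Classical in
/-- pairs of points of `Z` joined by an edge of the first kind -/
noncomputable def eo1 (H1 : SimpleGraph X) (H2 : SimpleGraph Y) (Z : Finset (X × Y)) : ℕ :=
  ((Z ×ˢ Z).filter (fun pq => H1.Adj pq.1.1 pq.2.1 ∧ ¬ Q H2 pq.1.2 pq.2.2)).card

/-- the rows of size about `2 ^ j` -/
def lev (Z : Finset (X × Y)) (j : ℕ) : Finset X :=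
  Finset.univ.filter (fun x => (row Z x).Nonempty ∧ Nat.log 2 (row Z x).card = j)

theorem lev_lower {H1 : SimpleGraph X} {H2 : SimpleGraph Y} {d2 β1 K : ℕ}
    (hbi : Bi H1 β1) (hβ : 0 < β1) (hB2 : Base H2 d2) (hp : FewP3 H2 K)
    (Z : Finset (X × Y)) (j : ℕ) (hj : 10 * ((K + 4) * d2 + 2) ≤ 2 ^ j)
    (hc : 4 * β1 ≤ (lev Z j).card) :
    (2 ^ j * (lev Z j).card) ^ 2 ≤ 16 * β1 * eo1 H1 H2 Z := by
  classical
  have h1 := bi_count hbi hβ (lev Z j) (lev Z j) (by omega) hc
  have hrow : ∀ x ∈ lev Z j, 2 ^ j ≤ (row Z x).card := by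
    intro x hx
    rw [lev, Finset.mem_filter] at hx
    obtain ⟨-, h2, h3⟩ := hx
    rw [← h3]
    exact Nat.pow_log_le_self 2 (Finset.card_pos.2 h2).ne'
  -- lower bound of the number of pairs
  have h2 : eo H1 (lev Z j) (lev Z j) * 4 ^ j ≤ 4 * eo1 H1 H2 Z := by
    set E := ((lev Z j) ×ˢ (lev Z j)).filter (fun p => H1.Adj p.1 p.2) with hE
    have hEc : eo H1 (lev Z j) (lev Z j) = E.card := rfl
    set F : X × X → Finset ((X × Y) × (X × Y)) := fun p =>
      (((row Z p.1) ×ˢ (row Z p.2)).filter (fun r => ¬ Q H2 r.1 r.2)).image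
        (fun r => ((p.1, r.1), (p.2, r.2))) with hF
    have hFc : ∀ p ∈ E, 4 ^ j ≤ 4 * (F p).card := by
      intro p hp'
      rw [hE, Finset.mem_filter, Finset.mem_product] at hp'
      have e1 := hrow p.1 hp'.1.1
      have e2 := hrow p.2 hp'.1.2
      have e3 := nonQ_pairs hB2 hp (row Z p.1) (row Z p.2) (by omega) (by omega)
      have e4 : (F p).card = (((row Z p.1) ×ˢ (row Z p.2)).filter
          (fun r => ¬ Q H2 r.1 r.2)).card := by
        rw [hF]
        apply Finset.card_image_of_injective
        rintro ⟨a, b⟩ ⟨a', b'⟩ hab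
        simp only [Prod.mk.injEq, true_and] at hab
        exact Prod.ext hab.1 hab.2
      rw [e4]
      have e5 : 4 ^ j = 2 ^ j * 2 ^ j := by
        rw [show (4 : ℕ) = 2 * 2 from rfl, mul_pow]
      have e6 : 2 ^ j * 2 ^ j ≤ (row Z p.1).card * (row Z p.2).card := Nat.mul_le_mul e1 e2
      rw [e5]
      exact le_trans e6 e3
    have hdis : ∀ p ∈ E, ∀ p' ∈ E, p ≠ p' → Disjoint (F p) (F p') := by
      intro p _ p' _ hne
      rw [Finset.disjoint_left]
      intro t ht ht'
      rw [hF] at ht ht'
      rw [Finset.mem_image] at ht ht'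
      obtain ⟨r, -, hr⟩ := ht
      obtain ⟨r', -, hr'⟩ := ht'
      apply hne
      rw [← hr'] at hr
      simp only [Prod.mk.injEq] at hr
      exact Prod.ext hr.1.1 hr.2.1
    have hsub : E.biUnion F ⊆
        (Z ×ˢ Z).filter (fun pq => H1.Adj pq.1.1 pq.2.1 ∧ ¬ Q H2 pq.1.2 pq.2.2) := by
      intro t ht
      rw [Finset.mem_biUnion] at ht
      obtain ⟨p, hp', ht⟩ := ht
      rw [hF, Finset.mem_image] at ht
      obtain ⟨r, hr, rfl⟩ := ht
      rw [Finset.mem_filter, Finset.mem_product, mem_row, mem_row] at hr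
      rw [hE, Finset.mem_filter] at hp'
      rw [Finset.mem_filter, Finset.mem_product]
      exact ⟨hr.1, hp'.2, hr.2⟩
    have h3 := Finset.card_le_card hsub
    rw [Finset.card_biUnion hdis] at h3
    have h4 : E.card * 4 ^ j ≤ ∑ p ∈ E, 4 * (F p).card := by
      rw [← smul_eq_mul]
      exact Finset.card_nsmul_le_sum _ _ _ hFc
    rw [← Finset.mul_sum] at h4
    rw [hEc]
    unfold eo1
    omega
  have e5 : (2 ^ j) ^ 2 = 4 ^ j := by rw [← pow_mul, mul_comm, pow_mul]; norm_num
  calc (2 ^ j * (lev Z j).card) ^ 2 = 4 ^ j * ((lev Z j).card * (lev Z j).card) := by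
        rw [mul_pow, e5]; ring
    _ ≤ 4 ^ j * (4 * β1 * eo H1 (lev Z j) (lev Z j)) := Nat.mul_le_mul_left _ h1
    _ = 4 * β1 * (eo H1 (lev Z j) (lev Z j) * 4 ^ j) := by ring
    _ ≤ 4 * β1 * (4 * eo1 H1 H2 Z) := Nat.mul_le_mul_left _ h2
    _ = 16 * β1 * eo1 H1 H2 Z := by ring

/-- few rows carry most of a set with few edges of the first kind -/
theorem rowpart {H1 : SimpleGraph X} {H2 : SimpleGraph Y} {d2 β1 K La Lg : ℕ}
    (hbi : Bi H1 β1) (hβ : 0 < β1) (hB2 : Base H2 d2) (hp : FewP3 H2 K)
    (Z : Finset (X × Y)) (hLg : Fintype.card Y < 2 ^ Lg) (hLg1 : 1 ≤ Lg)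
    (hE : La * eo1 H1 H2 Z < Z.card ^ 2) (hLa : 4096 * β1 * Lg ^ 2 ≤ La)
    (hsmall : 8 * (20 * ((K + 4) * d2 + 2) * Fintype.card X) ≤ Z.card) :
    ∃ R : Finset X, R.card ≤ 4 * β1 * Lg ∧
      4 * (Z.filter (fun p => p.1 ∉ R)).card ≤ Z.card := by
  classical
  set R := (Finset.range Lg).biUnion (fun j => if (lev Z j).card < 4 * β1 then lev Z j else ∅)
    with hR
  have hlog : ∀ x, Nat.log 2 (row Z x).card < Lg := by
    intro x
    apply Nat.log_lt_of_lt_pow' (by omega)
    exact lt_of_le_of_lt (Finset.card_le_univ _) hLg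
  refine ⟨R, ?_, ?_⟩
  · refine le_trans Finset.card_biUnion_le ?_
    calc ∑ j ∈ Finset.range Lg, (if (lev Z j).card < 4 * β1 then lev Z j else ∅).card
        ≤ ∑ j ∈ Finset.range Lg, 4 * β1 := by
          apply Finset.sum_le_sum
          intro j _
          split_ifs with h
          · exact h.le
          · simp
      _ = 4 * β1 * Lg := by simp [Nat.mul_comm]
  · -- the rest
    set tt := 10 * ((K + 4) * d2 + 2) with htt
    have hsub : Z.filter (fun p => p.1 ∉ R) ⊆
        (Z.filter (fun p => (row Z p.1).card < 2 * tt)) ∪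
          ((Finset.range Lg).filter (fun j => tt ≤ 2 ^ j ∧ 4 * β1 ≤ (lev Z j).card)).biUnion
            (fun j => Z.filter (fun p => p.1 ∈ lev Z j)) := by
      intro p hp'
      rw [Finset.mem_filter] at hp'
      obtain ⟨hpZ, hpR⟩ := hp'
      rw [Finset.mem_union, Finset.mem_filter, Finset.mem_biUnion]
      by_cases h : (row Z p.1).card < 2 * tt
      · exact Or.inl ⟨hpZ, h⟩
      · right
        have hne : (row Z p.1).Nonempty := ⟨p.2, by rw [mem_row]; exact hpZ⟩
        set j := Nat.log 2 (row Z p.1).card with hj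
        have hmem : p.1 ∈ lev Z j := by
          rw [lev, Finset.mem_filter]
          exact ⟨Finset.mem_univ _, hne, rfl⟩
        refine ⟨j, ?_, ?_⟩
        · rw [Finset.mem_filter, Finset.mem_range]
          refine ⟨hlog p.1, ?_, ?_⟩
          · have h3 : (row Z p.1).card < 2 ^ (j + 1) := Nat.lt_pow_succ_log_self (by omega) _
            rw [pow_succ] at h3
            omega
          · by_contra hcon
            push Not at hcon
            apply hpR
            rw [hR, Finset.mem_biUnion]
            refine ⟨j, Finset.mem_range.2 (hlog p.1), ?_⟩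
            rw [if_pos hcon]
            exact hmem
        · rw [Finset.mem_filter]
          exact ⟨hpZ, hmem⟩
    have h1 : (Z.filter (fun p => (row Z p.1).card < 2 * tt)).card ≤
        2 * tt * Fintype.card X := by
      rw [← sum_row]
      calc ∑ x, (row (Z.filter (fun p => (row Z p.1).card < 2 * tt)) x).card
          ≤ ∑ x : X, 2 * tt := by
            apply Finset.sum_le_sum
            intro x _
            by_cases h : (row Z x).card < 2 * tt
            · refine le_trans (Finset.card_le_card ?_) h.le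
              intro y hy
              rw [mem_row, Finset.mem_filter] at hy
              rw [mem_row]
              exact hy.1
            · have : row (Z.filter (fun p => (row Z p.1).card < 2 * tt)) x = ∅ := by
                apply Finset.eq_empty_of_forall_notMem
                intro y hy
                rw [mem_row, Finset.mem_filter] at hy
                exact h hy.2
              rw [this]
              simp
        _ = 2 * tt * Fintype.card X := by simp [Nat.mul_comm]
    have h2 : ∀ j ∈ (Finset.range Lg).filter (fun j => tt ≤ 2 ^ j ∧ 4 * β1 ≤ (lev Z j).card),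
        Lg * (8 * (Z.filter (fun p => p.1 ∈ lev Z j)).card) ≤ Z.card := by
      intro j hj
      rw [Finset.mem_filter] at hj
      obtain ⟨-, hj1, hj2⟩ := hj
      have h3 := lev_lower hbi hβ hB2 hp Z j hj1 hj2
      have h4 : (Z.filter (fun p => p.1 ∈ lev Z j)).card ≤ 2 * (2 ^ j * (lev Z j).card) := by
        rw [← sum_row]
        calc ∑ x, (row (Z.filter (fun p => p.1 ∈ lev Z j)) x).card
            ≤ ∑ x : X, (if x ∈ lev Z j then 2 * 2 ^ j else 0) := by
              apply Finset.sum_le_sum
              intro x _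
              split_ifs with h
              · have h5 : (row (Z.filter (fun p => p.1 ∈ lev Z j)) x).card ≤ (row Z x).card := by
                  apply Finset.card_le_card
                  intro y hy
                  rw [mem_row, Finset.mem_filter] at hy
                  rw [mem_row]
                  exact hy.1
                refine le_trans h5 ?_
                rw [lev, Finset.mem_filter] at h
                have h6 : (row Z x).card < 2 ^ (j + 1) := by
                  rw [← h.2.2]
                  exact Nat.lt_pow_succ_log_self (by omega) _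
                rw [pow_succ] at h6
                omega
              · have : row (Z.filter (fun p => p.1 ∈ lev Z j)) x = ∅ := by
                  apply Finset.eq_empty_of_forall_notMem
                  intro y hy
                  rw [mem_row, Finset.mem_filter] at hy
                  exact h hy.2
                rw [this]
                simp
          _ = 2 * (2 ^ j * (lev Z j).card) := by
              rw [Finset.sum_ite_mem, Finset.univ_inter, Finset.sum_const, smul_eq_mul]
              ring
      set m := 2 ^ j * (lev Z j).card with hm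
      have h5 : (16 * Lg * m) ^ 2 < Z.card ^ 2 := by
        have e1 : (16 * Lg * m) ^ 2 = 256 * Lg ^ 2 * m ^ 2 := by ring
        have e2 : 256 * Lg ^ 2 * m ^ 2 ≤ 256 * Lg ^ 2 * (16 * β1 * eo1 H1 H2 Z) :=
          Nat.mul_le_mul_left _ h3
        have e3 : 256 * Lg ^ 2 * (16 * β1 * eo1 H1 H2 Z) = (4096 * β1 * Lg ^ 2) * eo1 H1 H2 Z := by
          ring
        have e4 : (4096 * β1 * Lg ^ 2) * eo1 H1 H2 Z ≤ La * eo1 H1 H2 Z :=
          Nat.mul_le_mul_right _ hLa
        omega
      have h6 : 16 * Lg * m < Z.card := lt_of_pow_lt_pow_left₀ 2 (Nat.zero_le _) h5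
      have h7 : Lg * (8 * (Z.filter (fun p => p.1 ∈ lev Z j)).card) ≤ 16 * Lg * m := by
        calc Lg * (8 * (Z.filter (fun p => p.1 ∈ lev Z j)).card) ≤ Lg * (8 * (2 * m)) := by
              apply Nat.mul_le_mul_left
              apply Nat.mul_le_mul_left
              exact h4
          _ = 16 * Lg * m := by ring
      omega
    have h8 : Lg * (8 * (((Finset.range Lg).filter
        (fun j => tt ≤ 2 ^ j ∧ 4 * β1 ≤ (lev Z j).card)).biUnion
            (fun j => Z.filter (fun p => p.1 ∈ lev Z j))).card) ≤ Lg * Z.card := by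
      have e1 := Finset.card_biUnion_le (s := (Finset.range Lg).filter
        (fun j => tt ≤ 2 ^ j ∧ 4 * β1 ≤ (lev Z j).card))
        (t := fun j => Z.filter (fun p => p.1 ∈ lev Z j))
      calc Lg * (8 * (((Finset.range Lg).filter
        (fun j => tt ≤ 2 ^ j ∧ 4 * β1 ≤ (lev Z j).card)).biUnion
            (fun j => Z.filter (fun p => p.1 ∈ lev Z j))).card)
          ≤ Lg * (8 * ∑ j ∈ (Finset.range Lg).filter
            (fun j => tt ≤ 2 ^ j ∧ 4 * β1 ≤ (lev Z j).card),
              (Z.filter (fun p => p.1 ∈ lev Z j)).card) := by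
            apply Nat.mul_le_mul_left
            apply Nat.mul_le_mul_left
            exact e1
        _ = ∑ j ∈ (Finset.range Lg).filter
            (fun j => tt ≤ 2 ^ j ∧ 4 * β1 ≤ (lev Z j).card),
              Lg * (8 * (Z.filter (fun p => p.1 ∈ lev Z j)).card) := by
            rw [Finset.mul_sum, Finset.mul_sum]
        _ ≤ ∑ j ∈ (Finset.range Lg).filter
            (fun j => tt ≤ 2 ^ j ∧ 4 * β1 ≤ (lev Z j).card), Z.card := Finset.sum_le_sum h2
        _ ≤ ∑ j ∈ Finset.range Lg, Z.card :=
            Finset.sum_le_sum_of_subset (Finset.filter_subset _ _)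
        _ = Lg * Z.card := by simp
    have h9 := Nat.le_of_mul_le_mul_left h8 (by omega : 0 < Lg)
    have h10 := le_trans (Finset.card_le_card hsub) (Finset.card_union_le _ _)
    have h11 : 8 * (2 * tt * Fintype.card X) ≤ Z.card := by
      refine le_trans (le_of_eq ?_) hsmall
      rw [htt]
      ring
    omega

end Pool.Agent.helper40.TB
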