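import Pool.Agent.helper42.TB.TreeSpec

/-!
# Project TB (MP_323ab2_al, full question Q1), parts RK and I0

`RK_stmt` and `I0_stmt` of `Pool/Agent/helper42/TB/Defs.lean`.

RULES. Every module proves one statement: `theorem XX (h : YY_stmt) ... : XX_stmt`, file
`Pool/Agent/<seat>/TB/XX.lean`, `import Pool.Agent.helper40.TB.Spec`, namespace `Pool.Agent.TB`,
`open Pool.Agent.helper42.ML`; auxiliary lemmas prefixed `XX_`; no sorry. Any EARLIER statement of
this file and any statement of `TreeSpec.lean` (`K1_stmt`, ...) may be a hypothesis.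

## The idea

Let `G` act on a tree `T` with trivial edge stabilisers. A turn function `τ z p q` (`p`, `q`
neighbours of `z`) with values in a group `K` and `τ z p q * τ z q r = τ z p r` has a primitive `Φ`
on the edges, `Φ z q = Φ z p * τ z p q`, unique up to a left factor. If `τ` is invariant under `G`
then `Φ (g e) = r g * Φ e` with a homomorphism `r`. So one gets a retraction of `G` onto the
stabiliser `S` of a vertex `x`. For `G = F_n` the group `S` is free (Nielsen-Schreier) of rank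
`m ≤ n` (count homomorphisms to `ℤ/2`), and `m = n` is impossible since `F_n` is Hopfian.
-/

set_option autoImplicit false

namespace Pool.Agent.TB

open Pool.Agent.helper42.ML

/-! ### Part R: RK -/

/-- Turn function: a multiplicative cocycle on the neighbours of every vertex. -/
def Turn {V K : Type} [Group K] (T : SimpleGraph V) (τ : V → V → V → K) : Prop :=
  ∀ z p q r, T.Adj z p → T.Adj z q → T.Adj z r → τ z p q * τ z q r = τ z p r

/-- Primitive of a turn function: a symmetric function on the edges. -/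
def Prm {V K : Type} [Group K] (T : SimpleGraph V) (τ : V → V → V → K) (Φ : V → V → K) : Prop :=
  (∀ a b, T.Adj a b → Φ a b = Φ b a) ∧
  ∀ z p q, T.Adj z p → T.Adj z q → Φ z q = Φ z p * τ z p q

/-- MOD R1. Existence of the primitive. Proof. Let `D a = T.dist x0 a`, `P a = nb T a x0` the parent
of `a ≠ x0`; for adjacent `a`, `b` either `D b = D a + 1` and `P b = a`, or `D a = D b + 1` and
`P a = b` (K6). Define `u a` (the value on the edge `{a, P a}`) for `a ≠ x0` by recursion on `D a`: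
`u a = k0 * τ x0 p0 a` if `D a = 1` (then `P a = x0`), `u a = u (P a) * τ (P a) (P (P a)) a` if
`D a ≥ 2`. (Strong recursion on the distance, `WellFounded.fix (measure (T.dist x0)).wf`; or take the
ordered product along the geodesic `geo T x0 a`.) Put `Φ a b = u b` if `D b = D a + 1`, `Φ a b = u a`
otherwise. Symmetric. At `z = x0` all neighbours `q` satisfy `Φ x0 q = k0 * τ x0 p0 q`; at `z ≠ x0` all
neighbours `q` satisfy `Φ z q = u z * τ z (P z) q` (for `q = P z` because `τ z p p = 1`, for the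
others by definition of `u q`); the second property follows from `Turn`. `Φ x0 p0 = k0`. Uses: K6,
K1. -/
def R1_stmt : Prop := ∀ {V K : Type} [Group K] (T : SimpleGraph V), T.IsTree →
  ∀ τ : V → V → V → K, Turn T τ → ∀ (x0 p0 : V) (k0 : K), T.Adj x0 p0 →
    ∃ Φ : V → V → K, Prm T τ Φ ∧ Φ x0 p0 = k0

/-- MOD R2. Uniqueness of the primitive up to a left factor. Proof. If `p`, `q` are neighbours of `z` then
`Ψ z q * (Φ z q)⁻¹ = Ψ z p * (Φ z p)⁻¹`; so `(a, b) ↦ Ψ a b * (Φ a b)⁻¹` is a function of the vertex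
`a` only, on adjacent pairs, and it is symmetric, so adjacent vertices have the same value; `T` is
connected. (No tree needed.) -/
def R2_stmt : Prop := ∀ {V K : Type} [Group K] (T : SimpleGraph V), T.Connected →
  ∀ (τ : V → V → V → K) (Φ Ψ : V → V → K), Prm T τ Φ → Prm T τ Ψ →
    ∃ k : K, ∀ a b, T.Adj a b → Ψ a b = k * Φ a b

/-- MOD R3. Equivariance: the homomorphism `r`. Proof. For `g : G` the function `Ψ a b = Φ (g • a) (g • b)`
is a primitive of `τ` too; let `ρ g` be the factor of R2 if there is an edge (if there is no edge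
take `r = 1`). It is determined by `Ψ x0 p0 = ρ g * Φ x0 p0` for one edge `x0 p0`:
`ρ g = Φ (g • x0) (g • p0) * (Φ x0 p0)⁻¹`. `ρ (g * h) * Φ x0 p0 = Φ (g • h • x0) (g • h • p0) =
ρ g * Φ (h • x0) (h • p0) = ρ g * ρ h * Φ x0 p0`. Uses: R2. -/
def R3_stmt : Prop := ∀ {G V K : Type} [Group G] [MulAction G V] [Group K] (T : SimpleGraph V),
  T.Connected → (∀ (g : G) (x y : V), T.Adj x y → T.Adj (g • x) (g • y)) →
  ∀ (τ : V → V → V → K) (Φ : V → V → K), Prm T τ Φ →
    (∀ (g : G) (z p q : V), T.Adj z p → T.Adj z q → τ (g • z) (g • p) (g • q) = τ z p q) →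
    ∃ r : G →* K, ∀ (g : G) (a b : V), T.Adj a b → Φ (g • a) (g • b) = r g * Φ a b

/-- MOD R4a. An equivariant function on the neighbours of `x`. Proof. `S = stabilizer G x` acts on `V`; let
`o p` be the representative of the orbit of `p` (`Quotient.out` of `MulAction.orbitRel S V`), and
`c p : S` with `c p • o p = p`. For `h : S`, `o (h • p) = o p`, so `(c (h • p)) • o p = h • p =
(h * c p) • o p`; if `p` is a neighbour of `x` then so is `o p` (`S` fixes `x`), and elements of `S`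
which agree on `o p` are equal (trivial edge stabilisers). -/
def R4a_stmt : Prop := ∀ {G V : Type} [Group G] [MulAction G V] (T : SimpleGraph V),
  (∀ (g : G) (x y : V), T.Adj x y → T.Adj (g • x) (g • y)) →
  (∀ (g : G) (x y : V), T.Adj x y → g • x = x → g • y = y → g = 1) →
  ∀ x : V, ∃ c : V → MulAction.stabilizer G x, ∀ (h : MulAction.stabilizer G x) (p : V),
    T.Adj x p → c (h • p) = h * c p

open Classical in
/-- the turn function defined by `c` -/
noncomputable def trn {G V : Type} [Group G] [MulAction G V] (x : V)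
    (c : V → MulAction.stabilizer G x) (z p q : V) : MulAction.stabilizer G x :=
  if h : ∃ g : G, g • x = z then (c (h.choose⁻¹ • p))⁻¹ * c (h.choose⁻¹ • q) else 1

/-- MOD R4b. Properties of `trn`. Proof. Key: if `g • x = z = g' • x` and `p`, `q` are neighbours of
`z` then, with `k = g'⁻¹ * g ∈ stabilizer G x`, `g'⁻¹ • p = k • (g⁻¹ • p)`, so
`c (g'⁻¹ • p) = k * c (g⁻¹ • p)` and the same for `q`: the products agree. So `trn x c z p q =
(c (g⁻¹ • p))⁻¹ * c (g⁻¹ • q)` for every `g` with `g • x = z`. -/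
def R4b_stmt : Prop := ∀ {G V : Type} [Group G] [MulAction G V] (T : SimpleGraph V),
  (∀ (g : G) (x y : V), T.Adj x y → T.Adj (g • x) (g • y)) →
  ∀ (x : V) (c : V → MulAction.stabilizer G x),
    (∀ (h : MulAction.stabilizer G x) (p : V), T.Adj x p → c (h • p) = h * c p) →
    Turn T (trn x c) ∧
    (∀ (g : G) (z p q : V), T.Adj z p → T.Adj z q →
      trn x c (g • z) (g • p) (g • q) = trn x c z p q) ∧
    ∀ (h : MulAction.stabilizer G x) (p : V), T.Adj x p → trn x c x p (h • p) = (c p)⁻¹ * h * c p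

/-- MOD R4. The retraction onto a vertex stabiliser. Proof. If `x` has no neighbour then `x` is the only
vertex (`T` is connected), the stabiliser is everything, `r g = g`. Otherwise let `p0` be a
neighbour, `c` from R4a, `τ = trn x c` (R4b), `Φ` the primitive with `Φ x p0 = c p0` (R1), `r` from R3.
For `h` in the stabiliser `r h * c p0 = Φ (h • x) (h • p0) = Φ x (h • p0) = Φ x p0 * τ x p0 (h • p0) =
c p0 * ((c p0)⁻¹ * h * c p0) = h * c p0`. Uses: R1, R3, R4a, R4b. -/
def R4_stmt : Prop := ∀ {G V : Type} [Group G] [MulAction G V] (T : SimpleGraph V), T.IsTree →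
  (∀ (g : G) (x y : V), T.Adj x y → T.Adj (g • x) (g • y)) →
  (∀ (g : G) (x y : V), T.Adj x y → g • x = x → g • y = y → g = 1) →
  ∀ x : V, ∃ r : G →* MulAction.stabilizer G x, ∀ h : MulAction.stabilizer G x, r (h : G) = h

/-- MOD R5. Free groups are residually finite. Proof. Let `L = g.toWord`, reduced of length `k ≥ 1`,
`L = [(a_1, e_1), ..., (a_k, e_k)]`. For a letter `a` consider the pairs `(i, i - 1)` with
`(a_i, e_i) = (a, true)` and `(i - 1, i)` with `(a_i, e_i) = (a, false)`, in `{0, ..., k}²`. Because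
`L` is reduced they form a partial injection: if `i ↦ i - 1` and `i ↦ i + 1` were both prescribed then
`(a_i, e_i) = (a, true)`, `(a_{i+1}, e_{i+1}) = (a, false)`; if `j + 1 ↦ j` and `j - 1 ↦ j` then
`(a_j, e_j) = (a, false)`, `(a_{j+1}, e_{j+1}) = (a, true)`. Extend it to a permutation `σ a` of
`Fin (k + 1)` (`Equiv.extendSubtype`). Then `f = FreeGroup.lift σ` maps the letter `(a_i, e_i)` to a
permutation which sends `i` to `i - 1`, so `f g` sends `k` to `0 ≠ k`. -/
def R5_stmt : Prop := ∀ (α : Type) (g : FreeGroup α), g ≠ 1 →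
  ∃ (m : ℕ) (f : FreeGroup α →* Equiv.Perm (Fin m)), f g ≠ 1

/-- MOD R6. Free groups of finite rank are Hopfian. Proof. Let `r` be onto, `r g = 1`, `g ≠ 1`; take `m`,
`f` from R5. The set of homomorphisms `FreeGroup (Fin n) →* Equiv.Perm (Fin m)` is finite
(`FreeGroup.lift` is an equivalence), and `β ↦ β.comp r` is injective on it (`r` is onto), hence onto:
`f = β.comp r`, `f g = β 1 = 1`, contradiction. Uses: R5. -/
def R6_stmt : Prop := ∀ (n : ℕ) (r : FreeGroup (Fin n) →* FreeGroup (Fin n)),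
  Function.Surjective r → Function.Injective r

/-- MOD R7. Rank by counting homomorphisms to `ℤ/2`. Proof. (1) By Nielsen-Schreier
(`subgroupIsFreeOfIsFree`, `IsFreeGroup.toFreeGroup`) `S ≃* FreeGroup X` for a type `X`. For an onto
homomorphism `ρ : FreeGroup (Fin n) → FreeGroup X` the map `β ↦ β.comp ρ` from
`FreeGroup X →* Multiplicative (ZMod 2)` (which is `X → ZMod 2` by `FreeGroup.lift`) to
`FreeGroup (Fin n) →* Multiplicative (ZMod 2)` (which is `Fin n → ZMod 2`, with `2 ^ n` elements) is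
injective: so `X → ZMod 2` is finite, so `X` is finite, and `2 ^ |X| ≤ 2 ^ n`; `X ≃ Fin m`, `m ≤ n`
(`FreeGroup.freeGroupCongr`). (2) The same count in both directions. -/
def R7_stmt : Prop :=
  (∀ (n : ℕ) (S : Subgroup (FreeGroup (Fin n))) (ρ : FreeGroup (Fin n) →* S),
    Function.Surjective ρ → ∃ m ≤ n, Nonempty (S ≃* FreeGroup (Fin m))) ∧
  ∀ m n : ℕ, Nonempty (FreeGroup (Fin m) ≃* FreeGroup (Fin n)) → m = n

/-- MOD R8. `RK_stmt`. Proof. `r : F → S = F_x` the retraction of R4 (onto). By R7 `S ≃* FreeGroup (Fin m)`,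
`m ≤ n`. If `m = n` then `F → S → FreeGroup (Fin n)` is onto, so injective (R6), so `r` is injective;
for `g : F` we have `r (r g : F) = r g`, so `(r g : F) = g`, so `g • x = x` for all `g`, which
contradicts the assumption. Uses: R4, R6, R7. -/
def R8_stmt : Prop := RK_stmt

/-! ### Part J: I0 -/

/-- MOD J1. A nontrivial element fixes at most one vertex. Proof. If `x ≠ y` then
`g • nb T x y = nb T (g • x) (g • y) = nb T x y` (K10), and `x`, `nb T x y` are adjacent (K6). Uses: K6,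
K10. -/
def J1_stmt : Prop := ∀ {G V : Type} [Group G] [MulAction G V] (T : SimpleGraph V), T.IsTree →
  (∀ (g : G) (x y : V), T.Adj x y → T.Adj (g • x) (g • y)) →
  (∀ (g : G) (x y : V), T.Adj x y → g • x = x → g • y = y → g = 1) →
  ∀ (g : G) (x y : V), g ≠ 1 → g • x = x → g • y = y → x = y

/-- MOD J2. Finitely many orbits of vertices: among the members of a sequence of vertices two are in
the same orbit. Proof. By `nofix` every vertex `x` has another vertex `g • x`, so it has a neighbour (the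
tree is connected), so by `fin` it is in the orbit of `p.1` for some `p ∈ S`. Pigeonhole
(`Finite.exists_ne_map_eq_of_infinite`). -/
def J2_stmt : Prop := ∀ {F V : Type} [Group F] [MulAction F V] (R : FTree F V) (s : ℕ → V),
  ∃ (i k : ℕ) (a : F), 1 ≤ k ∧ s (i + k) = a • s i

/-- MOD J3. Iterates. Proof. (1) induction; (2), (3) from (1): (2) `h • x = x` implies
`(φ ^ k) h • f^k x = f^k (h • x) = f^k x`; (3) if `f^k x = a • x` then `f^(k l) x = a_l • x`,
`a_(l+1) = (φ ^ k) a_l * a`. -/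
def J3_stmt : Prop := ∀ {F V : Type} [Group F] [MulAction F V] {φ : MulAut F} (R : Rep F V φ),
  (∀ (k : ℕ) (g : F) (x : V), R.f^[k] (g • x) = (φ ^ k) g • R.f^[k] x) ∧
  (∀ (k : ℕ) (h : F) (x : V), h • x = x → (φ ^ k) h • R.f^[k] x = R.f^[k] x) ∧
  ∀ (k : ℕ) (x : V) (a : F), R.f^[k] x = a • x → ∀ l : ℕ, ∃ b : F, R.f^[k * l] x = b • x

/-- MOD J4. An automorphism which maps a nontrivial vertex stabiliser into itself maps it onto
itself. Proof. `F = FreeGroup (Fin n)`, `S = F_w`, `B = θ⁻¹(S) ≥ S`, `θ : B ≃* S ≃* FreeGroup (Fin m)`, where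
`m < n` by `RK_stmt`. Let `e : FreeGroup (Fin m) ≃* B`; `FreeGroup (Fin m)` acts on `V` through `e` and
the inclusion (`MulAction.compHom`), with trivial edge stabilisers. If this action had no global
fixed vertex then by `RK_stmt` the stabiliser of `w` in it would be free of rank `m' < m`; but this
stabiliser is isomorphic to `B ∩ S = S`, so to `FreeGroup (Fin m)`, and `m = m'` by R7 (2): contradiction.
So there is a vertex `y` fixed by `B`. A nontrivial element of `S ≤ B` fixes `w` and `y`, so `y = w`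
(J1), so `B ≤ S`: for `h ∈ S`, `θ⁻¹ h ∈ B ≤ S`. Uses: RK_stmt, R7, J1. -/
def J4_stmt : Prop := ∀ (n : ℕ) (V : Type) [MulAction (FreeGroup (Fin n)) V] (T : SimpleGraph V),
  T.IsTree → (∀ (g : FreeGroup (Fin n)) (x y : V), T.Adj x y → T.Adj (g • x) (g • y)) →
  (∀ (g : FreeGroup (Fin n)) (x y : V), T.Adj x y → g • x = x → g • y = y → g = 1) →
  (∀ x : V, ∃ g : FreeGroup (Fin n), g • x ≠ x) →
  ∀ (θ : MulAut (FreeGroup (Fin n))) (w : V), (∃ g : FreeGroup (Fin n), g ≠ 1 ∧ g • w = w) →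
    (∀ g : FreeGroup (Fin n), g • w = w → θ g • w = w) →
    ∀ h : FreeGroup (Fin n), h • w = w → θ⁻¹ h • w = w

/-- MOD J5. Periodic vertices: if `f^k w = a • w`, `k ≥ 1` (`k` arbitrary in fact), and `F_w ≠ 1` then
`φ^k (F_w) = F_{f^k w}`. Proof. `θ g = a⁻¹ * (φ ^ k) g * a` is an automorphism (`MulAut.conj a⁻¹ * φ ^ k`);
`θ (F_w) ≤ a⁻¹ F_{a w} a = F_w` (J3 (2)). By J4 `θ⁻¹ (F_w) ≤ F_w`. If `h` fixes `f^k w = a • w` then
`a⁻¹ * h * a` fixes `w`, so `h' = θ⁻¹ (a⁻¹ * h * a)` fixes `w`, and `(φ ^ k) h' = h`. Uses: J3, J4. -/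
def J5_stmt : Prop := ∀ (n : ℕ) (V : Type) [MulAction (FreeGroup (Fin n)) V]
  (φ : MulAut (FreeGroup (Fin n))) (R : Rep (FreeGroup (Fin n)) V φ) (w : V) (k : ℕ)
  (a : FreeGroup (Fin n)), (∃ g : FreeGroup (Fin n), g ≠ 1 ∧ g • w = w) → R.f^[k] w = a • w →
    ∀ h : FreeGroup (Fin n), h • R.f^[k] w = R.f^[k] w → (φ ^ k)⁻¹ h • w = w

/-- MOD J6. Every vertex with nontrivial stabiliser is periodic. Proof. Let `F_w ≠ 1`. All
`F_{f^i w} ≥ (φ^i) F_w` are nontrivial (J3 (2)). By J2 for `s i = f^i w` there are `i`, `k ≥ 1`, `a` with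
`f^(i+k) w = a • f^i w`. Let `v = f^i w`; `f^(k l) v = b • v` for `l = i + 1` (J3 (3)); `K = k * l > i`,
`u = f^(K - i) v`, so `f^i u = f^K v = b • v`. `φ^K (F_v) = F_{f^K v}` by J5 for `v`, `K`, `b`. Hence
`F_{f^i u} = φ^K (F_v) ≤ φ^i (F_u)` (J3 (2): `φ^(K-i) (F_v) ≤ F_u`). Let `c = (φ^i)⁻¹ b⁻¹`,
`v0 = c • u`: `f^i v0 = b⁻¹ • f^i u = v`. Claim `F_w ≤ F_{v0}`: for `h ∈ F_w`, `(φ^i) h` fixes `f^i w = v`,
so `b * (φ^i) h * b⁻¹` fixes `b • v = f^i u`, so it is `(φ^i) h'` with `h' ∈ F_u`; then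
`h = c * h' * c⁻¹` (apply `φ^i`) fixes `c • u = v0`. As `F_w ≠ 1`, `w = v0` (J1). So
`w = c • u = c • f^(K-i) (f^i w) = c • f^K w`. Uses: J1, J2, J3, J5. -/
def J6_stmt : Prop := ∀ (n : ℕ) (V : Type) [MulAction (FreeGroup (Fin n)) V]
  (φ : MulAut (FreeGroup (Fin n))) (R : Rep (FreeGroup (Fin n)) V φ) (w : V),
  (∃ g : FreeGroup (Fin n), g ≠ 1 ∧ g • w = w) →
    ∃ (K : ℕ) (a : FreeGroup (Fin n)), 1 ≤ K ∧ R.f^[K] w = a • w

/-- MOD J7. `I0_stmt`. Proof. Let `f^K w = a • w`, `K ≥ 1` (J6), `c = a⁻¹`, so `w = c • f^K w`. Put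
`x = φ⁻¹ c • f^(K-1) w`: `f x = c • f (f^(K-1) w) = w`. Let `(φ h) • w = w`. Then `h1 = c⁻¹ * φ h * c` fixes
`c⁻¹ • w = f^K w`, so by J5 `h2 = (φ^K)⁻¹ h1` fixes `w`, and so `(φ^(K-1)) h2 = φ⁻¹ h1` fixes
`f^(K-1) w` (J3 (2)); `φ⁻¹ h1 = (φ⁻¹ c)⁻¹ * h * φ⁻¹ c`, so `h` fixes `φ⁻¹ c • f^(K-1) w = x`.
Uses: J3, J5, J6. -/
def J7_stmt : Prop := I0_stmt

end Pool.Agent.TB
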