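import Pool.Agent.helper40.TB.Defs

set_option linter.all false

namespace Pool.Agent.helper40.TB

open Finset Pool.Agent.helper11.Tight

variable {X Y : Type*} [Fintype X] [DecidableEq X] [Fintype Y] [DecidableEq Y]

/-- additional numerical conditions -/
structure PC2 (d1 β1 q1 m1 d2 r2 : ℕ) : Prop where
  E1 : 1000 * (d1 * d2) ≤ m1
  E2 : 1000 * β1 ≤ m1
  E3 : 2 * q1 ≤ m1
  E5 : d2 * m1 ≤ d1 * r2

/-- the first centre, stable version -/
theorem stage1s {H1 : SimpleGraph X} {H2 : SimpleGraph Y}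
    {d1 M1 β1 e1 q1 m1 d2 M2 β2 e2 q2 r2 K θ : ℕ}
    (h1 : Good H1 d1 β1 K θ e1) (h2 : Good H2 d2 β2 K θ e2)
    (hX : Fintype.card X = M1) (hY : Fintype.card Y = M2)
    (hc : PC d1 M1 β1 q1 m1 d2 M2 β2 e2 q2 r2 K θ) (I : Finset (X × Y))
    (hI : ∀ p ∈ I, ∀ q ∈ I, ¬ (prodG H1 H2).Adj p q)
    (hbig : 400 * (d1 * r2 + d2 * m1) < 401 * I.card) :
    ∃ (w0 : X) (U : Finset Y), U.card < β2 ∧ ∀ x y, (x, y) ∈ I → y ∉ U → H1.Adj w0 x := by
  classical
  have hI1 : ∀ x y x' y', (x, y) ∈ I → (x', y') ∈ I → H1.Adj x x' → Q H2 y y' := by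
    intro x y x' y' h h' hadj
    by_contra hq
    exact hI _ h _ h' (Or.inl ⟨hadj, hq⟩)
  have hI2 : ∀ x y x' y', (x, y) ∈ I → (x', y') ∈ I → H2.Adj y y' → Q H1 x x' := by
    intro x y x' y' h h' hadj
    by_contra hq
    exact hI _ h _ h' (Or.inr ⟨hadj, hq⟩)
  let C : Y → Finset X := fun y => Finset.univ.filter (fun x => (x, y) ∈ I)
  have hmC : ∀ x y, x ∈ C y ↔ (x, y) ∈ I := by intro x y; simp [C]
  have hC : ∀ y y', H2.Adj y y' → ∀ x ∈ C y, ∀ x' ∈ C y', Q H1 x x' := by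
    intro y y' hadj x hx x' hx'
    exact hI2 x y x' y' ((hmC _ _).1 hx) ((hmC _ _).1 hx') hadj
  have hIcard : ∑ y : Y, (C y).card = I.card := by
    rw [← Finset.card_sigma]
    apply Finset.card_bij (fun (p : (_ : Y) × X) _ => (p.2, p.1))
    · rintro ⟨y, x⟩ hp
      simpa [C] using hp
    · rintro ⟨y, x⟩ _ ⟨y', x'⟩ _ h
      simp only [Prod.mk.injEq] at h
      obtain ⟨rfl, rfl⟩ := h
      rfl
    · rintro ⟨x, y⟩ hp
      exact ⟨⟨y, x⟩, by simpa [C] using hp, rfl⟩
  let L : Finset Y := Finset.univ.filter (fun y => θ < (C y).card ∧ ∃ y', H2.Adj y y' ∧ θ < (C y').card)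
  let T : Finset Y := Finset.univ.filter
    (fun y => θ < (C y).card ∧ ¬ ∃ y', H2.Adj y y' ∧ θ < (C y').card)
  let P : Finset Y := Finset.univ.filter (fun y => ¬ θ < (C y).card)
  have hsplit : ∑ y : Y, (C y).card = ∑ y ∈ L, (C y).card + ∑ y ∈ T, (C y).card +
      ∑ y ∈ P, (C y).card := by
    rw [← Finset.sum_filter_add_sum_filter_not Finset.univ (fun y => θ < (C y).card)]
    rw [← Finset.sum_filter_add_sum_filter_not (Finset.univ.filter (fun y => θ < (C y).card))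
      (fun y => ∃ y', H2.Adj y y' ∧ θ < (C y').card)]
    rw [Finset.filter_filter, Finset.filter_filter]
  -- poor
  have hP : ∑ y ∈ P, (C y).card ≤ θ * M2 := by
    calc ∑ y ∈ P, (C y).card ≤ P.card * θ := by
          apply Finset.sum_le_card_nsmul
          intro y hy
          exact Nat.le_of_not_lt (Finset.mem_filter.mp hy).2
      _ ≤ M2 * θ := Nat.mul_le_mul_right _ (by rw [← hY]; exact Finset.card_le_univ _)
      _ = θ * M2 := Nat.mul_comm _ _
  -- isolated
  have hTind : ∀ y ∈ T, ∀ y' ∈ T, ¬ H2.Adj y y' := by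
    intro y hy y' hy' hadj
    simp only [T, Finset.mem_filter, Finset.mem_univ, true_and] at hy hy'
    exact hy.2 ⟨y', hadj, hy'.1⟩
  have hTc : T.card < 2 * β2 := by
    by_contra hge
    push Not at hge
    obtain ⟨B1, hB1, hB1c⟩ := Finset.exists_subset_card_eq (show β2 ≤ T.card by omega)
    have hB2c : β2 ≤ (T \ B1).card := by
      rw [Finset.card_sdiff_of_subset hB1]; omega
    obtain ⟨a, ha, b, hb', hab⟩ := h2.bi B1 (T \ B1) Finset.disjoint_sdiff (by omega) hB2c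
    exact hTind a (hB1 ha) b (Finset.mem_sdiff.mp hb').1 hab
  have hT : ∑ y ∈ T, (C y).card ≤ 4 * β1 * β2 + M1 * d2 := by
    have hm := mass_le (H := H1) (H' := H2) h1.bi hc.hβ1 h2.toBase h2.bic
      (by have := hc.hθd; omega)
      (fun x => T.filter (fun y => (x, y) ∈ I))
      (by
        intro x x' hadj y hy y' hy'
        exact hI1 x y x' y' (Finset.mem_filter.mp hy).2 (Finset.mem_filter.mp hy').2 hadj)
      Finset.univ T (fun x _ => Finset.filter_subset _ _)
    have hswap : ∑ y ∈ T, (C y).card = ∑ x : X, (T.filter (fun y => (x, y) ∈ I)).card := by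
      simp only [C, Finset.card_filter]
      rw [Finset.sum_comm]
    rw [hswap]
    rw [Finset.card_univ, hX] at hm
    have : 2 * β1 * T.card ≤ 2 * β1 * (2 * β2) := Nat.mul_le_mul_left _ hTc.le
    have e : 2 * β1 * (2 * β2) = 4 * β1 * β2 := by ring
    omega
  -- connected
  have hLm : ∀ y ∈ L, θ < (C y).card ∧ ∃ y', H2.Adj y y' ∧ θ < (C y').card := by
    intro y hy
    simpa [L] using hy
  have hLs : ∑ y ∈ L, (C y).card ≤ d1 * L.card := by
    rw [Nat.mul_comm]
    apply Finset.sum_le_card_nsmul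
    intro y hy
    obtain ⟨hy1, y', hadj, hy2⟩ := hLm y hy
    obtain ⟨w, hw1, hw2⟩ := h1.bic (C y) (C y') hy1 hy2 (fun a ha b hb => hC y y' hadj a ha b hb)
    rw [← h1.reg w]
    apply Finset.card_le_card
    intro a ha
    rw [mem_nb]
    exact hw1 a ha
  have hq : d1 * r2 = d1 * M2 - d1 * q2 := by
    rw [hc.hM2, Nat.mul_add]; omega
  have hkey : 18 * (d1 * M2) < 20 * (d1 * L.card) := by
    have hN1 := hc.N1
    have hle : d1 * q2 ≤ d1 * M2 := Nat.mul_le_mul_left _ (by rw [hc.hM2]; omega)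
    have : 0 ≤ d2 * m1 := Nat.zero_le _
    omega
  have hL19 : 18 * M2 < 20 * L.card := by
    have : d1 * (18 * M2) < d1 * (20 * L.card) := by
      have e1 : d1 * (18 * M2) = 18 * (d1 * M2) := by ring
      have e2 : d1 * (20 * L.card) = 20 * (d1 * L.card) := by ring
      omega
    exact Nat.lt_of_mul_lt_mul_left this
  have hL3 : 3 * β2 ≤ L.card := by
    have := hc.N2
    omega
  obtain ⟨w0, hw0⟩ := centre h2.bi hc.hβ2 h1.toBase h1.p3 h1.bic hc.hKθ
    (by have := hc.hθ; omega) C hC L hLm hL3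
  refine ⟨w0, _, hw0, ?_⟩
  intro x y hxy hyU
  simp only [Finset.mem_filter, Finset.mem_univ, true_and, not_not] at hyU
  have := hyU ((hmC x y).2 hxy)
  rwa [mem_nb] at this

/-- consequences of the first centre -/
theorem stage2s {H1 : SimpleGraph X} {H2 : SimpleGraph Y}
    {d1 M1 β1 e1 q1 m1 d2 M2 β2 e2 q2 r2 K θ : ℕ}
    (h1 : Good H1 d1 β1 K θ e1) (h2 : Good H2 d2 β2 K θ e2)
    (hX : Fintype.card X = M1) (hY : Fintype.card Y = M2)
    (hc : PC d1 M1 β1 q1 m1 d2 M2 β2 e2 q2 r2 K θ) (I : Finset (X × Y))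
    (hr : ∀ x y x' y', (x, y) ∈ I → (x', y') ∈ I → H1.Adj x x' → Q H2 y y')
    (hq : ∀ x y x' y', (x, y) ∈ I → (x', y') ∈ I → H2.Adj y y' → Q H1 x x')
    (Df : ℕ) (hDf : I.card + Df = d1 * r2 + d2 * m1) (w0 : X) (U0 : Finset Y)
    (hU0 : U0.card < β2)
    (hcen : ∀ x y, (x, y) ∈ I → y ∉ U0 → H1.Adj w0 x) :
    ∃ (U : Finset Y) (J Ja Jb Ms : Finset (X × Y)) (D : Finset X),
      J = I.filter (fun p => p.1 ∉ nb H1 w0) ∧ Ms = (nb H1 w0 ×ˢ Finset.univ) \ I ∧
      U = J.image Prod.snd ∧ U.card < β2 ∧ D ⊆ nb H1 w0 ∧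
      (∀ x ∈ D, r2 ≤ (row Ms x).card) ∧
      J = Jb ∪ Ja ∧ Disjoint Jb Ja ∧
      (∀ p ∈ Ja, ¬ Q H1 w0 p.1 ∧ ¬ H1.Adj w0 p.1) ∧
      Jb.card ≤ D.card * d1 * U.card ∧
      J.card + d1 * q2 + Df = d2 * m1 + Ms.card ∧
      (∀ y ∈ nbs H2 U, d1 - K ≤ (col Ms y).card) ∧
      2 * Ms.card ≤ 3 * (d1 * q2 + Df) ∧
      12 * (β1 * U.card) ≤ Ms.card := by
  classical
  have hB1 := h1.toBase
  have hB2 := h2.toBase
  obtain ⟨hq1, hq2, hM1, hM2, hβ1, hβ2, hKθ, hθ, hθd, hKd, hKe, N1, N2, N3, N4, N5, N6, N7, N8,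
    N9⟩ := hc
  set J := I.filter (fun p => p.1 ∉ nb H1 w0) with hJdef
  set Ms := (nb H1 w0 ×ˢ (Finset.univ : Finset Y)) \ I with hMsdef
  set U := J.image Prod.snd with hUdef
  have hJI : ∀ p ∈ J, p ∈ I ∧ ¬ H1.Adj w0 p.1 := by
    intro p hp
    simpa [hJdef] using hp
  have hUU : U ⊆ U0 := by
    intro y hy
    rw [hUdef, Finset.mem_image] at hy
    obtain ⟨p, hp, rfl⟩ := hy
    by_contra hcon
    obtain ⟨hp1, hp2⟩ := hJI p hp
    exact hp2 (hcen p.1 p.2 hp1 hcon)
  have hUc : U.card < β2 := lt_of_le_of_lt (Finset.card_le_card hUU) hU0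
  have hstar : J.card + d1 * M2 = I.card + Ms.card := by
    have := star_count hB1 w0 I
    rw [hY] at this
    exact this
  have hstar2 : J.card + d1 * q2 + Df = d2 * m1 + Ms.card := by
    rw [hM2] at hstar
    have : d1 * (q2 + r2) = d1 * q2 + d1 * r2 := by ring
    omega
  -- columns next to `U`
  have hcolK : ∀ y ∈ nbs H2 U, d1 - K ≤ (col Ms y).card := by
    intro y' hy'
    rw [mem_nbs] at hy'
    obtain ⟨y, hy, hadj⟩ := hy'
    rw [hUdef, Finset.mem_image] at hy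
    obtain ⟨⟨x, y1⟩, hp, rfl⟩ := hy
    obtain ⟨hp1, hp2⟩ := hJI _ hp
    simp only at hp1 hp2 hadj
    have hcol : col Ms y' = nb H1 w0 \ ((nb H1 w0) ∩ col I y') := by
      ext x'
      simp only [hMsdef, mem_col, Finset.mem_sdiff, Finset.mem_product, Finset.mem_univ, and_true,
        Finset.mem_inter]
      tauto
    have hfew : ((nb H1 w0) ∩ col I y').card ≤ K := by
      apply few_Q hB1 h1.p3 hp2
      intro x' hx'
      rw [Finset.mem_inter, mem_nb, mem_col] at hx'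
      exact ⟨hx'.1, hq x y1 x' y' hp1 hx'.2 hadj⟩
    rw [hcol, Finset.card_sdiff_of_subset Finset.inter_subset_left, hB1.reg]
    omega
  have hmcol : (nbs H2 U).card * (d1 - K) ≤ Ms.card := miss_col Ms _ _ hcolK
  have hexp : e2 * U.card ≤ (nbs H2 U).card := h2.ex U (by omega)
  -- damaged rows
  set D := (nb H1 w0).filter (fun x' => ∃ p ∈ J, H1.Adj p.1 x') with hDdef
  have hrowD : ∀ x' ∈ D, r2 ≤ (row Ms x').card := by
    intro x' hx'
    rw [hDdef, Finset.mem_filter] at hx'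
    obtain ⟨hx1, ⟨x, y⟩, hp, hadj⟩ := hx'
    obtain ⟨hp1, hp2⟩ := hJI _ hp
    simp only at hp1 hp2 hadj
    have hrow : row Ms x' = Finset.univ \ row I x' := by
      ext y'
      simp only [hMsdef, mem_row, Finset.mem_sdiff, Finset.mem_product, Finset.mem_univ, and_true,
        true_and]
      tauto
    have hrq : row I x' ⊆ Finset.univ.filter (fun y' => Q H2 y y') := by
      intro y' hy'
      rw [mem_row] at hy'
      simp only [Finset.mem_filter, Finset.mem_univ, true_and]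
      exact hr x y x' y' hp1 hy' hadj
    have hcq := Finset.card_le_card hrq
    rw [Q_card hB2 y, ← hq2] at hcq
    rw [hrow, Finset.card_sdiff_of_subset (Finset.subset_univ _), Finset.card_univ, hY, hM2]
    omega
  have hmrow : D.card * r2 ≤ Ms.card := miss_row _ _ _ hrowD
  -- upper bound for `J`
  set Jb := J.filter (fun p => ∃ x' ∈ D, H1.Adj p.1 x') with hJbdef
  set Ja := J.filter (fun p => ¬ ∃ x' ∈ D, H1.Adj p.1 x') with hJadef
  have hJsplit : J.card = Jb.card + Ja.card :=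
    (Finset.card_filter_add_card_filter_not (s := J) (fun p => ∃ x' ∈ D, H1.Adj p.1 x')).symm
  have hJa : ∀ p ∈ Ja, ¬ Q H1 w0 p.1 ∧ ¬ H1.Adj w0 p.1 := by
    intro p hp
    rw [hJadef, Finset.mem_filter] at hp
    obtain ⟨hp1, hp2⟩ := hp
    obtain ⟨hp3, hp4⟩ := hJI p hp1
    refine ⟨?_, hp4⟩
    have hmem : ∀ x', H1.Adj w0 x' → H1.Adj p.1 x' → x' ∈ D := by
      intro x' hx1 hx2
      rw [hDdef, Finset.mem_filter, mem_nb]
      exact ⟨hx1, p, hp1, hx2⟩
    rintro (h | ⟨z, hz1, hz2⟩)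
    · -- `w0 = p.1`
      have hd1 : 0 < d1 := by
        rcases Nat.eq_zero_or_pos d1 with h0 | h0
        · subst h0
          omega
        · exact h0
      have : 0 < (nb H1 w0).card := by rw [hB1.reg]; exact hd1
      obtain ⟨z, hz⟩ := Finset.card_pos.1 this
      rw [mem_nb] at hz
      exact hp2 ⟨z, hmem z hz (h ▸ hz), h ▸ hz⟩
    · exact hp2 ⟨z, hmem z hz1 hz2, hz2⟩
  have hUJ : ∀ p ∈ J, p.2 ∈ U := fun p hp => Finset.mem_image_of_mem _ hp
  have hJbc : Jb.card ≤ D.card * d1 * U.card := by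
    have hsub : Jb ⊆ (nbs H1 D) ×ˢ U := by
      intro p hp
      rw [hJbdef, Finset.mem_filter] at hp
      obtain ⟨hp1, x', hx', hadj⟩ := hp
      rw [Finset.mem_product, mem_nbs]
      exact ⟨⟨x', hx', hadj.symm⟩, hUJ p hp1⟩
    refine le_trans (Finset.card_le_card hsub) ?_
    rw [Finset.card_product]
    apply Nat.mul_le_mul_right
    exact Finset.card_biUnion_le_card_mul _ _ _ (fun x _ => (hB1.reg x).le)
  have hJac : Ja.card ≤ 2 * β1 * U.card + m1 * d2 := by
    set X' := Finset.univ.filter (fun x => ¬ Q H1 w0 x ∧ ¬ H1.Adj w0 x) with hX'def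
    have hX'c : X'.card = m1 := by
      apply card_X' hB1 (m1 := m1) (by rw [hX, hM1, hq1]) w0
      intro x
      simp [hX'def]
    have hmass := mass_le (H := H1) (H' := H2) h1.bi hβ1 hB2 h2.bic (by omega : θ ≤ d2)
      (row Ja) (by
        intro x x' hadj y hy y' hy'
        rw [mem_row] at hy hy'
        have h3 := (Finset.mem_filter.1 hy).1
        have h4 := (Finset.mem_filter.1 hy').1
        exact hr x y x' y' (hJI _ h3).1 (hJI _ h4).1 hadj) X' U (by
        intro x _ y hy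
        rw [mem_row] at hy
        exact hUJ _ (Finset.mem_filter.1 hy).1)
    rw [hX'c] at hmass
    have hsum : Ja.card = ∑ x ∈ X', (row Ja x).card := by
      rw [← sum_row Ja]
      symm
      apply Finset.sum_subset (Finset.subset_univ _)
      intro x _ hx
      rw [Finset.card_eq_zero]
      apply Finset.eq_empty_of_forall_notMem
      intro y hy
      rw [mem_row] at hy
      apply hx
      rw [hX'def, Finset.mem_filter]
      exact ⟨Finset.mem_univ _, hJa _ hy⟩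
    rw [hsum]
    exact hmass
  have hkey : Ms.card ≤ d1 * q2 + D.card * d1 * U.card + 2 * β1 * U.card + Df := by
    have : m1 * d2 = d2 * m1 := by ring
    omega
  have hA1 : 8 * (2 * β1 * U.card) ≤ d1 * (nbs H2 U).card := by
    calc 8 * (2 * β1 * U.card) = (16 * β1) * U.card := by ring
      _ ≤ (d1 * e2) * U.card := Nat.mul_le_mul_right _ N4
      _ = d1 * (e2 * U.card) := by ring
      _ ≤ d1 * (nbs H2 U).card := Nat.mul_le_mul_left _ hexp
  have hA2 : 3 * (d1 * (nbs H2 U).card) ≤ 4 * ((nbs H2 U).card * (d1 - K)) := by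
    have : 3 * d1 ≤ 4 * (d1 - K) := by omega
    calc 3 * (d1 * (nbs H2 U).card) = (3 * d1) * (nbs H2 U).card := by ring
      _ ≤ (4 * (d1 - K)) * (nbs H2 U).card := Nat.mul_le_mul_right _ this
      _ = 4 * ((nbs H2 U).card * (d1 - K)) := by ring
  have hB : D.card * d1 * U.card ≤ D.card * (d1 * β2) := by
    rw [Nat.mul_assoc]
    exact Nat.mul_le_mul_left _ (Nat.mul_le_mul_left _ hUc.le)
  have hC : D.card * r2 + D.card * q2 = D.card * M2 := by rw [hM2]; ring
  have hE : D.card * (8 * (q2 + d1 * β2)) ≤ D.card * M2 := Nat.mul_le_mul_left _ N3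
  have hE' : D.card * (8 * (q2 + d1 * β2)) = 8 * (D.card * q2) + 8 * (D.card * (d1 * β2)) := by
    ring
  refine ⟨U, J, Ja, Jb, Ms, D, rfl, rfl, rfl, hUc, Finset.filter_subset _ _, hrowD, ?_, ?_, hJa,
    hJbc, hstar2, hcolK, ?_, ?_⟩
  · rw [hJbdef, hJadef, Finset.filter_union_filter_not_eq]
  · rw [hJbdef, hJadef]
    exact Finset.disjoint_filter_filter_not _ _ _
  · omega
  · have : 12 * (β1 * U.card) = 6 * (2 * β1 * U.card) := by ring
    omega

end Pool.Agent.helper40.TB
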