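import Pool.Agent.helper40.TB.Stab1

set_option linter.all false

namespace Pool.Agent.helper40.TB

open Finset Pool.Agent.helper11.Tight

variable {X Y : Type*} [Fintype X] [DecidableEq X] [Fintype Y] [DecidableEq Y]

/-- the second centre, stable version -/
theorem stage3s {H1 : SimpleGraph X} {H2 : SimpleGraph Y}
    {d1 M1 β1 e1 q1 m1 d2 M2 β2 e2 q2 r2 K θ : ℕ}
    (h1 : Good H1 d1 β1 K θ e1) (h2 : Good H2 d2 β2 K θ e2)
    (hX : Fintype.card X = M1) (hY : Fintype.card Y = M2)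
    (hc : PC d1 M1 β1 q1 m1 d2 M2 β2 e2 q2 r2 K θ) (hc2 : PC2 d1 β1 q1 m1 d2 r2)
    (J : Finset (X × Y))
    (hr : ∀ x y x' y', (x, y) ∈ J → (x', y') ∈ J → H1.Adj x x' → Q H2 y y')
    (w0 : X) (U : Finset Y) (hUJ : ∀ p ∈ J, p.2 ∈ U)
    (hJ : ∀ p ∈ J, ¬ Q H1 w0 p.1 ∧ ¬ H1.Adj w0 p.1)
    (hm : 98 * (d2 * m1) ≤ 100 * J.card) (hu : 100 * (2 * β1 * U.card) ≤ d2 * m1) :
    ∃ y0, (Finset.univ.filter (fun x => ¬ (row J x ⊆ nb H2 y0))).card < β1 := by
  classical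
  have hB1 := h1.toBase
  have hB2 := h2.toBase
  obtain ⟨hq1, hq2, hM1, hM2, hβ1, hβ2, hKθ, hθ, hθd, hKd, hKe, N1, N2, N3, N4, N5, N6, N7, N8,
    N9⟩ := hc
  obtain ⟨E1, E2, E3, E5⟩ := hc2
  set X' := Finset.univ.filter (fun x => ¬ Q H1 w0 x ∧ ¬ H1.Adj w0 x) with hX'def
  have hX'c : X'.card = m1 := by
    apply card_X' hB1 (m1 := m1) (by rw [hX, hM1, hq1]) w0
    intro x
    simp [hX'def]
  have hsum : J.card = ∑ x ∈ X', (row J x).card := by
    rw [← sum_row J]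
    symm
    apply Finset.sum_subset (Finset.subset_univ _)
    intro x _ hx
    rw [Finset.card_eq_zero]
    apply Finset.eq_empty_of_forall_notMem
    intro y hy
    rw [mem_row] at hy
    apply hx
    rw [hX'def, Finset.mem_filter]
    exact ⟨Finset.mem_univ _, hJ _ hy⟩
  set R := X'.filter (fun x => θ < (row J x).card) with hRdef
  set P := X'.filter (fun x => ¬ θ < (row J x).card) with hPdef
  have hRP : R.card + P.card = m1 := by
    rw [← hX'c]
    exact Finset.card_filter_add_card_filter_not (s := X') (fun x => θ < (row J x).card)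
  have hsum2 : J.card = ∑ x ∈ R, (row J x).card + ∑ x ∈ P, (row J x).card := by
    rw [hsum]
    exact (Finset.sum_filter_add_sum_filter_not X' (fun x => θ < (row J x).card) _).symm
  have hPs : ∑ x ∈ P, (row J x).card ≤ P.card * θ := by
    calc ∑ x ∈ P, (row J x).card ≤ ∑ x ∈ P, θ := by
          apply Finset.sum_le_sum
          intro x hx
          rw [hPdef, Finset.mem_filter] at hx
          omega
      _ = P.card * θ := by simp
  have hcompat : ∀ x x', H1.Adj x x' → ∀ y ∈ row J x, ∀ y' ∈ row J x', Q H2 y y' := by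
    intro x x' hadj y hy y' hy'
    rw [mem_row] at hy hy'
    exact hr x y x' y' hy hy' hadj
  have hmass := mass_le (H := H1) (H' := H2) h1.bi hβ1 hB2 h2.bic (by omega : θ ≤ d2)
      (row J) hcompat R U (by
        intro x _ y hy
        rw [mem_row] at hy
        exact hUJ _ hy)
  have hd2 : 0 < d2 := by omega
  have hPbound : P.card * 100 ≤ 6 * m1 := by
    have e1 : P.card * (2 * θ) ≤ P.card * d2 := Nat.mul_le_mul_left _ hθd
    have e2 : R.card * d2 + P.card * d2 = m1 * d2 := by rw [← hRP]; ring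
    have e3 : m1 * d2 = d2 * m1 := by ring
    have e4 : P.card * (2 * θ) = 2 * (P.card * θ) := by ring
    have e5 : 100 * (P.card * d2) ≤ 6 * (d2 * m1) := by omega
    have e6 : (P.card * 100) * d2 ≤ (6 * m1) * d2 := by
      calc (P.card * 100) * d2 = 100 * (P.card * d2) := by ring
        _ ≤ 6 * (d2 * m1) := e5
        _ = (6 * m1) * d2 := by ring
    exact Nat.le_of_mul_le_mul_right e6 hd2
  -- isolated rich rows
  set Iso := R.filter (fun x => ¬ ∃ x', H1.Adj x x' ∧ θ < (row J x').card) with hIsodef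
  set L := R.filter (fun x => ∃ x', H1.Adj x x' ∧ θ < (row J x').card) with hLdef
  have hLI : L.card + Iso.card = R.card :=
    Finset.card_filter_add_card_filter_not (s := R)
      (fun x => ∃ x', H1.Adj x x' ∧ θ < (row J x').card)
  have hIso : Iso.card < 2 * β1 := by
    apply indep_lt h1.bi
    intro a ha b hb hab
    rw [hIsodef, Finset.mem_filter] at ha hb
    apply ha.2
    rw [hRdef, Finset.mem_filter] at hb
    exact ⟨b, hab, hb.1.2⟩
  have hLc : 3 * β1 ≤ L.card := by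
    omega
  exact centre (H := H1) (H' := H2) h1.bi hβ1 hB2 h2.p3 h2.bic hKθ (by omega) (row J) hcompat L
    (by
      intro x hx
      rw [hLdef, Finset.mem_filter, hRdef, Finset.mem_filter] at hx
      exact ⟨hx.1.2, hx.2⟩) hLc

/-- the purely arithmetical end of the stability proof -/
theorem stab_arith {d1 d2 m1 q1 q2 r2 K e2 β1 Df J Ja Jb Ms D u a b x W F defB : ℤ}
    (hd1 : 0 ≤ d1) (hd2 : 0 ≤ d2) (hβ : 0 ≤ β1) (hD : 0 ≤ D) (ha : 0 ≤ a) (hb : 0 ≤ b)
    (hx : 0 ≤ x) (hW : 0 ≤ W) (hF : 0 ≤ F) (hK0 : 0 ≤ K) (he2 : 0 ≤ e2) (hu0 : 0 ≤ u)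
    (hq20 : 0 ≤ q2) (hm1 : 0 ≤ m1) (hr20 : 0 ≤ r2) (hdefB0 : 0 ≤ defB)
    (hKd : 4 * K ≤ d1) (hKe : 2 * K ≤ e2) (hN4 : 16 * β1 ≤ d1 * e2)
    (hE1 : 1000 * (d1 * d2) ≤ m1) (hE3 : 2 * q1 ≤ m1)
    (hD8 : 8 * D ≤ d1) (hru : 8 * (q2 + d1 * u) ≤ q2 + r2)
    (h1 : J + d1 * q2 + Df = d2 * m1 + Ms) (hJ : J = Ja + Jb)
    (h2 : Ja + defB + a * m1 ≤ d2 * m1 + β1 * x)
    (h3 : b * m1 ≤ defB + b * q1)
    (h4 : D * r2 + F * (d1 - D) + W * (d1 - K - D) ≤ Ms)
    (h5 : q2 ≤ F + (a + b) * d2) (h6 : e2 * x ≤ W + K * x)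
    (h7 : Jb ≤ D * d1 * u) :
    2 * (D * r2) + 2 * (a * m1) + defB + e2 * d1 * x ≤ 4 * Df := by
  have i1 : 0 ≤ d1 - D := by linarith
  have i2 : 5 * d1 ≤ 8 * (d1 - K - D) := by linarith
  have i3 : 0 ≤ d1 - K - D := by linarith
  -- full columns
  have k1 : q2 * (d1 - D) ≤ F * (d1 - D) + (a + b) * (d1 * d2) := by
    have e1 : q2 * (d1 - D) ≤ (F + (a + b) * d2) * (d1 - D) := mul_le_mul_of_nonneg_right h5 i1
    have e2 : (a + b) * d2 * (d1 - D) ≤ (a + b) * d2 * d1 :=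
      mul_le_mul_of_nonneg_left (by linarith) (mul_nonneg (by linarith) hd2)
    nlinarith
  -- columns outside
  have k2 : e2 * x ≤ 2 * W := by
    have : 2 * K * x ≤ e2 * x := mul_le_mul_of_nonneg_right hKe hx
    nlinarith
  have k3 : 5 * (e2 * d1 * x) ≤ 16 * (W * (d1 - K - D)) := by
    have e1 : e2 * x * (5 * d1) ≤ 2 * W * (8 * (d1 - K - D)) := by
      apply mul_le_mul k2 i2 (by linarith) (by linarith)
    nlinarith
  have k4 : 16 * (β1 * x) ≤ e2 * d1 * x := by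
    have : 16 * β1 * x ≤ d1 * e2 * x := mul_le_mul_of_nonneg_right hN4 hx
    nlinarith
  have k5 : 1000 * ((a + b) * (d1 * d2)) ≤ (a + b) * m1 := by
    have := mul_le_mul_of_nonneg_left hE1 (show (0:ℤ) ≤ a + b by linarith)
    nlinarith
  have k6 : 2 * (b * q1) ≤ b * m1 := by
    have := mul_le_mul_of_nonneg_left hE3 hb
    nlinarith
  have k7 : D * (8 * (q2 + d1 * u)) ≤ D * (q2 + r2) := mul_le_mul_of_nonneg_left hru hD
  have k8 : 0 ≤ D * r2 := mul_nonneg hD hr20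
  have k9 : 0 ≤ D * q2 := mul_nonneg hD hq20
  have k10 : 0 ≤ D * (d1 * u) := mul_nonneg hD (mul_nonneg hd1 hu0)
  have k11 : D * d1 * u = D * (d1 * u) := by ring
  have k12 : 0 ≤ a * m1 := mul_nonneg ha hm1
  have k13 : 0 ≤ b * m1 := mul_nonneg hb hm1
  have k14 : 0 ≤ e2 * d1 * x := mul_nonneg (mul_nonneg he2 hd1) hx
  have k15 : q2 * (d1 - D) = d1 * q2 - D * q2 := by ring
  have k16 : D * (8 * (q2 + d1 * u)) = 8 * (D * q2) + 8 * (D * (d1 * u)) := by ring
  have k17 : D * (q2 + r2) = D * q2 + D * r2 := by ring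
  have k18 : (a + b) * m1 = a * m1 + b * m1 := by ring
  rw [k11] at h7
  rw [k15] at k1
  rw [k16, k17] at k7
  rw [k18] at k5
  subst hJ
  linarith

end Pool.Agent.helper40.TB
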