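import Pool.Agent.helper40.TB.Stab2

set_option linter.all false

namespace Pool.Agent.helper40.TB

open Finset Pool.Agent.helper11.Tight

variable {X Y : Type*} [Fintype X] [DecidableEq X] [Fintype Y] [DecidableEq Y]

theorem ar_A {Is J a Ms Df b I k : ℕ} (hc3 : Is ≤ J + a) (hstar : J + a + Df = b + Ms)
    (hMs : 2 * Ms ≤ 3 * (a + Df)) (hreg : b ≤ 100 * Df) (hdq : 1000 * a ≤ b)
    (hDf : I + Df = k) : Is + 400 * I ≤ 400 * k := by omega

theorem ar_ru {q2 M2 r2 x y : ℕ} (N3 : 8 * (q2 + y) ≤ M2) (h : x ≤ y) (hM : M2 = q2 + r2) :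
    8 * (q2 + x) ≤ q2 + r2 := by omega

theorem ar_Jb {Jb Dq Ddu Dr : ℕ} (e : 8 * Dq + 8 * Ddu ≤ Dq + Dr) (h : Jb ≤ Ddu) :
    8 * Jb ≤ Dr := by omega

theorem ar_D8 {Dr Ms a Df b c : ℕ} (h1 : Dr ≤ Ms) (h2 : 2 * Ms ≤ 3 * (a + Df))
    (h3 : 1000 * a ≤ b) (h4 : 100 * Df < b) (h5 : b ≤ c) : 8 * Dr ≤ c := by omega

theorem ar_hm {J Ja Jb a Df b Ms Dr : ℕ} (hJ : J = Jb + Ja) (hstar : J + a + Df = b + Ms)
    (h8 : 8 * Jb ≤ Dr) (hDr : Dr ≤ Ms) (hdq : 1000 * a ≤ b) (hreg : 100 * Df < b) :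
    98 * b ≤ 100 * Ja := by omega

theorem ar_hu {x Ms a Df b : ℕ} (h1 : 12 * x ≤ Ms) (h2 : 2 * Ms ≤ 3 * (a + Df))
    (hdq : 1000 * a ≤ b) (hreg : 100 * Df < b) : 100 * (2 * x) ≤ b := by omega

theorem ar_end {Is S T Jb Jf Dr am bm dB ex bx g bq Df I k : ℕ} (h5 : Is ≤ S + T)
    (h6 : S ≤ Jb + Jf) (h7 : Jf ≤ bx) (h8 : T ≤ g) (h9 : 1000 * g ≤ am + bm)
    (h10 : 2 * bq ≤ bm) (hA3 : bm ≤ dB + bq) (h11 : 16 * bx ≤ ex) (hJb : 8 * Jb ≤ Dr)
    (hf : 2 * Dr + 2 * am + dB + ex ≤ 4 * Df) (hDf : I + Df = k) :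
    Is + 400 * I ≤ 400 * k := by omega

/-- columns of `Ja` -/
theorem p_cols {H1 : SimpleGraph X} {H2 : SimpleGraph Y}
    {d1 M1 q1 m1 d2 β1 : ℕ} (hB1 : Base H1 d1) (hB2 : Base H2 d2)
    (hX : Fintype.card X = M1) (hq1 : q1 = 1 + d1 * (d1 - 1)) (hM1 : M1 = q1 + d1 + m1)
    (Ja : Finset (X × Y)) (w0 : X) (U : Finset Y) (hUJ : ∀ p ∈ Ja, p.2 ∈ U)
    (hJa : ∀ p ∈ Ja, ¬ Q H1 w0 p.1 ∧ ¬ H1.Adj w0 p.1) (y0 : Y)
    (hy0 : (Finset.univ.filter (fun x => ¬ (row Ja x ⊆ nb H2 y0))).card < β1) :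
    ∃ defB : ℕ, Ja.card + defB + (nb H2 y0 \ U).card * m1 ≤
        d2 * m1 + β1 * (U \ nb H2 y0).card ∧
      ((nb H2 y0 ∩ U).filter (fun y => (col Ja y).card ≤ q1)).card * m1 ≤
        defB + ((nb H2 y0 ∩ U).filter (fun y => (col Ja y).card ≤ q1)).card * q1 ∧
      (Ja.filter (fun p => p.2 ∈ U \ nb H2 y0)).card ≤ β1 * (U \ nb H2 y0).card := by
  classical
  obtain ⟨X', hX'def⟩ : ∃ X', X' = Finset.univ.filter (fun x => ¬ Q H1 w0 x ∧ ¬ H1.Adj w0 x) :=
    ⟨_, rfl⟩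
  have hX'c : X'.card = m1 := by
    apply card_X' hB1 (m1 := m1) (by rw [hX, hM1, hq1]) w0
    intro x
    simp [hX'def]
  obtain ⟨B0, hB0def⟩ : ∃ B0, B0 = nb H2 y0 ∩ U := ⟨_, rfl⟩
  obtain ⟨Aa, hAadef⟩ : ∃ Aa, Aa = nb H2 y0 \ U := ⟨_, rfl⟩
  obtain ⟨U2, hU2def⟩ : ∃ U2, U2 = U \ nb H2 y0 := ⟨_, rfl⟩
  have hab : B0.card + Aa.card = d2 := by
    rw [← hB2.reg y0, hB0def, hAadef]
    exact Finset.card_inter_add_card_sdiff _ _
  have hcolm : ∀ y, (col Ja y).card ≤ m1 := by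
    intro y
    rw [← hX'c]
    apply Finset.card_le_card
    intro x hx
    rw [mem_col] at hx
    rw [hX'def, Finset.mem_filter]
    exact ⟨Finset.mem_univ _, hJa _ hx⟩
  have hcolV : ∀ y ∈ U2, (col Ja y).card ≤ β1 := by
    intro y hy
    refine le_trans (Finset.card_le_card ?_) hy0.le
    intro x hx
    rw [mem_col] at hx
    rw [Finset.mem_filter]
    refine ⟨Finset.mem_univ _, ?_⟩
    intro hsub
    rw [hU2def, Finset.mem_sdiff] at hy
    exact hy.2 (hsub (by simpa using hx))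
  have hJsum : Ja.card = ∑ y ∈ B0, (col Ja y).card + ∑ y ∈ U2, (col Ja y).card := by
    rw [← sum_col Ja, ← Finset.sum_union]
    · symm
      apply Finset.sum_subset (Finset.subset_univ _)
      intro y _ hy
      rw [Finset.card_eq_zero]
      apply Finset.eq_empty_of_forall_notMem
      intro x hx
      rw [mem_col] at hx
      apply hy
      have hu := hUJ _ hx
      simp only [hB0def, hU2def, Finset.mem_union, Finset.mem_inter, Finset.mem_sdiff]
      by_cases hyn : y ∈ nb H2 y0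
      · exact Or.inl ⟨hyn, hu⟩
      · exact Or.inr ⟨hu, hyn⟩
    · rw [Finset.disjoint_left]
      intro y hy hy'
      simp only [hB0def, hU2def, Finset.mem_inter, Finset.mem_sdiff] at hy hy'
      exact hy'.2 hy.1
  have hU2sum : ∑ y ∈ U2, (col Ja y).card ≤ β1 * U2.card := by
    calc ∑ y ∈ U2, (col Ja y).card ≤ ∑ y ∈ U2, β1 := Finset.sum_le_sum hcolV
      _ = β1 * U2.card := by simp [Nat.mul_comm]
  obtain ⟨defB, hdefBdef⟩ : ∃ defB, defB = ∑ y ∈ B0, (m1 - (col Ja y).card) := ⟨_, rfl⟩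
  have hdefsum : ∑ y ∈ B0, (col Ja y).card + defB = B0.card * m1 := by
    rw [hdefBdef, ← Finset.sum_add_distrib]
    calc ∑ y ∈ B0, ((col Ja y).card + (m1 - (col Ja y).card)) = ∑ y ∈ B0, m1 := by
          apply Finset.sum_congr rfl
          intro y _
          exact Nat.add_sub_of_le (hcolm y)
      _ = B0.card * m1 := by simp
  refine ⟨defB, ?_, ?_, ?_⟩
  · rw [← hAadef, ← hU2def]
    have : d2 * m1 = B0.card * m1 + Aa.card * m1 := by rw [← hab]; ring
    rw [hJsum, this]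
    clear * - hdefsum hU2sum
    omega
  · rw [← hB0def]
    obtain ⟨Bad, hBaddef⟩ : ∃ Bad, Bad = B0.filter (fun y => (col Ja y).card ≤ q1) := ⟨_, rfl⟩
    rw [← hBaddef]
    have e1 : ∑ y ∈ Bad, (m1 - (col Ja y).card) ≤ defB := by
      rw [hdefBdef, hBaddef]
      apply Finset.sum_le_sum_of_subset
      exact Finset.filter_subset _ _
    have e2 : Bad.card * m1 ≤ ∑ y ∈ Bad, (m1 - (col Ja y).card) + Bad.card * q1 := by
      have : Bad.card * q1 = ∑ y ∈ Bad, q1 := by simp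
      rw [this, ← Finset.sum_add_distrib]
      calc Bad.card * m1 = ∑ y ∈ Bad, m1 := by simp
        _ ≤ _ := by
          apply Finset.sum_le_sum
          intro y hy
          rw [hBaddef, Finset.mem_filter] at hy
          have := hy.2
          clear * - this
          omega
    clear * - e1 e2
    omega
  · rw [← hU2def]
    refine le_trans ?_ hU2sum
    have : Ja.filter (fun p => p.2 ∈ U2) ⊆
        U2.biUnion (fun y => (col Ja y).image (fun x => (x, y))) := by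
      intro p hp
      rw [Finset.mem_filter] at hp
      rw [Finset.mem_biUnion]
      refine ⟨p.2, hp.2, ?_⟩
      rw [Finset.mem_image]
      exact ⟨p.1, by rw [mem_col]; exact hp.1, rfl⟩
    refine le_trans (Finset.card_le_card this) ?_
    refine le_trans Finset.card_biUnion_le ?_
    apply Finset.sum_le_sum
    intro y _
    exact Finset.card_image_le

open Classical in
/-- the outer columns -/
theorem p_W {H2 : SimpleGraph Y} {d2 β2 K θ e2 : ℕ} (h2 : Good H2 d2 β2 K θ e2)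
    (U : Finset Y) (hU : U.card < β2) (y0 : Y) :
    e2 * (U \ nb H2 y0).card ≤
      (nbs H2 (U \ nb H2 y0) \ Finset.univ.filter (fun y => Q H2 y0 y)).card +
        K * (U \ nb H2 y0).card := by
  classical
  obtain ⟨U2, hU2def⟩ : ∃ U2, U2 = U \ nb H2 y0 := ⟨_, rfl⟩
  obtain ⟨QQ, hQQdef⟩ : ∃ QQ, QQ = Finset.univ.filter (fun y => Q H2 y0 y) := ⟨_, rfl⟩
  rw [← hU2def, ← hQQdef]
  have hU2c : U2.card ≤ U.card := by
    rw [hU2def]; exact Finset.card_le_card Finset.sdiff_subset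
  have hex : e2 * U2.card ≤ (nbs H2 U2).card := by
    apply h2.ex
    clear * - hU hU2c
    omega
  have hin : (nbs H2 U2 ∩ QQ).card ≤ K * U2.card := by
    have hsub : nbs H2 U2 ∩ QQ ⊆ U2.biUnion (fun y => nb H2 y ∩ QQ) := by
      intro z hz
      rw [Finset.mem_inter, mem_nbs] at hz
      obtain ⟨⟨v, hv, hvz⟩, hz2⟩ := hz
      rw [Finset.mem_biUnion]
      exact ⟨v, hv, by rw [Finset.mem_inter, mem_nb]; exact ⟨hvz, hz2⟩⟩
    refine le_trans (Finset.card_le_card hsub) ?_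
    rw [Nat.mul_comm]
    apply Finset.card_biUnion_le_card_mul
    intro y hy
    apply few_Q h2.toBase h2.p3 (w := y) (x := y0)
    · intro hadj
      rw [hU2def, Finset.mem_sdiff, mem_nb] at hy
      exact hy.2 hadj.symm
    · intro z hz
      rw [Finset.mem_inter, mem_nb, hQQdef, Finset.mem_filter] at hz
      exact ⟨hz.1, hz.2.2⟩
  have := Finset.card_inter_add_card_sdiff (nbs H2 U2) QQ
  clear * - this hin hex
  omega

open Classical in
/-- the full columns -/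
theorem p_full {H1 : SimpleGraph X} {H2 : SimpleGraph Y} {d1 q1 d2 q2 : ℕ}
    (hB1 : Base H1 d1) (hB2 : Base H2 d2)
    (hq1 : q1 = 1 + d1 * (d1 - 1)) (hq2 : q2 = 1 + d2 * (d2 - 1)) (hd2 : 0 < d2)
    (I Ja Ms : Finset (X × Y)) (hJI : ∀ p ∈ Ja, p ∈ I)
    (hq : ∀ x y x' y', (x, y) ∈ I → (x', y') ∈ I → H2.Adj y y' → Q H1 x x')
    (w0 : X) (hMs0 : Ms = (nb H1 w0 ×ˢ Finset.univ) \ I) (U : Finset Y) (y0 : Y) :
    (Finset.univ.filter (fun y => Q H2 y0 y) \
        (Finset.univ.filter (fun y => Q H2 y0 y)).filter (fun z => d1 ≤ (col Ms z).card)).card ≤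
      ((nb H2 y0 \ U).card + ((nb H2 y0 ∩ U).filter (fun y => (col Ja y).card ≤ q1)).card) * d2 ∧
    q2 ≤ ((Finset.univ.filter (fun y => Q H2 y0 y)).filter (fun z => d1 ≤ (col Ms z).card)).card +
      ((nb H2 y0 \ U).card +
        ((nb H2 y0 ∩ U).filter (fun y => (col Ja y).card ≤ q1)).card) * d2 := by
  classical
  obtain ⟨B0, hB0def⟩ : ∃ B0, B0 = nb H2 y0 ∩ U := ⟨_, rfl⟩
  obtain ⟨Aa, hAadef⟩ : ∃ Aa, Aa = nb H2 y0 \ U := ⟨_, rfl⟩
  obtain ⟨QQ, hQQdef⟩ : ∃ QQ, QQ = Finset.univ.filter (fun y => Q H2 y0 y) := ⟨_, rfl⟩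
  rw [← hB0def, ← hAadef, ← hQQdef]
  obtain ⟨Bad, hBaddef⟩ : ∃ Bad, Bad = B0.filter (fun y => (col Ja y).card ≤ q1) := ⟨_, rfl⟩
  obtain ⟨Fs, hFsdef⟩ : ∃ Fs, Fs = QQ.filter (fun z => d1 ≤ (col Ms z).card) := ⟨_, rfl⟩
  rw [← hBaddef, ← hFsdef]
  have hQcov : ∀ z ∈ QQ, ∃ v, H2.Adj y0 v ∧ H2.Adj v z := by
    intro z hz
    rw [hQQdef, Finset.mem_filter] at hz
    rcases hz.2 with h | ⟨v, hv1, hv2⟩
    · have : 0 < (nb H2 y0).card := by rw [hB2.reg]; exact hd2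
      obtain ⟨v, hv⟩ := Finset.card_pos.1 this
      rw [mem_nb] at hv
      exact ⟨v, hv, h ▸ hv.symm⟩
    · exact ⟨v, hv1, hv2.symm⟩
  have hfull : ∀ z ∈ QQ, z ∉ nbs H2 (Aa ∪ Bad) → z ∈ Fs := by
    intro z hz hzn
    obtain ⟨v, hv1, hv2⟩ := hQcov z hz
    have hvn : v ∉ Aa ∪ Bad := by
      intro hv
      apply hzn
      rw [mem_nbs]
      exact ⟨v, hv, hv2⟩
    rw [Finset.mem_union, not_or] at hvn
    have hvB0 : v ∈ B0 := by
      rw [hB0def, Finset.mem_inter, mem_nb]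
      refine ⟨hv1, ?_⟩
      by_contra hvU
      apply hvn.1
      rw [hAadef, Finset.mem_sdiff, mem_nb]
      exact ⟨hv1, hvU⟩
    have hvbig : q1 < (col Ja v).card := by
      by_contra hle
      push Not at hle
      apply hvn.2
      rw [hBaddef, Finset.mem_filter]
      exact ⟨hvB0, hle⟩
    rw [hFsdef, Finset.mem_filter]
    refine ⟨hz, ?_⟩
    rw [← hB1.reg w0]
    apply Finset.card_le_card
    intro x' hx'
    rw [mem_col, hMs0, Finset.mem_sdiff, Finset.mem_product]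
    refine ⟨⟨hx', Finset.mem_univ _⟩, ?_⟩
    intro hI'
    have hle : (col Ja v).card ≤ q1 := by
      rw [hq1, ← Q_card hB1 x']
      apply Finset.card_le_card
      intro x hx
      rw [mem_col] at hx
      simp only [Finset.mem_filter, Finset.mem_univ, true_and]
      exact hq x' z x v hI' (hJI _ hx) hv2.symm
    exact absurd hvbig (Nat.not_lt.2 hle)
  have hnfull : (QQ \ Fs).card ≤ (Aa.card + Bad.card) * d2 := by
    have hsub : QQ \ Fs ⊆ nbs H2 (Aa ∪ Bad) := by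
      intro z hz
      rw [Finset.mem_sdiff] at hz
      by_contra hcon
      exact hz.2 (hfull z hz.1 hcon)
    refine le_trans (Finset.card_le_card hsub) ?_
    refine le_trans (Finset.card_biUnion_le_card_mul _ _ _ (fun x _ => (hB2.reg x).le)) ?_
    exact Nat.mul_le_mul_right _ (Finset.card_union_le _ _)
  have hFsQQ : Fs ⊆ QQ := by rw [hFsdef]; exact Finset.filter_subset _ _
  refine ⟨hnfull, ?_⟩
  have e1 : (QQ \ Fs).card + Fs.card = QQ.card := Finset.card_sdiff_add_card_eq_card hFsQQ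
  have e2 : QQ.card = q2 := by
    rw [hq2, hQQdef]
    exact Q_card hB2 y0
  clear * - e1 e2 hnfull
  omega

/-- lower bound of the number of missing cells -/
theorem p_miss {d1 r2 K : ℕ} (Ms : Finset (X × Y)) (D : Finset X) (Fs W : Finset Y)
    (hD : ∀ x ∈ D, r2 ≤ (row Ms x).card) (hdis : Disjoint Fs W)
    (hF : ∀ y ∈ Fs, d1 ≤ (col Ms y).card) (hW : ∀ y ∈ W, d1 - K ≤ (col Ms y).card) :
    D.card * r2 + (Fs.card * (d1 - D.card) + W.card * (d1 - K - D.card)) ≤ Ms.card := by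
  classical
  have hsp : Ms.card = (Ms.filter (fun p => p.1 ∈ D)).card +
      (Ms.filter (fun p => p.1 ∉ D)).card :=
    (Finset.card_filter_add_card_filter_not (s := Ms) (fun p => p.1 ∈ D)).symm
  have e1 : D.card * r2 ≤ (Ms.filter (fun p => p.1 ∈ D)).card := by
    apply miss_row
    intro x hx
    refine le_trans (hD x hx) ?_
    apply Finset.card_le_card
    intro y hy
    rw [mem_row] at hy ⊢
    rw [Finset.mem_filter]
    exact ⟨hy, hx⟩
  have hcolD : ∀ y, (col Ms y).card ≤ (col (Ms.filter (fun p => p.1 ∉ D)) y).card + D.card := by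
    intro y
    have : col Ms y ⊆ col (Ms.filter (fun p => p.1 ∉ D)) y ∪ D := by
      intro x hx
      rw [Finset.mem_union, mem_col, Finset.mem_filter]
      rw [mem_col] at hx
      by_cases hxD : x ∈ D
      · exact Or.inr hxD
      · exact Or.inl ⟨hx, hxD⟩
    exact le_trans (Finset.card_le_card this) (Finset.card_union_le _ _)
  have e2 : Fs.card * (d1 - D.card) + W.card * (d1 - K - D.card) ≤
      (Ms.filter (fun p => p.1 ∉ D)).card := by
    apply miss_col2 _ _ _ _ _ hdis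
    · intro y hy
      have a1 := hcolD y
      have a2 := hF y hy
      clear * - a1 a2
      omega
    · intro y hy
      have a1 := hcolD y
      have a2 := hW y hy
      clear * - a1 a2
      omega
  rw [hsp]
  exact Nat.add_le_add e1 e2

end Pool.Agent.helper40.TB
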