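import Pool.Agent.helper40.TB.Defs

set_option linter.all false

/-!
# MP_ce98d8_co: the state of the recursion (exponent 1/2)
-/

namespace Pool.Agent.helper40.TB

open Finset Pool.Agent.helper11.Tight

/-- the properties of a tight graph that are propagated by the step theorem -/
structure St {V : Type*} [Fintype V] [DecidableEq V] (T : SimpleGraph V)
    (d K E L t La Lam : ℕ) : Prop where
  reg : ∀ v, (nb T v).card = d
  tri : ∀ p q r, T.Adj p q → T.Adj q r → ¬ T.Adj p r
  stab : ∃ MM : Finset (Finset V), MM.card ≤ 2 ^ Lam ∧ (∀ M ∈ MM, M.card = d) ∧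
    ∀ I : Finset V, Indep T I → ∃ M ∈ MM, (I \ M).card + K * I.card ≤ K * d
  mix : ∀ Y Z : Finset V, Fintype.card V ≤ E * Y.card → Fintype.card V ≤ E * Z.card →
    Y.card * Z.card * d ≤ Fintype.card V * L * eo T Y Z
  sat : ∀ Y : Finset V, t * d ≤ Y.card → ∃ y ∈ Y, Y.card ≤ La * (nb T y ∩ Y).card

end Pool.Agent.helper40.TB
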