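import Pool.Agent.helper40.TB.Link
import Pool.Agent.helper24.TG.S9
import Pool.Agent.helper8.TG.HC1
import Pool.Agent.helper8.TG.HC2

set_option linter.all false
set_option autoImplicit false

/-!
# MP_ce98d8_co: the step theorem from its three parts
-/

namespace Pool.Agent.helper40.TB

open Finset Pool.Agent.helper24.TG

theorem q_ge4 (p : Par) : 4 ≤ p.q := by
  have h1 := p.hLog
  have h2 := p.hLam
  have h3 : 4 ≤ p.c := by
    calc 4 ≤ 10 ^ 6 * 1 := by norm_num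
      _ ≤ 10 ^ 6 * p.Lam := Nat.mul_le_mul_left _ h2
      _ ≤ p.c := h1
  have h4 := p.N4
  have h5 : p.c ≤ p.c ^ (p.kT + 12) := by
    calc p.c = p.c ^ 1 := (pow_one _).symm
      _ ≤ p.c ^ (p.kT + 12) := Nat.pow_le_pow_right (by omega) (by omega)
  have h6 : p.c ^ (p.kT + 12) ≤ p.La * p.c ^ (p.kT + 12) := Nat.le_mul_of_pos_left _ p.hLa
  omega

theorem host_exists (p : Par) : ∃ (P O : Type) (_ : Fintype P) (_ : DecidableEq P)
    (_ : Fintype O) (_ : DecidableEq O), Nonempty (Host P O p.q) := by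
  obtain ⟨h, hh⟩ := p.hsq
  have hq : p.q = 2 ^ (2 * h) := by rw [p.hq, hh, ← pow_mul]; congr 1; ring
  have hq4 := q_ge4 p
  have hh1 : 1 ≤ 2 * h := by
    by_contra hcon
    have : 2 * h = 0 := by omega
    rw [this] at hq
    omega
  obtain ⟨P, i1, i2, ⟨PH⟩⟩ := HC1 (2 * h) hh1
  rw [← hq] at PH
  obtain ⟨Hh⟩ := HC2 P p.q hq4 PH
  exact ⟨P, Finset (P × P), i1, i2, inferInstance, inferInstance, ⟨Hh⟩⟩

theorem step_of_parts (hE : Exist_stmt) (hC : Core_stmt) (hG : Graph_stmt) : StepStmt := by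
  intro p hS E1 h1 h2
  obtain ⟨V, i1, i2, T, MM, hT⟩ := hS
  obtain ⟨P, O, i3, i4, i5, i6, ⟨H⟩⟩ := host_exists p
  obtain ⟨b, hb⟩ := p.hBp
  have hA : Fintype.card (Fin b → ZMod 2) = p.B := by
    rw [Fintype.card_fun, ZMod.card, Fintype.card_fin, hb]
  have hAA : ∀ a : Fin b → ZMod 2, a + a = 0 := by
    intro a
    funext i
    have : ∀ x : ZMod 2, x + x = 0 := by decide
    exact this (a i)
  obtain ⟨v, φ, hv, hφ⟩ := hE p P O (Fin b → ZMod 2) V H T MM hA hAA hT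
  exact hG p P O (Fin b → ZMod 2) V H v T MM φ hA hAA hT hv hφ
    (fun S hSi => hC p P O (Fin b → ZMod 2) V H v T MM φ hA hAA hT hv hφ S hSi) E1 h1 h2

/-- the final theorem from the three parts of the step theorem -/
theorem final_of_parts (hE : Exist_stmt) (hC : Core_stmt) (hG : Graph_stmt) :
    ∀ ε : ℝ, 0 < ε → ∀ N : ℕ, ∃ n : ℕ, N ≤ n ∧
    ∃ (G : SimpleGraph (Fin n)) (k : ℕ),
      (∀ v : Fin n, (G.neighborSet v).ncard = k) ∧ G.CliqueFree 3 ∧ G.indepNum = k ∧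
        (k : ℝ) < (n : ℝ) ^ ((1 : ℝ) / 2 + ε) :=
  final_of_step (step_of_parts hE hC hG)

end Pool.Agent.helper40.TB
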